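import Pool.Agent.Helper58.VW.Win

/-!
# Nearly uniform windows with a small error, also given a label

`UnT μ T ρ l τ ω` : the window of `ρ` digits after the cell of level `l` of `T ω` is uniform up to a factor `1 ± τ`;
`sum_winT` : this fails, summed over the levels, with probability at most `16 * 2^ρ / τ² * (ρ * (A + ρ))`;
`sum_winY` : the same given a label `Y`.
-/

set_option autoImplicit false

namespace Pool.Agent.Helper99.VW

open Finset Pool.Agent.Helper69.RK Pool.Agent.Helper61.GL Pool.Agent.Helper46.WF Pool.Agent.Helper58.VW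

variable {Ω α γ : Type} [Fintype Ω]

theorem phi_sqrt {x : ℝ} (hx : 0 ≤ x) : (Real.sqrt x - 1) ^ 2 ≤ phi x := by
  unfold phi
  rcases hx.eq_or_lt with rfl | hx
  · simp
  · have hs : 0 < Real.sqrt x := Real.sqrt_pos.mpr hx
    have h1 := Real.one_sub_inv_le_log_of_pos hs
    have h2 : Real.log x = 2 * Real.log (Real.sqrt x) := by
      rw [Real.log_sqrt hx.le]
      ring
    have h3 : Real.sqrt x * Real.sqrt x = x := Real.mul_self_sqrt hx.le
    have h4 : x * (1 - (Real.sqrt x)⁻¹) = x - Real.sqrt x := by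
      have : x * (Real.sqrt x)⁻¹ = Real.sqrt x := by
        rw [← div_eq_mul_inv, div_eq_iff hs.ne', h3]
      rw [mul_sub, this, mul_one]
    have h5 : x * (1 - (Real.sqrt x)⁻¹) ≤ x * Real.log (Real.sqrt x) := mul_le_mul_of_nonneg_left h1 hx.le
    rw [h2]
    have h6 : (Real.sqrt x - 1) ^ 2 = x - 2 * Real.sqrt x + 1 := by
      rw [sub_sq, Real.sq_sqrt hx.le]
      ring
    rw [h6]
    nlinarith

theorem phi_close {x τ : ℝ} (hx : 0 ≤ x) (hτ : 0 < τ) (hτ1 : τ ≤ 1) (h : phi x ≤ τ ^ 2 / 16) : |x - 1| ≤ τ := by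
  by_contra hcon
  push Not at hcon
  have h1 := phi_sqrt hx
  obtain ⟨s, hs⟩ : ∃ s, s = Real.sqrt x := ⟨_, rfl⟩
  have hs0 : 0 ≤ s := by rw [hs]; exact Real.sqrt_nonneg x
  have hsx : s * s = x := by rw [hs]; exact Real.mul_self_sqrt hx
  rw [← hs] at h1
  have h2 : (s - 1) ^ 2 ≤ τ ^ 2 / 16 := h1.trans h
  have h3 : |s - 1| ≤ τ / 4 := by
    rw [← abs_of_pos (show 0 < τ / 4 by positivity)]
    rw [← sq_le_sq]
    calc (s - 1) ^ 2 ≤ τ ^ 2 / 16 := h2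
      _ = (τ / 4) ^ 2 := by ring
  rw [abs_le] at h3
  have h4 : x - 1 = (s - 1) * (s + 1) := by rw [← hsx]; ring
  have h5 : |x - 1| ≤ τ := by
    rw [h4, abs_le]
    constructor <;> nlinarith [h3.1, h3.2]
  linarith

/-- **nearly maximal entropy, nearly uniform law**, small errors -/
theorem near_of_ent (w : Ω → ℝ) (hw : ∀ ω, 0 ≤ w ω) (hm : ∑ ω, w ω = 1) (f : Ω → α) (S : Finset α)
    (hS : ∀ ω, w ω ≠ 0 → f ω ∈ S) (N : ℕ) (hN : S.card = N) (hN0 : 0 < N) {τ : ℝ} (hτ : 0 < τ) (hτ1 : τ ≤ 1)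
    (h : Real.logb 2 N - τ ^ 2 / (16 * N) ≤ Hh w f) :
    ∀ c ∈ S, |N * Pw w (fun ω => f ω = c) - 1| ≤ τ := by
  classical
  set P : α → ℝ := fun c => Pw w (fun ω => f ω = c) with hP
  have hP0 : ∀ c, 0 ≤ P c := fun c => Pw_nonneg w hw _
  have hNr : (0 : ℝ) < N := by exact_mod_cast hN0
  have hl2 : 0 < Real.log 2 := Real.log_pos (by norm_num)
  have hsum : ∑ c ∈ S, P c = 1 := by rw [← hm]; exact sum_Pw_values w f S hS
  -- the defect
  have key : ∑ c ∈ S, phi (N * P c) / N = Real.log 2 * (Real.logb 2 N - Hh w f) := by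
    rw [Hh_sum w hm f S hS]
    have h1 : ∀ c ∈ S, phi (N * P c) / N = P c * Real.log N + Real.log 2 * (P c * Real.logb 2 (P c))
        - P c + 1 / N := by
      intro c _
      unfold phi
      by_cases h0 : P c = 0
      · rw [h0]
        simp
      · rw [Real.log_mul hNr.ne' h0]
        have h2 : Real.log 2 * (P c * Real.logb 2 (P c)) = P c * Real.log (P c) := by
          unfold Real.logb
          field_simp
        rw [h2]
        field_simp
    rw [Finset.sum_congr rfl h1, Finset.sum_add_distrib, Finset.sum_sub_distrib,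
      Finset.sum_add_distrib, ← Finset.sum_mul, hsum, ← Finset.mul_sum, Finset.sum_const, hN,
      nsmul_eq_mul]
    have h3 : (N : ℝ) * (1 / N) = 1 := by field_simp
    have h4 : Real.log 2 * Real.logb 2 N = Real.log N := by
      unfold Real.logb
      field_simp
    rw [h3, mul_sub, h4]
    ring
  have hle : Real.log 2 * (Real.logb 2 N - Hh w f) ≤ τ ^ 2 / (16 * N) := by
    have h1 : Real.logb 2 N - Hh w f ≤ τ ^ 2 / (16 * N) := by linarith
    have h2 : Real.log 2 ≤ 1 := by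
      have := Real.log_two_lt_d9
      linarith
    have h3 : (0 : ℝ) < τ ^ 2 / (16 * N) := by positivity
    calc Real.log 2 * (Real.logb 2 N - Hh w f) ≤ Real.log 2 * (τ ^ 2 / (16 * N)) :=
          mul_le_mul_of_nonneg_left h1 hl2.le
      _ ≤ 1 * (τ ^ 2 / (16 * N)) := mul_le_mul_of_nonneg_right h2 h3.le
      _ = _ := one_mul _
  intro c hc
  have h1 : phi (N * P c) / N ≤ τ ^ 2 / (16 * N) := by
    refine le_trans ?_ (le_trans key.le hle)
    exact Finset.single_le_sum (f := fun c => phi (N * P c) / N)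
      (fun c _ => div_nonneg (phi_nonneg (mul_nonneg hNr.le (hP0 c))) hNr.le) hc
  refine phi_close (mul_nonneg hNr.le (hP0 c)) hτ hτ1 ?_
  rw [div_le_iff₀ hNr] at h1
  have h3 : τ ^ 2 / (16 * (N : ℝ)) * N = τ ^ 2 / 16 := by field_simp
  linarith

/-- the window after the cell of level `l` is uniform up to `1 ± τ` -/
def UnT (μ : Ω → ℝ) (T : Ω → ℝ) (ρ l : ℕ) (τ : ℝ) (ω : Ω) : Prop :=
  ∀ k : ℕ, k < 2 ^ ρ → |(2 : ℝ) ^ ρ * Pw (cw μ (fun ω' => cl l (T ω')) ω)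
      (fun ω' => cl (l + ρ) (T ω') = cl l (T ω) * 2 ^ ρ + (k : ℤ)) - 1| ≤ τ

/-- nearly full windows are uniform -/
theorem unT_of_win (μ : Ω → ℝ) (hμ : ∀ ω, 0 ≤ μ ω) (T : Ω → ℝ) (ρ l : ℕ) {τ : ℝ} (hτ : 0 < τ) (hτ1 : τ ≤ 1) (ω : Ω)
    (h0 : μ ω ≠ 0) (h : (ρ : ℝ) - τ ^ 2 / (16 * 2 ^ ρ) ≤
      Hh (cw μ (fun ω' => cl l (T ω')) ω) (fun ω' => cl (l + ρ) (T ω'))) : UnT μ T ρ l τ ω := by
  have h1 := near_of_ent (cw μ (fun ω' => cl l (T ω')) ω) (fun ω' => cw_nonneg μ _ hμ ω ω')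
    (cw_sum μ _ hμ ω h0) (fun ω' => cl (l + ρ) (T ω'))
    ((Finset.range (2 ^ ρ)).image (fun k : ℕ => cl l (T ω) * 2 ^ ρ + (k : ℤ))) (by
      intro ω' h
      obtain ⟨h2, -⟩ := cw_ne_zero μ _ h
      have h3 := cl_window l ρ (T ω')
      rw [h2] at h3
      exact h3) (2 ^ ρ) (card_window _ _) (by positivity) hτ hτ1 (by
        rw [logb_two_pow]
        push_cast
        exact h)
  intro k hk
  have h2 := h1 (cl l (T ω) * 2 ^ ρ + (k : ℤ)) (Finset.mem_image.mpr ⟨k, Finset.mem_range.mpr hk, rfl⟩)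
  push_cast at h2
  exact h2

/-- **most windows of a real variable are uniform** up to `1 ± τ` -/
theorem sum_winT (μ : Ω → ℝ) (hμ : ∀ ω, 0 ≤ μ ω) (hm : ∑ ω, μ ω = 1) (T : Ω → ℝ)
    (hT : ∀ ω, μ ω ≠ 0 → 0 ≤ T ω ∧ T ω < 1) (n : ℕ) (A : ℝ)
    (hH : n - A ≤ Hh μ (fun ω => cl n (T ω))) (ρ M : ℕ) (hM : M + ρ ≤ n + 1) {τ : ℝ} (hτ : 0 < τ) (hτ1 : τ ≤ 1) :
    ∑ l ∈ range M, Pw μ (fun ω => ¬ UnT μ T ρ l τ ω) ≤ 16 * 2 ^ ρ / τ ^ 2 * (ρ * (A + ρ)) := by
  classical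
  set H : ℕ → ℝ := fun l => Hh μ (fun ω => cl l (T ω)) with hHdef
  have hup : ∀ l, H l ≤ l := by
    intro l
    have h1 := Hh_le_card μ hμ hm (fun ω => cl l (T ω)) (Finset.Ico (0 : ℤ) (2 ^ l))
      (fun ω h => cl_mem (hT ω h).1 (hT ω h).2) (2 ^ l) (by simp) (by positivity)
    rw [logb_two_pow] at h1
    exact h1
  have hstep : ∀ l k, 0 ≤ H (l + k) - H l ∧ H (l + k) - H l ≤ k := by
    intro l k
    rw [hHdef]
    simp only
    rw [← CH_win μ T k l]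
    refine ⟨e1_nonneg μ _ _ hμ, ?_⟩
    rw [CH_disint μ hμ]
    have h1 : ∀ ω ∈ (univ : Finset Ω), μ ω * Hh (cw μ (fun ω' => cl l (T ω')) ω) (fun ω' => cl (l + k) (T ω'))
        ≤ μ ω * k := by
      intro ω _
      by_cases h0 : μ ω = 0
      · simp [h0]
      · exact mul_le_mul_of_nonneg_left (win_le μ hμ T k l ω h0) (hμ ω)
    refine le_trans (Finset.sum_le_sum h1) ?_
    rw [← Finset.sum_mul, hm, one_mul]
  have hlow : ∀ l, l ≤ n → (l : ℝ) - A ≤ H l := by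
    intro l hl
    have h1 := (hstep l (n - l)).2
    rw [Nat.add_sub_cancel' hl] at h1
    have h2 : ((n - l : ℕ) : ℝ) = n - l := by
      rw [Nat.cast_sub hl]
    rw [h2] at h1
    have h3 : (n : ℝ) - A ≤ H n := hH
    linarith
  -- each level
  have hlev : ∀ l, Pw μ (fun ω => ¬ UnT μ T ρ l τ ω) ≤ 16 * 2 ^ ρ / τ ^ 2 * (ρ - (H (l + ρ) - H l)) := by
    intro l
    have h1 : H (l + ρ) - H l = ∑ ω, μ ω * Hh (cw μ (fun ω' => cl l (T ω')) ω) (fun ω' => cl (l + ρ) (T ω')) := by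
      rw [hHdef]
      simp only
      rw [← CH_win μ T ρ l, CH_disint μ hμ]
    have h2 : ∑ ω, μ ω * ((ρ : ℝ) - Hh (cw μ (fun ω' => cl l (T ω')) ω) (fun ω' => cl (l + ρ) (T ω')))
        = ρ - (H (l + ρ) - H l) := by
      rw [h1]
      simp only [mul_sub]
      rw [Finset.sum_sub_distrib, ← Finset.sum_mul, hm, one_mul]
    have hpos : (0 : ℝ) < τ ^ 2 / (16 * 2 ^ ρ) := by positivity
    have h3 := Pw_markov μ hμ (fun ω => (ρ : ℝ) - Hh (cw μ (fun ω' => cl l (T ω')) ω)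
      (fun ω' => cl (l + ρ) (T ω'))) (fun ω h0 => by
        have := win_le μ hμ T ρ l ω h0
        linarith) hpos h2.le
    refine le_trans (le_trans (Pw_mono μ hμ ?_) h3) (le_of_eq ?_)
    · intro ω h0 hω
      by_contra hcon
      push Not at hcon
      exact hω (unT_of_win μ hμ T ρ l hτ hτ1 ω h0 (by linarith))
    · field_simp
  refine le_trans (Finset.sum_le_sum fun l _ => hlev l) ?_
  rw [← Finset.mul_sum]
  refine mul_le_mul_of_nonneg_left ?_ (by positivity)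
  -- telescoping
  have htel : ∀ ρ' : ℕ, ρ' ≤ ρ → (ρ' : ℝ) * (M - A) - ρ' * ρ ≤ ∑ l ∈ range M, (H (l + ρ') - H l) := by
    intro ρ'
    induction ρ' with
    | zero => intro _; simp
    | succ r ih =>
      intro hr
      have h1 := ih (by omega)
      have h2 : ∑ l ∈ range M, (H (l + (r + 1)) - H l) =
          ∑ l ∈ range M, (H (l + r) - H l) + ∑ l ∈ range M, (H ((l + 1) + r) - H (l + r)) := by
        rw [← Finset.sum_add_distrib]
        refine Finset.sum_congr rfl fun l _ => ?_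
        have : l + (r + 1) = l + 1 + r := by ring
        rw [this]
        ring
      have h3 : ∑ l ∈ range M, (H ((l + 1) + r) - H (l + r)) = H (M + r) - H (0 + r) :=
        Finset.sum_range_sub (fun l => H (l + r)) M
      rw [h2, h3]
      have h4 := hlow (M + r) (by omega)
      have h5 := hup (0 + r)
      have h6 : (r : ℝ) ≤ ρ := by exact_mod_cast (by omega : r ≤ ρ)
      push_cast at h4 h5 ⊢
      linarith
  have h1 := htel ρ le_rfl
  rw [Finset.sum_sub_distrib, Finset.sum_const, card_range, nsmul_eq_mul]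
  linarith

/-! ### conditional version -/

theorem Pw_tower (μ : Ω → ℝ) (hμ : ∀ ω, 0 ≤ μ ω) (Y : Ω → γ) (P : Ω → Prop) :
    Pw μ P = ∑ ω, μ ω * Pw (cw μ Y ω) P := by
  classical
  have h1 := cw_expect μ hμ Y (fun ω => if P ω then 1 else 0)
  have h2 : ∀ w : Ω → ℝ, Pw w P = ∑ ω, w ω * (if P ω then 1 else 0) := by
    intro w
    unfold Pw
    refine Finset.sum_congr rfl fun ω _ => ?_
    by_cases h : P ω <;> simp [h]
  rw [h2 μ, ← h1]
  exact Finset.sum_congr rfl fun ω _ => by rw [h2]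

/-- the window after the cell of level `l`, given `Y` -/
def UnY (μ : Ω → ℝ) (Y : Ω → γ) (T : Ω → ℝ) (ρ l : ℕ) (τ : ℝ) (ω : Ω) : Prop := UnT (cw μ Y ω) T ρ l τ ω

theorem cw_congr' (μ : Ω → ℝ) (Y : Ω → γ) {ω ω' : Ω} (h : Y ω' = Y ω) : cw μ Y ω' = cw μ Y ω := by
  funext x
  exact cw_congr μ Y h x

/-- **most windows of a real variable are uniform given a label** -/
theorem sum_winY (μ : Ω → ℝ) (hμ : ∀ ω, 0 ≤ μ ω) (hm : ∑ ω, μ ω = 1) (Y : Ω → γ) (T : Ω → ℝ)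
    (hT : ∀ ω, μ ω ≠ 0 → 0 ≤ T ω ∧ T ω < 1) (n : ℕ) (A : ℝ)
    (hH : n - A ≤ CH μ (fun ω => cl n (T ω)) Y) (ρ M : ℕ) (hM : M + ρ ≤ n + 1) {τ : ℝ} (hτ : 0 < τ) (hτ1 : τ ≤ 1) :
    ∑ l ∈ range M, Pw μ (fun ω => ¬ UnY μ Y T ρ l τ ω) ≤ 16 * 2 ^ ρ / τ ^ 2 * (ρ * (A + ρ)) := by
  classical
  have h1 : ∀ l, Pw μ (fun ω => ¬ UnY μ Y T ρ l τ ω) = ∑ ω, μ ω * Pw (cw μ Y ω) (fun ω' => ¬ UnT (cw μ Y ω) T ρ l τ ω') := by
    intro l
    rw [Pw_tower μ hμ Y]
    refine Finset.sum_congr rfl fun ω _ => ?_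
    congr 1
    unfold Pw
    refine Finset.sum_congr rfl fun ω' _ => ?_
    by_cases h0 : cw μ Y ω ω' = 0
    · simp [h0]
    · obtain ⟨h2, -⟩ := cw_ne_zero μ Y h0
      have h3 : UnY μ Y T ρ l τ ω' ↔ UnT (cw μ Y ω) T ρ l τ ω' := by
        unfold UnY
        rw [cw_congr' μ Y h2]
      by_cases h4 : UnT (cw μ Y ω) T ρ l τ ω'
      · have h5 : UnY μ Y T ρ l τ ω' := h3.mpr h4
        rw [if_neg (not_not.mpr h5), if_neg (not_not.mpr h4)]
      · have h5 : ¬ UnY μ Y T ρ l τ ω' := fun h => h4 (h3.mp h)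
        rw [if_pos h5, if_pos h4]
  simp only [h1]
  rw [Finset.sum_comm]
  simp only [← Finset.mul_sum]
  have h2 : ∀ ω ∈ (univ : Finset Ω), μ ω * ∑ l ∈ range M, Pw (cw μ Y ω) (fun ω' => ¬ UnT (cw μ Y ω) T ρ l τ ω') ≤
      μ ω * (16 * 2 ^ ρ / τ ^ 2 * (ρ * ((n - Hh (cw μ Y ω) (fun ω => cl n (T ω))) + ρ))) := by
    intro ω _
    by_cases h0 : μ ω = 0
    · simp [h0]
    · refine mul_le_mul_of_nonneg_left ?_ (hμ ω)
      exact sum_winT (cw μ Y ω) (fun ω' => cw_nonneg μ Y hμ ω ω') (cw_sum μ Y hμ ω h0) T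
        (fun ω' h => hT ω' (cw_ne_zero μ Y h).2) n _ (by linarith) ρ M hM hτ hτ1
  refine le_trans (Finset.sum_le_sum h2) ?_
  have h3 : ∑ ω, μ ω * (16 * 2 ^ ρ / τ ^ 2 * (ρ * ((n - Hh (cw μ Y ω) (fun ω => cl n (T ω))) + ρ))) =
      16 * 2 ^ ρ / τ ^ 2 * (ρ * ((n - CH μ (fun ω => cl n (T ω)) Y) + ρ)) := by
    rw [CH_disint μ hμ (fun ω => cl n (T ω)) Y]
    have e1 : ∀ ω, μ ω * (16 * 2 ^ ρ / τ ^ 2 * (ρ * ((n - Hh (cw μ Y ω) (fun ω => cl n (T ω))) + ρ))) =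
        16 * 2 ^ ρ / τ ^ 2 * (ρ * ((n + ρ) * μ ω - μ ω * Hh (cw μ Y ω) (fun ω => cl n (T ω)))) := by
      intro ω
      ring
    simp only [e1]
    rw [← Finset.mul_sum, ← Finset.mul_sum, Finset.sum_sub_distrib, ← Finset.mul_sum, hm]
    ring
  rw [h3]
  refine mul_le_mul_of_nonneg_left ?_ (by positivity)
  refine mul_le_mul_of_nonneg_left ?_ (by positivity)
  linarith

end Pool.Agent.Helper99.VW
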