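import Pool.Agent.Helper99.VW.AStar
import Pool.Agent.Helper99.VW.Uni
import Pool.Agent.Helper31.EC.Am

/-!
# (P) of ns_notes_18d : the hypotheses of Lemma A* hold at most levels

`μ` a finite law, `K` a label (the fibre), `T` a real variable; `amw μ μ K K` is the law of two points `x.1`, `x.2` of
one fibre, independent given `K`. If `T x.2` is full given `(lab x, K)` (`lab` = rounded differences of the two points)
then at most levels `l`, for most pairs: the windows of both points are nearly uniform and the windows of `x.2` are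
exchangeable given `lab`, for the laws of two independent points of the fibre in the cells of `x.1`, `x.2`.
-/

set_option autoImplicit false

namespace Pool.Agent.Helper99.VW

open Finset Pool.Agent.Helper69.RK Pool.Agent.Helper61.GL Pool.Agent.Helper46.WF Pool.Agent.Helper58.VW
open Pool.Agent.Helper31.EC (amw)

variable {Ω γ κ Λ : Type} [Fintype Ω]

/-- iterated conditioning -/
theorem cw_cw (μ : Ω → ℝ) (hμ : ∀ ω, 0 ≤ μ ω) {α : Type} (K : Ω → κ) (C : Ω → α) (ω : Ω) (h0 : μ ω ≠ 0) :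
    cw (cw μ K ω) C ω = cw μ (fun ω' => (C ω', K ω')) ω := by
  classical
  funext ω'
  have h1 : pr (cw μ K ω) C ω = pr μ (fun ω' => (C ω', K ω')) ω / pr μ K ω := by
    rw [e1_pr_eq, e1_pr_eq, Finset.sum_div]
    refine Finset.sum_congr rfl fun ω2 _ => ?_
    unfold cw
    by_cases k1 : C ω2 = C ω <;> by_cases k2 : K ω2 = K ω <;> simp [k1, k2]
  have h2 := (e1_pr_pos μ K hμ ω h0).ne'
  have h3 := (e1_pr_pos μ (fun ω' => (C ω', K ω')) hμ ω h0).ne'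
  have h4 : cw (cw μ K ω) C ω ω' = (if C ω' = C ω then cw μ K ω ω' else 0) / pr (cw μ K ω) C ω := rfl
  rw [h4, h1]
  unfold cw
  by_cases k1 : C ω' = C ω <;> by_cases k2 : K ω' = K ω <;> simp [k1, k2]
  field_simp

/-- the position in the cell `c` of level `l`, the unit is the length of a subcell of level `l + D` -/
noncomputable def Pos (T : Ω → ℝ) (l D : ℕ) (c : ℤ) (ω : Ω) : ℝ := (2 : ℝ) ^ (l + D) * T ω - 2 ^ D * c

/-- the fibre and the cell -/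
noncomputable def KC (K : Ω → κ) (T : Ω → ℝ) (l : ℕ) (ω : Ω) : ℤ × κ := (cl l (T ω), K ω)

theorem cl_iff {l : ℕ} {x : ℝ} {c : ℤ} : cl l x = c ↔ (c : ℝ) ≤ 2 ^ l * x ∧ 2 ^ l * x < c + 1 := by
  unfold cl
  exact Int.floor_eq_iff

omit [Fintype Ω] in
theorem pos_rg {T : Ω → ℝ} {l D : ℕ} {c : ℤ} {ω : Ω} :
    cl l (T ω) = c ↔ 0 ≤ Pos T l D c ω ∧ Pos T l D c ω < 2 ^ D := by
  rw [cl_iff]
  unfold Pos
  rw [pow_add]
  have h2 : (0 : ℝ) < 2 ^ D := by positivity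
  constructor
  · rintro ⟨h1, h3⟩
    constructor <;> nlinarith
  · rintro ⟨h1, h3⟩
    constructor
    · by_contra hc
      push Not at hc
      nlinarith
    · by_contra hc
      push Not at hc
      nlinarith

omit [Fintype Ω] in
theorem wn_iff {T : Ω → ℝ} {l D : ℕ} {c : ℤ} {j : ℕ} {ω : Ω} :
    Wn (Pos T l D c) j ω ↔ cl (l + (D + 3)) (T ω) = c * 2 ^ (D + 3) + (j : ℤ) := by
  rw [cl_iff]
  unfold Wn Pos
  have h1 : (2 : ℝ) ^ (l + (D + 3)) = 8 * 2 ^ (l + D) := by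
    rw [← add_assoc, pow_add _ (l + D) 3]
    norm_num
    ring
  have h2 : (2 : ℝ) ^ (D + 3) = 8 * 2 ^ D := by
    rw [pow_add]
    norm_num
    ring
  push_cast
  rw [h1, h2]
  constructor
  · rintro ⟨h3, h4⟩
    constructor <;> linarith
  · rintro ⟨h3, h4⟩
    constructor <;> linarith

/-- uniform windows -/
theorem nu_of_un (μ : Ω → ℝ) (hμ : ∀ ω, 0 ≤ μ ω) (K : Ω → κ) (T : Ω → ℝ) {l D : ℕ} {τ : ℝ} (hτ : τ ≤ 1 / 2) {ω : Ω}
    (h0 : μ ω ≠ 0) (h : UnY μ K T (D + 3) l τ ω) :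
    Nu (cw μ (KC K T l) ω) (Pos T l D (cl l (T ω))) (2 ^ D) := by
  have hw : ∀ j : ℕ, j < 8 * 2 ^ D → |(2 : ℝ) ^ (D + 3) * Pw (cw μ (KC K T l) ω) (Wn (Pos T l D (cl l (T ω))) j) - 1| ≤ τ := by
    intro j hj
    have h1 := h j (by rw [pow_add]; omega)
    rw [cw_cw μ hμ K (fun ω' => cl l (T ω')) ω h0] at h1
    have h2 : (fun ω' => cl (l + (D + 3)) (T ω') = cl l (T ω) * 2 ^ (D + 3) + (j : ℤ)) =
        Wn (Pos T l D (cl l (T ω))) j := by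
      funext ω'
      exact propext wn_iff.symm
    rw [h2] at h1
    exact h1
  have e2 : (2 : ℝ) ^ (D + 3) = 8 * 2 ^ D := by
    rw [pow_add]
    norm_num
    ring
  have hD : (0 : ℝ) < 2 ^ D := by positivity
  refine ⟨fun ω' => cw_nonneg μ _ hμ ω ω', cw_sum μ _ hμ ω h0, ?_, ?_, ?_⟩
  · intro ω' hω'
    obtain ⟨h1, -⟩ := cw_ne_zero μ _ hω'
    have h2 : cl l (T ω') = cl l (T ω) := (Prod.ext_iff.mp h1).1
    have h3 := (pos_rg (D := D)).mp h2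
    push_cast
    exact h3
  · intro j hj
    have h1 := hw j hj
    rw [abs_le, e2] at h1
    push_cast
    rw [div_le_iff₀ (by positivity)]
    nlinarith [h1.1]
  · intro j hj
    have h1 := hw j hj
    rw [abs_le, e2] at h1
    push_cast
    rw [le_div_iff₀ (by positivity)]
    nlinarith [h1.2]

/-- tower with a measurable event -/
theorem Pw_tower_and (μ : Ω → ℝ) (hμ : ∀ ω, 0 ≤ μ ω) (Y : Ω → γ) (W P : Ω → Prop)
    (hW : ∀ ω ω', μ ω ≠ 0 → μ ω' ≠ 0 → Y ω' = Y ω → (W ω' ↔ W ω)) [DecidablePred W] :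
    Pw μ (fun ω => W ω ∧ P ω) = ∑ ω, μ ω * (if W ω then Pw (cw μ Y ω) P else 0) := by
  classical
  rw [Pw_tower μ hμ Y]
  refine Finset.sum_congr rfl fun ω _ => ?_
  by_cases h0 : μ ω = 0
  · simp [h0]
  congr 1
  by_cases hw : W ω
  · rw [if_pos hw]
    unfold Pw
    refine Finset.sum_congr rfl fun ω' _ => ?_
    by_cases h1 : cw μ Y ω ω' = 0
    · simp [h1]
    · obtain ⟨h2, h3⟩ := cw_ne_zero μ Y h1
      have h4 : W ω' := (hW ω ω' h0 h3 h2).mpr hw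
      by_cases h5 : P ω' <;> simp [h4, h5]
  · rw [if_neg hw]
    unfold Pw
    refine Finset.sum_eq_zero fun ω' _ => ?_
    by_cases h1 : cw μ Y ω ω' = 0
    · simp [h1]
    · obtain ⟨h2, h3⟩ := cw_ne_zero μ Y h1
      have h4 : ¬ W ω' := fun h => hw ((hW ω ω' h0 h3 h2).mp h)
      simp [h4]

/-- `UnY` is a property of the label and the cell -/
theorem unY_congr (μ : Ω → ℝ) (Y : Ω → γ) (T : Ω → ℝ) (ρ l : ℕ) (τ : ℝ) {ω ω' : Ω} (h1 : Y ω' = Y ω)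
    (h2 : cl l (T ω') = cl l (T ω)) : UnY μ Y T ρ l τ ω' ↔ UnY μ Y T ρ l τ ω := by
  unfold UnY
  rw [cw_congr' μ Y h1]
  unfold UnT
  rw [cw_congr' (cw μ Y ω) (fun ω' => cl l (T ω')) h2, h2]

/-- exchange of windows on a measurable event -/
theorem exch_core (μ : Ω → ℝ) (hμ : ∀ ω, 0 ≤ μ ω) (Y : Ω → γ) (T : Ω → ℝ) (ρ l : ℕ) {τ : ℝ} (hτ0 : 0 ≤ τ)
    (hτ : τ ≤ 1 / 2) (V : Ω → Prop)
    (hV : ∀ ω ω', μ ω ≠ 0 → μ ω' ≠ 0 → Y ω' = Y ω → cl l (T ω') = cl l (T ω) → (V ω' ↔ V ω)) (c : ℤ)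
    (hc : ∀ ω, μ ω ≠ 0 → V ω → cl l (T ω) = c) {j j' : ℕ} (hj : j < 2 ^ ρ) (hj' : j' < 2 ^ ρ) :
    Pw μ (fun ω => V ω ∧ cl (l + ρ) (T ω) = c * 2 ^ ρ + (j : ℤ)) ≤
      (1 + 4 * τ) * Pw μ (fun ω => V ω ∧ cl (l + ρ) (T ω) = c * 2 ^ ρ + (j' : ℤ)) +
      Pw μ (fun ω => V ω ∧ ¬ UnY μ Y T ρ l τ ω) := by
  classical
  set Y' : Ω → ℤ × γ := fun ω => (cl l (T ω), Y ω) with hY'
  set W : Ω → Prop := fun ω => V ω ∧ UnY μ Y T ρ l τ ω with hWdef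
  have hW : ∀ ω ω', μ ω ≠ 0 → μ ω' ≠ 0 → Y' ω' = Y' ω → (W ω' ↔ W ω) := by
    intro ω ω' h0 h0' h
    obtain ⟨h1, h2⟩ := Prod.ext_iff.mp h
    rw [hWdef]
    show V ω' ∧ _ ↔ V ω ∧ _
    rw [hV ω ω' h0 h0' h2 h1, unY_congr μ Y T ρ l τ h2 h1]
  have hF : ∀ i : ℕ, i < 2 ^ ρ → ∀ ω, μ ω ≠ 0 → W ω → |(2 : ℝ) ^ ρ * Pw (cw μ Y' ω) (fun ω' =>
      cl (l + ρ) (T ω') = c * 2 ^ ρ + (i : ℤ)) - 1| ≤ τ := by
    intro i hi ω h0 hw
    have h1 := hw.2 i hi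
    rw [cw_cw μ hμ Y (fun ω' => cl l (T ω')) ω h0, hc ω h0 hw.1] at h1
    exact h1
  have hS : ∀ i : ℕ, i < 2 ^ ρ → (1 - τ) * Pw μ W ≤ 2 ^ ρ * Pw μ (fun ω => W ω ∧ cl (l + ρ) (T ω) = c * 2 ^ ρ + (i : ℤ)) ∧
      2 ^ ρ * Pw μ (fun ω => W ω ∧ cl (l + ρ) (T ω) = c * 2 ^ ρ + (i : ℤ)) ≤ (1 + τ) * Pw μ W := by
    intro i hi
    rw [Pw_tower_and μ hμ Y' W _ hW, Finset.mul_sum]
    have e1 : Pw μ W = ∑ ω, μ ω * (if W ω then 1 else 0) := by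
      unfold Pw
      refine Finset.sum_congr rfl fun ω _ => ?_
      by_cases h : W ω <;> simp [h]
    rw [e1, Finset.mul_sum, Finset.mul_sum]
    constructor
    · refine Finset.sum_le_sum fun ω _ => ?_
      by_cases h0 : μ ω = 0
      · simp [h0]
      by_cases hw : W ω
      · rw [if_pos hw, if_pos hw]
        have h1 := (abs_le.mp (hF i hi ω h0 hw)).1
        have h2 := hμ ω
        nlinarith
      · rw [if_neg hw, if_neg hw]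
        simp
    · refine Finset.sum_le_sum fun ω _ => ?_
      by_cases h0 : μ ω = 0
      · simp [h0]
      by_cases hw : W ω
      · rw [if_pos hw, if_pos hw]
        have h1 := (abs_le.mp (hF i hi ω h0 hw)).2
        have h2 := hμ ω
        nlinarith
      · rw [if_neg hw, if_neg hw]
        simp
  have h1 := (hS j hj).2
  have h2 := (hS j' hj').1
  have hp : (0 : ℝ) < 2 ^ ρ := by positivity
  have hWn : 0 ≤ Pw μ W := Pw_nonneg μ hμ _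
  have h3 : Pw μ (fun ω => W ω ∧ cl (l + ρ) (T ω) = c * 2 ^ ρ + (j : ℤ)) ≤
      (1 + 4 * τ) * Pw μ (fun ω => W ω ∧ cl (l + ρ) (T ω) = c * 2 ^ ρ + (j' : ℤ)) := by
    have e1 : (1 + τ) ≤ (1 + 4 * τ) * (1 - τ) := by nlinarith
    have e2 : (1 + τ) * Pw μ W ≤ (1 + 4 * τ) * ((1 - τ) * Pw μ W) := by
      rw [← mul_assoc]
      exact mul_le_mul_of_nonneg_right e1 hWn
    have e3 : (1 + 4 * τ) * ((1 - τ) * Pw μ W) ≤
        (1 + 4 * τ) * (2 ^ ρ * Pw μ (fun ω => W ω ∧ cl (l + ρ) (T ω) = c * 2 ^ ρ + (j' : ℤ))) :=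
      mul_le_mul_of_nonneg_left h2 (by linarith)
    have e4 := h1.trans (e2.trans e3)
    have e5 : (1 + 4 * τ) * (2 ^ ρ * Pw μ (fun ω => W ω ∧ cl (l + ρ) (T ω) = c * 2 ^ ρ + (j' : ℤ))) =
        2 ^ ρ * ((1 + 4 * τ) * Pw μ (fun ω => W ω ∧ cl (l + ρ) (T ω) = c * 2 ^ ρ + (j' : ℤ))) := by ring
    rw [e5] at e4
    exact le_of_mul_le_mul_left e4 hp
  have h4 : Pw μ (fun ω => V ω ∧ cl (l + ρ) (T ω) = c * 2 ^ ρ + (j : ℤ)) ≤
      Pw μ (fun ω => W ω ∧ cl (l + ρ) (T ω) = c * 2 ^ ρ + (j : ℤ)) + Pw μ (fun ω => V ω ∧ ¬ UnY μ Y T ρ l τ ω) := by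
    refine le_trans (Pw_mono μ hμ ?_) (Pw_or μ hμ _ _)
    rintro ω - ⟨h5, h6⟩
    by_cases h7 : UnY μ Y T ρ l τ ω
    · exact Or.inl ⟨⟨h5, h7⟩, h6⟩
    · exact Or.inr ⟨h5, h7⟩
  have h5 : Pw μ (fun ω => W ω ∧ cl (l + ρ) (T ω) = c * 2 ^ ρ + (j' : ℤ)) ≤
      Pw μ (fun ω => V ω ∧ cl (l + ρ) (T ω) = c * 2 ^ ρ + (j' : ℤ)) :=
    Pw_mono μ hμ (fun ω _ h => ⟨h.1.1, h.2⟩)
  have h6 : (1 + 4 * τ) * Pw μ (fun ω => W ω ∧ cl (l + ρ) (T ω) = c * 2 ^ ρ + (j' : ℤ)) ≤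
      (1 + 4 * τ) * Pw μ (fun ω => V ω ∧ cl (l + ρ) (T ω) = c * 2 ^ ρ + (j' : ℤ)) :=
    mul_le_mul_of_nonneg_left h5 (by linarith)
  linarith

end Pool.Agent.Helper99.VW
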