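import Pool.Agent.Helper99.VW.Inc
import Pool.Agent.Helper58.VW.LemA

/-!
# LEMMA A* of ns_notes_18d (a cell of length `N` whose unit subcells are thin tubes is a thin tube)

Two independent finite laws `w₁`, `w₂` (the laws of two points of one fibre, restricted to two cells), real variables
`S₁`, `S₂` with values in `[0, N)` (position in the cell, the unit is the length of a subcell), vectors `A₁`, `A₂` in a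
real space with a seminorm `p`.

* `Nu` : the windows of length `1 / 8` have probability `1 / (8 N)` up to a factor `2`;
* `Exc` : given a label `lab` (which determines the difference `S₁ - S₂` up to `θ`), the windows of `S₂` are
  exchangeable up to `ε`;
* `Psi` : the label determines `A₁ - A₂` up to `r`;
* `astar` : if most unit subcells of both cells are tubes of thickness `r`, with slopes `a₁ u`, `a₂ u`, then all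
  these slopes are equal up to `C r`, and both cells are tubes of thickness `C r` with a common slope. `C` does not
  depend on `N`.
-/

set_option autoImplicit false

namespace Pool.Agent.Helper99.VW

open Finset Pool.Agent.Helper46.WF Pool.Agent.Helper58.VW

variable {E : Type*} [AddCommGroup E] [Module ℝ E] {Ω Ω₁ Ω₂ : Type} [Fintype Ω] [Fintype Ω₁] [Fintype Ω₂]

/-- the window `j` -/
def Wn (S : Ω → ℝ) (j : ℕ) (ω : Ω) : Prop := (j : ℝ) / 8 ≤ S ω ∧ S ω < ((j : ℝ) + 1) / 8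

/-- the subcell `u` -/
def Sb (S : Ω → ℝ) (u : ℕ) (ω : Ω) : Prop := (u : ℝ) ≤ S ω ∧ S ω < (u : ℝ) + 1

/-- near uniform windows -/
structure Nu (w : Ω → ℝ) (S : Ω → ℝ) (N : ℕ) : Prop where
  nn : ∀ ω, 0 ≤ w ω
  one : ∑ ω, w ω = 1
  rg : ∀ ω, w ω ≠ 0 → 0 ≤ S ω ∧ S ω < N
  lo : ∀ j < 8 * N, 1 / (16 * (N : ℝ)) ≤ Pw w (Wn S j)
  hi : ∀ j < 8 * N, Pw w (Wn S j) ≤ 1 / (4 * (N : ℝ))

/-- the product law -/
def wp (w₁ : Ω₁ → ℝ) (w₂ : Ω₂ → ℝ) (x : Ω₁ × Ω₂) : ℝ := w₁ x.1 * w₂ x.2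

/-- `T₁ = T₂ + γ` stays in the cell for all `T₂` in the window `j`, with a margin -/
def Adm (N j : ℕ) (γ : ℝ) : Prop := 1 / 16 ≤ (j : ℝ) / 8 + γ ∧ ((j : ℝ) + 1) / 8 + γ ≤ N - 1 / 16

/-- exchangeable windows -/
structure Exc (w₁ : Ω₁ → ℝ) (w₂ : Ω₂ → ℝ) (S₁ : Ω₁ → ℝ) (S₂ : Ω₂ → ℝ) (N : ℕ) {Λ : Type} (lab : Ω₁ × Ω₂ → Λ)
    (θ ε : ℝ) : Prop where
  gam : ∀ x y, wp w₁ w₂ x ≠ 0 → wp w₁ w₂ y ≠ 0 → lab x = lab y → |(S₁ x.1 - S₂ x.2) - (S₁ y.1 - S₂ y.2)| ≤ θ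
  ex : ∀ j j' : ℕ, j < 8 * N → j' < 8 * N → ∀ Z : Λ → Prop,
    (∀ x, wp w₁ w₂ x ≠ 0 → Z (lab x) → Adm N j (S₁ x.1 - S₂ x.2) ∧ Adm N j' (S₁ x.1 - S₂ x.2)) →
    Pw (wp w₁ w₂) (fun x => Wn S₂ j x.2 ∧ Z (lab x)) ≤ Pw (wp w₁ w₂) (fun x => Wn S₂ j' x.2 ∧ Z (lab x)) + ε

/-- the label determines the difference of the vectors -/
def Psi (w₁ : Ω₁ → ℝ) (w₂ : Ω₂ → ℝ) (A₁ : Ω₁ → E) (A₂ : Ω₂ → E) (p : Seminorm ℝ E) {Λ : Type} (lab : Ω₁ × Ω₂ → Λ)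
    (r : ℝ) : Prop :=
  ∀ x y, wp w₁ w₂ x ≠ 0 → wp w₁ w₂ y ≠ 0 → lab x = lab y → p ((A₁ x.1 - A₂ x.2) - (A₁ y.1 - A₂ y.2)) ≤ r

theorem Pw_ex (w : Ω → ℝ) (hw : ∀ ω, 0 ≤ w ω) (s : Finset ℕ) (P : ℕ → Ω → Prop) :
    Pw w (fun ω => ∃ i ∈ s, P i ω) ≤ ∑ i ∈ s, Pw w (P i) := by
  classical
  induction s using Finset.induction_on with
  | empty => simp [Pw]
  | insert a s ha ih =>
    rw [Finset.sum_insert ha]
    refine le_trans (Pw_mono w hw ?_) (le_trans (Pw_or w hw (P a) (fun ω => ∃ i ∈ s, P i ω)) (by linarith))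
    rintro ω _ ⟨i, hi, hx⟩
    rcases Finset.mem_insert.mp hi with rfl | hi
    · exact Or.inl hx
    · exact Or.inr ⟨i, hi, hx⟩

theorem Nu.pos {w : Ω → ℝ} {S : Ω → ℝ} {N : ℕ} (h : Nu w S N) : 0 < N := by
  obtain ⟨ω, -, hω⟩ : ∃ ω, ω ∈ (Finset.univ : Finset Ω) ∧ w ω ≠ 0 := by
    by_contra hcon
    push Not at hcon
    have := h.one
    rw [Finset.sum_eq_zero hcon] at this
    exact zero_ne_one this
  obtain ⟨h1, h2⟩ := h.rg ω hω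
  have : (0 : ℝ) < N := lt_of_le_of_lt h1 h2
  exact_mod_cast this

/-- the probability of a subcell -/
theorem Nu.sb {w : Ω → ℝ} {S : Ω → ℝ} {N : ℕ} (h : Nu w S N) {u : ℕ} (hu : u < N) :
    Pw w (Sb S u) ≤ 2 / (N : ℝ) := by
  have h1 : Pw w (Sb S u) ≤ Pw w (fun ω => ∃ j ∈ Finset.image (fun i => 8 * u + i) (range 8), Wn S j ω) := by
    refine Pw_mono w h.nn ?_
    rintro ω - ⟨h1, h2⟩
    have h3 : 0 ≤ 8 * (S ω - u) := by linarith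
    obtain ⟨i, hi⟩ : ∃ i, i = ⌊8 * (S ω - u)⌋₊ := ⟨_, rfl⟩
    have h4 : (i : ℝ) ≤ 8 * (S ω - u) := by rw [hi]; exact Nat.floor_le h3
    have h5 : 8 * (S ω - u) < i + 1 := by rw [hi]; exact Nat.lt_floor_add_one _
    have h6 : i < 8 := by
      have : (i : ℝ) < 8 := by linarith
      exact_mod_cast this
    refine ⟨8 * u + i, mem_image.mpr ⟨i, mem_range.mpr h6, rfl⟩, ?_, ?_⟩
    · push_cast
      linarith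
    · push_cast
      linarith
  refine h1.trans ((Pw_ex w h.nn _ _).trans ?_)
  rw [Finset.sum_image (by intro a _ b _ hab; simpa using hab)]
  refine (Finset.sum_le_sum (fun i hi => h.hi (8 * u + i) (by rw [mem_range] at hi; omega))).trans ?_
  rw [sum_const, card_range, nsmul_eq_mul]
  apply le_of_eq
  have : (N : ℝ) ≠ 0 := by
    have := h.pos
    positivity
  field_simp
  norm_num

theorem Pw_wp (w₁ : Ω₁ → ℝ) (w₂ : Ω₂ → ℝ) (P : Ω₁ → Prop) (Q : Ω₂ → Prop) :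
    Pw (wp w₁ w₂) (fun x => P x.1 ∧ Q x.2) = Pw w₁ P * Pw w₂ Q := Pw_prod w₁ w₂ P Q

omit [Fintype Ω₁] [Fintype Ω₂] in
theorem wp_nonneg {w₁ : Ω₁ → ℝ} {w₂ : Ω₂ → ℝ} (h₁ : ∀ ω, 0 ≤ w₁ ω) (h₂ : ∀ ω, 0 ≤ w₂ ω) (x : Ω₁ × Ω₂) :
    0 ≤ wp w₁ w₂ x := mul_nonneg (h₁ _) (h₂ _)

variable {w₁ : Ω₁ → ℝ} {w₂ : Ω₂ → ℝ} {S₁ : Ω₁ → ℝ} {S₂ : Ω₂ → ℝ} {A₁ : Ω₁ → E} {A₂ : Ω₂ → E} {p : Seminorm ℝ E} {N : ℕ}
  {Λ : Type} {lab : Ω₁ × Ω₂ → Λ} {θ r ε : ℝ}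

/-- the probability of the bad pairs of two subcells -/
theorem bad_le (h₁ : Nu w₁ S₁ N) (h₂ : Nu w₂ S₂ N) {u₁ u₂ : ℕ} (hu₁ : u₁ < N) (hu₂ : u₂ < N) (B₁ : Ω₁ → Prop)
    (B₂ : Ω₂ → Prop) {κ : ℝ} (hκ : 0 ≤ κ) (hB₁ : Pw w₁ (fun ω => Sb S₁ u₁ ω ∧ B₁ ω) ≤ κ / N)
    (hB₂ : Pw w₂ (fun ω => Sb S₂ u₂ ω ∧ B₂ ω) ≤ κ / N) :
    Pw (wp w₁ w₂) (fun x => (Sb S₁ u₁ x.1 ∧ Sb S₂ u₂ x.2) ∧ (B₁ x.1 ∨ B₂ x.2)) ≤ 4 * κ / (N : ℝ) ^ 2 := by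
  have hw := wp_nonneg h₁.nn h₂.nn
  have h1 : Pw (wp w₁ w₂) (fun x => (Sb S₁ u₁ x.1 ∧ Sb S₂ u₂ x.2) ∧ (B₁ x.1 ∨ B₂ x.2)) ≤
      Pw (wp w₁ w₂) (fun x => (Sb S₁ u₁ x.1 ∧ B₁ x.1) ∧ Sb S₂ u₂ x.2) +
      Pw (wp w₁ w₂) (fun x => Sb S₁ u₁ x.1 ∧ (Sb S₂ u₂ x.2 ∧ B₂ x.2)) := by
    refine le_trans (Pw_mono _ hw ?_) (Pw_or _ hw _ _)
    rintro x - ⟨⟨h1, h2⟩, h3 | h3⟩
    · exact Or.inl ⟨⟨h1, h3⟩, h2⟩
    · exact Or.inr ⟨h1, h2, h3⟩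
  have hN : (0 : ℝ) < N := by exact_mod_cast h₁.pos
  rw [Pw_wp w₁ w₂ (fun ω => Sb S₁ u₁ ω ∧ B₁ ω) (Sb S₂ u₂), Pw_wp w₁ w₂ (Sb S₁ u₁) (fun ω => Sb S₂ u₂ ω ∧ B₂ ω)] at h1
  have h2 : Pw w₁ (fun ω => Sb S₁ u₁ ω ∧ B₁ ω) * Pw w₂ (Sb S₂ u₂) ≤ κ / N * (2 / N) :=
    mul_le_mul hB₁ (h₂.sb hu₂) (Pw_nonneg _ h₂.nn _) (by positivity)
  have h3 : Pw w₁ (Sb S₁ u₁) * Pw w₂ (fun ω => Sb S₂ u₂ ω ∧ B₂ ω) ≤ 2 / N * (κ / N) :=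
    mul_le_mul (h₁.sb hu₁) hB₂ (Pw_nonneg _ h₂.nn _) (by positivity)
  refine h1.trans ((add_le_add h2 h3).trans (le_of_eq ?_))
  field_simp
  ring

/-- **the exchange of windows** -/
theorem Exc.exchange (h₁ : Nu w₁ S₁ N) (h₂ : Nu w₂ S₂ N) (hE : Exc w₁ w₂ S₁ S₂ N lab θ ε) (hθ : θ ≤ 1 / 16)
    {κ : ℝ} (hκ0 : 0 ≤ κ) (hκ : κ ≤ 1 / 8192) (hε : ε ≤ 1 / (1024 * (N : ℝ) ^ 2)) {i i' j j' u₁ u₁' u₂ u₂' : ℕ}
    (he : i' + j = i + j') (hi1 : 8 * u₁ + 2 ≤ i) (hi2 : i ≤ 8 * u₁ + 5) (hi1' : 8 * u₁' + 2 ≤ i')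
    (hi2' : i' ≤ 8 * u₁' + 5) (hj1 : 8 * u₂ ≤ j) (hj2 : j < 8 * u₂ + 8) (hj1' : 8 * u₂' ≤ j') (hj2' : j' < 8 * u₂' + 8)
    (hu₁ : u₁ < N) (hu₁' : u₁' < N) (hu₂ : u₂ < N) (hu₂' : u₂' < N) (B₁ : ℕ → Ω₁ → Prop) (B₂ : ℕ → Ω₂ → Prop)
    (hB₁ : Pw w₁ (fun ω => Sb S₁ u₁ ω ∧ B₁ u₁ ω) ≤ κ / N) (hB₂ : Pw w₂ (fun ω => Sb S₂ u₂ ω ∧ B₂ u₂ ω) ≤ κ / N)
    (hB₁' : Pw w₁ (fun ω => Sb S₁ u₁' ω ∧ B₁ u₁' ω) ≤ κ / N)
    (hB₂' : Pw w₂ (fun ω => Sb S₂ u₂' ω ∧ B₂ u₂' ω) ≤ κ / N) :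
    ∃ x y : Ω₁ × Ω₂, wp w₁ w₂ x ≠ 0 ∧ wp w₁ w₂ y ≠ 0 ∧ lab x = lab y ∧ Wn S₂ j x.2 ∧ Wn S₂ j' y.2 ∧
      Sb S₁ u₁ x.1 ∧ Sb S₁ u₁' y.1 ∧ Sb S₂ u₂ x.2 ∧ Sb S₂ u₂' y.2 ∧
      ¬ B₁ u₁ x.1 ∧ ¬ B₂ u₂ x.2 ∧ ¬ B₁ u₁' y.1 ∧ ¬ B₂ u₂' y.2 := by
  have hw := wp_nonneg h₁.nn h₂.nn
  have hN : (0 : ℝ) < N := by exact_mod_cast h₁.pos
  have c1 : (i' : ℝ) + j = i + j' := by exact_mod_cast he
  have c2 : (8 : ℝ) * u₁ + 2 ≤ i := by exact_mod_cast hi1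
  have c3 : (i : ℝ) ≤ 8 * u₁ + 5 := by exact_mod_cast hi2
  have c4 : (8 : ℝ) * u₁' + 2 ≤ i' := by exact_mod_cast hi1'
  have c5 : (i' : ℝ) ≤ 8 * u₁' + 5 := by exact_mod_cast hi2'
  have c6 : (8 : ℝ) * u₂ ≤ j := by exact_mod_cast hj1
  have c7 : (j : ℝ) + 1 ≤ 8 * u₂ + 8 := by exact_mod_cast hj2
  have c8 : (8 : ℝ) * u₂' ≤ j' := by exact_mod_cast hj1'
  have c9 : (j' : ℝ) + 1 ≤ 8 * u₂' + 8 := by exact_mod_cast hj2'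
  have c10 : (u₁ : ℝ) + 1 ≤ N := by exact_mod_cast hu₁
  have c11 : (u₁' : ℝ) + 1 ≤ N := by exact_mod_cast hu₁'
  have c12 : (0 : ℝ) ≤ u₁ := Nat.cast_nonneg _
  have c13 : (0 : ℝ) ≤ u₁' := Nat.cast_nonneg _
  -- the labels of the good pairs
  obtain ⟨Z, hZ⟩ : ∃ Z : Λ → Prop, ∀ l, Z l ↔ ∃ x, wp w₁ w₂ x ≠ 0 ∧ lab x = l ∧ Wn S₂ j x.2 ∧ Wn S₁ i x.1 ∧
      ¬ B₁ u₁ x.1 ∧ ¬ B₂ u₂ x.2 := ⟨_, fun _ => Iff.rfl⟩
  have hg : ∀ y, wp w₁ w₂ y ≠ 0 → Z (lab y) → ((i : ℝ) - j) / 8 - 3 / 16 ≤ S₁ y.1 - S₂ y.2 ∧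
      S₁ y.1 - S₂ y.2 < ((i : ℝ) - j) / 8 + 3 / 16 := by
    intro y hy hz
    obtain ⟨x, hx, hl, hx2, hx1, -, -⟩ := (hZ _).mp hz
    have h1 := hE.gam x y hx hy hl
    rw [abs_le] at h1
    have h2 := hx2.1
    have h3 := hx2.2
    have h4 := hx1.1
    have h5 := hx1.2
    constructor <;> linarith [h1.1, h1.2]
  have hex := hE.ex j j' (by omega) (by omega) Z (by
    intro x hx hz
    obtain ⟨h1, h2⟩ := hg x hx hz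
    refine ⟨⟨?_, ?_⟩, ⟨?_, ?_⟩⟩ <;> linarith)
  -- lower bound
  have hlow : 1 / (256 * (N : ℝ) ^ 2) - 4 * κ / (N : ℝ) ^ 2 ≤
      Pw (wp w₁ w₂) (fun x => Wn S₂ j x.2 ∧ Z (lab x)) := by
    have e1 : 1 / (256 * (N : ℝ) ^ 2) ≤ Pw (wp w₁ w₂) (fun x => Wn S₁ i x.1 ∧ Wn S₂ j x.2) := by
      rw [Pw_wp]
      have e2 := h₁.lo i (by omega)
      have e3 := h₂.lo j (by omega)
      have e4 : 1 / (16 * (N : ℝ)) * (1 / (16 * N)) ≤ Pw w₁ (Wn S₁ i) * Pw w₂ (Wn S₂ j) :=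
        mul_le_mul e2 e3 (by positivity) (Pw_nonneg _ h₁.nn _)
      refine le_trans (le_of_eq ?_) e4
      field_simp
      norm_num
    have e2 := bad_le h₁ h₂ hu₁ hu₂ (B₁ u₁) (B₂ u₂) hκ0 hB₁ hB₂
    have e3 : Pw (wp w₁ w₂) (fun x => Wn S₁ i x.1 ∧ Wn S₂ j x.2) ≤
        Pw (wp w₁ w₂) (fun x => Wn S₂ j x.2 ∧ Z (lab x)) +
        Pw (wp w₁ w₂) (fun x => (Sb S₁ u₁ x.1 ∧ Sb S₂ u₂ x.2) ∧ (B₁ u₁ x.1 ∨ B₂ u₂ x.2)) := by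
      refine le_trans (Pw_mono _ hw ?_) (Pw_or _ hw _ _)
      rintro x hx ⟨hx1, hx2⟩
      by_cases hb : B₁ u₁ x.1 ∨ B₂ u₂ x.2
      · right
        refine ⟨⟨⟨?_, ?_⟩, ⟨?_, ?_⟩⟩, hb⟩
        · have := hx1.1; linarith
        · have := hx1.2; linarith
        · have := hx2.1; linarith
        · have := hx2.2; linarith
      · left
        push Not at hb
        exact ⟨hx2, (hZ _).mpr ⟨x, hx, rfl, hx2, hx1, hb.1, hb.2⟩⟩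
    linarith
  have e5 := bad_le h₁ h₂ hu₁' hu₂' (B₁ u₁') (B₂ u₂') hκ0 hB₁' hB₂'
  have e6 : Pw (wp w₁ w₂) (fun x => (Sb S₁ u₁' x.1 ∧ Sb S₂ u₂' x.2) ∧ (B₁ u₁' x.1 ∨ B₂ u₂' x.2)) <
      Pw (wp w₁ w₂) (fun x => Wn S₂ j' x.2 ∧ Z (lab x)) := by
    have e7 : 8 * κ / (N : ℝ) ^ 2 + ε < 1 / (256 * (N : ℝ) ^ 2) := by
      have e8 : 8 * κ / (N : ℝ) ^ 2 ≤ 1 / (1024 * (N : ℝ) ^ 2) := by
        rw [div_le_div_iff₀ (by positivity) (by positivity)]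
        have : (0 : ℝ) < (N : ℝ) ^ 2 := by positivity
        nlinarith
      have e9 : 1 / (1024 * (N : ℝ) ^ 2) + 1 / (1024 * (N : ℝ) ^ 2) < 1 / (256 * (N : ℝ) ^ 2) := by
        have : (0 : ℝ) < 1 / (N : ℝ) ^ 2 := by positivity
        have f1 : 1 / (1024 * (N : ℝ) ^ 2) = 1 / 1024 * (1 / (N : ℝ) ^ 2) := by field_simp
        have f2 : 1 / (256 * (N : ℝ) ^ 2) = 1 / 256 * (1 / (N : ℝ) ^ 2) := by field_simp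
        rw [f1, f2]
        linarith
      linarith
    have e10 : 8 * κ / (N : ℝ) ^ 2 = 4 * κ / (N : ℝ) ^ 2 + 4 * κ / (N : ℝ) ^ 2 := by ring
    linarith
  obtain ⟨y, hy0, ⟨hy1, hy2⟩, hy3⟩ := exists_good (wp w₁ w₂) hw _ _ e6
  obtain ⟨g1, g2⟩ := hg y hy0 hy2
  have hs2 : Sb S₂ u₂' y.2 := by
    refine ⟨?_, ?_⟩
    · have := hy1.1; linarith
    · have := hy1.2; linarith
  have hs1 : Sb S₁ u₁' y.1 := by
    have := hy1.1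
    have := hy1.2
    refine ⟨?_, ?_⟩ <;> linarith
  have hb : ¬ B₁ u₁' y.1 ∧ ¬ B₂ u₂' y.2 := by
    by_contra hc
    apply hy3
    refine ⟨⟨hs1, hs2⟩, ?_⟩
    by_contra hd
    push Not at hd
    exact hc hd
  obtain ⟨x, hx0, hxl, hx2, hx1, hxb1, hxb2⟩ := (hZ _).mp hy2
  refine ⟨x, y, hx0, hy0, hxl, hx2, hy1, ⟨?_, ?_⟩, hs1, ⟨?_, ?_⟩, hs2, hxb1, hxb2, hb.1, hb.2⟩
  · have := hx1.1; linarith
  · have := hx1.2; linarith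
  · have := hx2.1; linarith
  · have := hx2.2; linarith

/-- the tubes of the subcells -/
structure Tub (w : Ω → ℝ) (S : Ω → ℝ) (A : Ω → E) (p : Seminorm ℝ E) (N : ℕ) (G : Finset ℕ) (a o : ℕ → E)
    (θ r κ : ℝ) : Prop where
  sub : G ⊆ range N
  dense : Dense N G
  slope : ∀ u ∈ G, θ * p (a u) ≤ r
  tube : ∀ u ∈ G, Pw w (fun ω => Sb S u ω ∧ r < p (A ω - S ω • a u - o u)) ≤ κ / N

/-- the comparison of two pairs -/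
theorem cmp {a f₁ f₁' f₂ f₂' x₁ x₂ y₁ y₂ : E} {s₁ s₂ t₁ t₂ c₁ c₂ : ℝ} (hr : θ * p a ≤ r)
    (hg : |(s₁ - s₂) - (t₁ - t₂)| ≤ θ) (hp : p ((x₁ - x₂) - (y₁ - y₂)) ≤ r) (h1 : p (x₁ - s₁ • a - f₁) ≤ c₁)
    (h2 : p (x₂ - s₂ • a - f₂) ≤ c₂) (h3 : p (y₁ - t₁ • a - f₁') ≤ c₁) (h4 : p (y₂ - t₂ • a - f₂') ≤ c₂) :
    p (f₁ - f₂ - f₁' + f₂') ≤ 2 * r + 2 * c₁ + 2 * c₂ := by
  have e : f₁ - f₂ - f₁' + f₂' = ((x₁ - x₂) - (y₁ - y₂)) - ((s₁ - s₂) - (t₁ - t₂)) • a - (x₁ - s₁ • a - f₁)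
      + (x₂ - s₂ • a - f₂) + (y₁ - t₁ • a - f₁') - (y₂ - t₂ • a - f₂') := by
    simp only [sub_smul]
    abel
  rw [e]
  have q1 := map_sub_le_add p (((x₁ - x₂) - (y₁ - y₂)) - ((s₁ - s₂) - (t₁ - t₂)) • a - (x₁ - s₁ • a - f₁)
      + (x₂ - s₂ • a - f₂) + (y₁ - t₁ • a - f₁')) (y₂ - t₂ • a - f₂')
  have q2 := map_add_le_add p (((x₁ - x₂) - (y₁ - y₂)) - ((s₁ - s₂) - (t₁ - t₂)) • a - (x₁ - s₁ • a - f₁)
      + (x₂ - s₂ • a - f₂)) (y₁ - t₁ • a - f₁')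
  have q3 := map_add_le_add p (((x₁ - x₂) - (y₁ - y₂)) - ((s₁ - s₂) - (t₁ - t₂)) • a - (x₁ - s₁ • a - f₁))
      (x₂ - s₂ • a - f₂)
  have q4 := map_sub_le_add p (((x₁ - x₂) - (y₁ - y₂)) - ((s₁ - s₂) - (t₁ - t₂)) • a) (x₁ - s₁ • a - f₁)
  have q5 := map_sub_le_add p ((x₁ - x₂) - (y₁ - y₂)) (((s₁ - s₂) - (t₁ - t₂)) • a)
  have q6 : p (((s₁ - s₂) - (t₁ - t₂)) • a) ≤ r := by
    rw [map_smul_eq_mul, Real.norm_eq_abs]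
    exact (mul_le_mul_of_nonneg_right hg (apply_nonneg p a)).trans hr
  linarith

/-- step (a): all slopes are equal -/
theorem slopes (h₁ : Nu w₁ S₁ N) (h₂ : Nu w₂ S₂ N) (hE : Exc w₁ w₂ S₁ S₂ N lab θ ε)
    (hp : Psi w₁ w₂ A₁ A₂ p lab r) (hθ : θ ≤ 1 / 16)
    {κ : ℝ} (hκ0 : 0 ≤ κ) (hκ : κ ≤ 1 / 8192) (hε : ε ≤ 1 / (1024 * (N : ℝ) ^ 2)) {G₁ G₂ : Finset ℕ}
    {a₁ o₁ a₂ o₂ : ℕ → E} (t₁ : Tub w₁ S₁ A₁ p N G₁ a₁ o₁ θ r κ) (t₂ : Tub w₂ S₂ A₂ p N G₂ a₂ o₂ θ r κ)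
    {u₁ u₂ : ℕ} (hu₁ : u₁ ∈ G₁) (hu₂ : u₂ ∈ G₂) : p (a₁ u₁ - a₂ u₂) ≤ 24 * r := by
  have hlt₁ := mem_range.mp (t₁.sub hu₁)
  have hlt₂ := mem_range.mp (t₂.sub hu₂)
  obtain ⟨x, y, hx0, hy0, hl, hxj, hyj, -, -, -, -, b1, b2, b3, b4⟩ := hE.exchange h₁ h₂ hθ hκ0 hκ hε (i := 8 * u₁ + 2)
    (i' := 8 * u₁ + 5) (j := 8 * u₂) (j' := 8 * u₂ + 3) (u₁ := u₁) (u₁' := u₁) (u₂ := u₂) (u₂' := u₂) (by omega)
    (by omega) (by omega) (by omega) (by omega) (by omega) (by omega) (by omega) (by omega) hlt₁ hlt₁ hlt₂ hlt₂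
    (fun u ω => r < p (A₁ ω - S₁ ω • a₁ u - o₁ u)) (fun u ω => r < p (A₂ ω - S₂ ω • a₂ u - o₂ u))
    (t₁.tube u₁ hu₁) (t₂.tube u₂ hu₂) (t₁.tube u₁ hu₁) (t₂.tube u₂ hu₂)
  rw [not_lt] at b1 b2 b3 b4
  have hg := hE.gam x y hx0 hy0 hl
  have hp := hp x y hx0 hy0 hl
  -- compare with the slope `a₁ u₁`
  have key := cmp (p := p) (a := a₁ u₁) (f₁ := o₁ u₁) (f₁' := o₁ u₁) (f₂ := o₂ u₂ - S₂ x.2 • (a₁ u₁ - a₂ u₂))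
    (f₂' := o₂ u₂ - S₂ y.2 • (a₁ u₁ - a₂ u₂)) (c₁ := r) (c₂ := r) (t₁.slope u₁ hu₁) hg hp b1 (by
      have e : A₂ x.2 - S₂ x.2 • a₁ u₁ - (o₂ u₂ - S₂ x.2 • (a₁ u₁ - a₂ u₂)) = A₂ x.2 - S₂ x.2 • a₂ u₂ - o₂ u₂ := by
        rw [smul_sub]
        abel
      rw [e]
      exact b2) b3 (by
      have e : A₂ y.2 - S₂ y.2 • a₁ u₁ - (o₂ u₂ - S₂ y.2 • (a₁ u₁ - a₂ u₂)) = A₂ y.2 - S₂ y.2 • a₂ u₂ - o₂ u₂ := by
        rw [smul_sub]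
        abel
      rw [e]
      exact b4)
  have e : o₁ u₁ - (o₂ u₂ - S₂ x.2 • (a₁ u₁ - a₂ u₂)) - o₁ u₁ + (o₂ u₂ - S₂ y.2 • (a₁ u₁ - a₂ u₂)) =
      (S₂ x.2 - S₂ y.2) • (a₁ u₁ - a₂ u₂) := by
    rw [sub_smul]
    abel
  rw [e, map_smul_eq_mul, Real.norm_eq_abs] at key
  have h3 : 1 / 4 ≤ |S₂ x.2 - S₂ y.2| := by
    rw [abs_sub_comm]
    refine le_trans ?_ (le_abs_self _)
    have h4 := hxj.2
    have h5 := hyj.1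
    push_cast at h4 h5
    linarith
  have h6 := mul_le_mul_of_nonneg_right h3 (apply_nonneg p (a₁ u₁ - a₂ u₂))
  linarith

/-- the last step -/
theorem final {w : Ω → ℝ} {S : Ω → ℝ} {A : Ω → E} (h : Nu w S N) {κ : ℝ} {G : Finset ℕ} {a₁ o₁ : ℕ → E}
    (t : Tub w S A p N G a₁ o₁ θ r κ) {a lam b : E} (hs : ∀ u ∈ G, p (a₁ u - a) ≤ 48 * r) (f : ℕ → E)
    (hf : ∀ u, f u = o₁ u + (u : ℝ) • (a₁ u - a)) (hb : ∀ u ∈ G, p (f u - b - (u : ℝ) • lam) ≤ 200 * (150 * r))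
    (hlam : p lam ≤ 3000 * r) (hr : 0 ≤ r) (hκ0 : 0 ≤ κ) :
    Pw w (fun ω => 34000 * r < p (A ω - S ω • (a + lam) - b)) ≤ κ + 2 * (((range N) \ G).card / (N : ℝ)) := by
  classical
  have hN0 : (0 : ℝ) < N := by exact_mod_cast h.pos
  have h1 : Pw w (fun ω => 34000 * r < p (A ω - S ω • (a + lam) - b)) ≤
      Pw w (fun ω => ∃ u ∈ G, Sb S u ω ∧ r < p (A ω - S ω • a₁ u - o₁ u)) +
      Pw w (fun ω => ∃ u ∈ (range N) \ G, Sb S u ω) := by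
    refine le_trans (Pw_mono w h.nn ?_) (Pw_or w h.nn _ _)
    intro ω hω0 hω
    obtain ⟨g1, g2⟩ := h.rg ω hω0
    obtain ⟨u, hu⟩ : ∃ u, u = ⌊S ω⌋₊ := ⟨_, rfl⟩
    have hu1 : (u : ℝ) ≤ S ω := by rw [hu]; exact Nat.floor_le g1
    have hu2 : S ω < u + 1 := by rw [hu]; exact Nat.lt_floor_add_one _
    have hu3 : u < N := by
      have : (u : ℝ) < N := lt_of_le_of_lt hu1 g2
      exact_mod_cast this
    by_cases hG : u ∈ G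
    · left
      refine ⟨u, hG, ⟨hu1, hu2⟩, ?_⟩
      by_contra hcon
      push Not at hcon
      refine absurd hω (not_lt.mpr ?_)
      have e : A ω - S ω • (a + lam) - b = (A ω - S ω • a₁ u - o₁ u) + (S ω - u) • (a₁ u - a) +
          (f u - b - (u : ℝ) • lam) - (S ω - u) • lam := by
        rw [hf, sub_smul, sub_smul, smul_add, smul_sub (S ω) (a₁ u) a]
        abel
      rw [e]
      have q1 := map_sub_le_add p ((A ω - S ω • a₁ u - o₁ u) + (S ω - u) • (a₁ u - a) +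
          (f u - b - (u : ℝ) • lam)) ((S ω - u) • lam)
      have q2 := map_add_le_add p ((A ω - S ω • a₁ u - o₁ u) + (S ω - u) • (a₁ u - a)) (f u - b - (u : ℝ) • lam)
      have q3 := map_add_le_add p (A ω - S ω • a₁ u - o₁ u) ((S ω - u) • (a₁ u - a))
      have q4 : p ((S ω - u) • (a₁ u - a)) ≤ 48 * r := by
        rw [map_smul_eq_mul, Real.norm_eq_abs, abs_of_nonneg (by linarith)]
        have h6 : (S ω - u) * p (a₁ u - a) ≤ 1 * p (a₁ u - a) :=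
          mul_le_mul_of_nonneg_right (by linarith) (apply_nonneg p _)
        have := hs u hG
        linarith
      have q5 : p ((S ω - u) • lam) ≤ 3000 * r := by
        rw [map_smul_eq_mul, Real.norm_eq_abs, abs_of_nonneg (by linarith)]
        have h6 : (S ω - u) * p lam ≤ 1 * p lam := mul_le_mul_of_nonneg_right (by linarith) (apply_nonneg p _)
        linarith
      have q6 := hb u hG
      linarith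
    · right
      exact ⟨u, mem_sdiff.mpr ⟨mem_range.mpr hu3, hG⟩, hu1, hu2⟩
  refine h1.trans (add_le_add ?_ ?_)
  · refine (Pw_ex w h.nn _ _).trans ((Finset.sum_le_sum (fun u hu => t.tube u hu)).trans ?_)
    rw [sum_const, nsmul_eq_mul]
    have h2 : G.card ≤ N := by
      have := card_le_card t.sub
      rwa [card_range] at this
    have h3 : (G.card : ℝ) ≤ N := by exact_mod_cast h2
    have h4 : (G.card : ℝ) * (κ / N) ≤ N * (κ / N) := mul_le_mul_of_nonneg_right h3 (by positivity)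
    have h5 : (N : ℝ) * (κ / N) = κ := by field_simp
    linarith
  · refine (Pw_ex w h.nn _ _).trans ((Finset.sum_le_sum (fun u hu => h.sb (u := u) (by
      rw [mem_sdiff, mem_range] at hu
      exact hu.1))).trans (le_of_eq ?_))
    rw [sum_const, nsmul_eq_mul]
    ring

/-- **LEMMA A*** -/
theorem astar (hN : 64 ≤ N) (h₁ : Nu w₁ S₁ N) (h₂ : Nu w₂ S₂ N) (hE : Exc w₁ w₂ S₁ S₂ N lab θ ε)
    (hp : Psi w₁ w₂ A₁ A₂ p lab r) (hθ : θ ≤ 1 / 16) (hr : 0 ≤ r) {κ : ℝ} (hκ0 : 0 ≤ κ) (hκ : κ ≤ 1 / 8192) (hε : ε ≤ 1 / (1024 * (N : ℝ) ^ 2))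
    {G₁ G₂ : Finset ℕ} {a₁ o₁ a₂ o₂ : ℕ → E} (t₁ : Tub w₁ S₁ A₁ p N G₁ a₁ o₁ θ r κ)
    (t₂ : Tub w₂ S₂ A₂ p N G₂ a₂ o₂ θ r κ) :
    ∃ a b₁ b₂ : E, (∀ u ∈ G₁, p (a₁ u - a) ≤ 34000 * r) ∧ (∀ u ∈ G₂, p (a₂ u - a) ≤ 34000 * r) ∧
      Pw w₁ (fun ω => 34000 * r < p (A₁ ω - S₁ ω • a - b₁)) ≤ κ + 2 * (((range N) \ G₁).card / (N : ℝ)) ∧
      Pw w₂ (fun ω => 34000 * r < p (A₂ ω - S₂ ω • a - b₂)) ≤ κ + 2 * (((range N) \ G₂).card / (N : ℝ)) := by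
  classical
  have hN0 : (0 : ℝ) < N := by exact_mod_cast h₁.pos
  obtain ⟨v, -, -, hv⟩ := t₂.dense.exists1 (a := 0) (L := N) (by omega) (by omega)
  obtain ⟨v', -, -, hv'⟩ := t₁.dense.exists1 (a := 0) (L := N) (by omega) (by omega)
  obtain ⟨a, ha⟩ : ∃ a, a = a₂ v := ⟨_, rfl⟩
  have haθ : θ * p a ≤ r := by rw [ha]; exact t₂.slope v hv
  have s1 : ∀ u ∈ G₁, p (a₁ u - a) ≤ 24 * r := by
    intro u hu
    rw [ha]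
    exact slopes h₁ h₂ hE hp hθ hκ0 hκ hε t₁ t₂ hu hv
  have s2 : ∀ u ∈ G₂, p (a₂ u - a) ≤ 48 * r := by
    intro u hu
    have e1 := slopes h₁ h₂ hE hp hθ hκ0 hκ hε t₁ t₂ hv' hu
    have e2 := s1 v' hv'
    have e3 : a₂ u - a = (a₁ v' - a) - (a₁ v' - a₂ u) := by abel
    rw [e3]
    refine (map_sub_le_add p _ _).trans ?_
    linarith
  obtain ⟨f₁, hf₁⟩ : ∃ f₁ : ℕ → E, ∀ u, f₁ u = o₁ u + (u : ℝ) • (a₁ u - a) := ⟨_, fun _ => rfl⟩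
  obtain ⟨f₂, hf₂⟩ : ∃ f₂ : ℕ → E, ∀ u, f₂ u = o₂ u + (u : ℝ) • (a₂ u - a) := ⟨_, fun _ => rfl⟩
  -- the tubes with the common slope
  have cm : ∀ (A b q o : E) (s c : ℝ) (u : ℕ), (u : ℝ) ≤ s → s < (u : ℝ) + 1 → p (A - s • b - o) ≤ r → p (b - a) ≤ c →
      q = o + (u : ℝ) • (b - a) → p (A - s • a - q) ≤ r + c := by
    intro A b q o s c u h1 h2 h3 h4 h5
    have e : A - s • a - q = (A - s • b - o) + (s - u) • (b - a) := by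
      rw [h5, sub_smul, smul_sub s b a]
      abel
    rw [e]
    refine (map_add_le_add p _ _).trans ?_
    rw [map_smul_eq_mul, Real.norm_eq_abs, abs_of_nonneg (by linarith)]
    have h6 : (s - u) * p (b - a) ≤ 1 * p (b - a) := mul_le_mul_of_nonneg_right (by linarith) (apply_nonneg p _)
    linarith
  -- four terms
  have four : ∀ {i i' j j' x x' y y' : ℕ}, x ∈ G₁ → x' ∈ G₁ → y ∈ G₂ → y' ∈ G₂ → i' + j = i + j' →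
      8 * x + 2 ≤ i → i ≤ 8 * x + 5 → 8 * x' + 2 ≤ i' → i' ≤ 8 * x' + 5 → 8 * y ≤ j → j < 8 * y + 8 → 8 * y' ≤ j' →
      j' < 8 * y' + 8 → p (f₁ x - f₂ y - f₁ x' + f₂ y') ≤ 150 * r := by
    intro i i' j j' x x' y y' hx hx' hy hy' he g1 g2 g3 g4 g5 g6 g7 g8
    obtain ⟨X, Y, hX0, hY0, hl, -, -, k1, k2, k3, k4, b1, b2, b3, b4⟩ := hE.exchange h₁ h₂ hθ hκ0 hκ hε he g1 g2 g3 g4 g5
      g6 g7 g8 (mem_range.mp (t₁.sub hx)) (mem_range.mp (t₁.sub hx')) (mem_range.mp (t₂.sub hy))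
      (mem_range.mp (t₂.sub hy')) (fun u ω => r < p (A₁ ω - S₁ ω • a₁ u - o₁ u))
      (fun u ω => r < p (A₂ ω - S₂ ω • a₂ u - o₂ u)) (t₁.tube x hx) (t₂.tube y hy) (t₁.tube x' hx') (t₂.tube y' hy')
    rw [not_lt] at b1 b2 b3 b4
    have hg := hE.gam X Y hX0 hY0 hl
    have hp := hp X Y hX0 hY0 hl
    have key := cmp (p := p) haθ hg hp (cm _ _ _ _ _ _ _ k1.1 k1.2 b1 (s1 x hx) (hf₁ x))
      (cm _ _ _ _ _ _ _ k3.1 k3.2 b2 (s2 y hy) (hf₂ y)) (cm _ _ _ _ _ _ _ k2.1 k2.2 b3 (s1 x' hx') (hf₁ x'))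
      (cm _ _ _ _ _ _ _ k4.1 k4.2 b4 (s2 y' hy') (hf₂ y'))
    linarith
  obtain ⟨lam, b₁, b₂, hb₁, hb₂, hinc⟩ := common_inc p hN t₁.dense t₂.dense t₁.sub t₂.sub f₁ f₂ (ε := 150 * r)
    (by positivity) (fun x x' y y' hx hx' hy hy' he => four (i := 8 * x + 2) (i' := 8 * x' + 2) (j := 8 * y)
      (j' := 8 * y') hx hx' hy hy' (by omega) (by omega) (by omega) (by omega) (by omega) (by omega) (by omega)
      (by omega) (by omega))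
  -- the slope is small
  have hlam : p lam ≤ 3000 * r := by
    obtain ⟨y, -, -, hy, hy'⟩ := t₂.dense.exists2 t₂.dense (a := 0) (b := 1) (r := 0) (L := N / 2) (by omega) (by omega)
      (by omega)
    rw [add_zero] at hy
    have e1 := four (i := 8 * v' + 3) (i' := 8 * v' + 4) (j := 8 * y + 7) (j' := 8 * (y + 1)) hv' hv' hy hy' (by omega)
      (by omega) (by omega) (by omega) (by omega) (by omega) (by omega) (by omega) (by omega)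
    have e2 := hinc y 1 hy hy' (by omega)
    have e3 : lam = (f₁ v' - f₂ y - f₁ v' + f₂ (y + 1)) - (f₂ (y + 1) - f₂ y - ((1 : ℕ) : ℝ) • lam) := by
      push_cast
      rw [one_smul]
      abel
    rw [e3]
    refine (map_sub_le_add p _ _).trans ?_
    linarith
  refine ⟨a + lam, b₁, b₂, ?_, ?_, ?_, ?_⟩
  · intro u hu
    have e1 : a₁ u - (a + lam) = (a₁ u - a) - lam := by abel
    rw [e1]
    refine (map_sub_le_add p _ _).trans ?_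
    have := s1 u hu
    linarith
  · intro u hu
    have e1 : a₂ u - (a + lam) = (a₂ u - a) - lam := by abel
    rw [e1]
    refine (map_sub_le_add p _ _).trans ?_
    have := s2 u hu
    linarith
  · exact final h₁ t₁ (fun u hu => (s1 u hu).trans (by linarith)) f₁ hf₁ hb₁ hlam hr hκ0
  · exact final h₂ t₂ (fun u hu => (s2 u hu)) f₂ hf₂ hb₂ hlam hr hκ0

end Pool.Agent.Helper99.VW
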