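import Pool.Agent.Helper58.VW.HU

/-!
# Two functions with a common increment (step (b) of Lemma A* of ns_notes_18d)

`f, g : {0..N-1} -> E` are defined on sets `F, G` of density at least `15 / 16`, and `f x - g y` depends only on
`x - y` up to `ε`. Then `f` and `g` are affine with the same slope up to `200 ε`: the constant does not depend
on `N`.
-/

set_option autoImplicit false

namespace Pool.Agent.Helper99.VW

open Finset Pool.Agent.Helper58.VW

variable {E : Type*} [AddCommGroup E] [Module ℝ E]

/-- most of the integers below `N` -/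
def Dense (N : ℕ) (G : Finset ℕ) : Prop := 16 * ((range N) \ G).card ≤ N

/-- three points of dense sets at given distances -/
theorem Dense.exists3 {N : ℕ} {F G K : Finset ℕ} (hF : Dense N F) (hG : Dense N G) (hK : Dense N K) {a b c L r : ℕ}
    (hL : 3 * N < 16 * L) (ha : a + r + L ≤ N) (hb : b + r + L ≤ N) (hc : c + r + L ≤ N) :
    ∃ y, r ≤ y ∧ y < r + L ∧ y + a ∈ F ∧ y + b ∈ G ∧ y + c ∈ K := by
  classical
  by_contra hcon
  push Not at hcon
  have hsub : (range L).image (fun y => y + r) ⊆ (((range N) \ F).image (fun z => z - a)) ∪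
      ((((range N) \ G).image (fun z => z - b)) ∪ (((range N) \ K).image (fun z => z - c))) := by
    intro y hy
    rw [mem_image] at hy
    obtain ⟨z, hz, rfl⟩ := hy
    rw [mem_range] at hz
    rw [mem_union, mem_union]
    by_cases h1 : z + r + a ∈ F
    · by_cases h2 : z + r + b ∈ G
      · have h3 := hcon (z + r) (by omega) (by omega) h1 h2
        right; right
        rw [mem_image]
        exact ⟨z + r + c, by rw [mem_sdiff, mem_range]; exact ⟨by omega, h3⟩, by omega⟩
      · right; left
        rw [mem_image]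
        exact ⟨z + r + b, by rw [mem_sdiff, mem_range]; exact ⟨by omega, h2⟩, by omega⟩
    · left
      rw [mem_image]
      exact ⟨z + r + a, by rw [mem_sdiff, mem_range]; exact ⟨by omega, h1⟩, by omega⟩
  have h1 := card_le_card hsub
  rw [card_image_of_injective _ (add_left_injective r), card_range] at h1
  have h2 := card_union_le (((range N) \ F).image (fun z => z - a))
    ((((range N) \ G).image (fun z => z - b)) ∪ (((range N) \ K).image (fun z => z - c)))
  have h3 := card_union_le (((range N) \ G).image (fun z => z - b)) (((range N) \ K).image (fun z => z - c))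
  have h4 : (((range N) \ F).image (fun z => z - a)).card ≤ ((range N) \ F).card := card_image_le
  have h5 : (((range N) \ G).image (fun z => z - b)).card ≤ ((range N) \ G).card := card_image_le
  have h6 : (((range N) \ K).image (fun z => z - c)).card ≤ ((range N) \ K).card := card_image_le
  unfold Dense at hF hG hK
  omega

theorem Dense.exists2 {N : ℕ} {F G : Finset ℕ} (hF : Dense N F) (hG : Dense N G) {a b L r : ℕ}
    (hL : 3 * N < 16 * L) (ha : a + r + L ≤ N) (hb : b + r + L ≤ N) :
    ∃ y, r ≤ y ∧ y < r + L ∧ y + a ∈ F ∧ y + b ∈ G := by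
  obtain ⟨y, h1, h2, h3, h4, -⟩ := hF.exists3 hG hG hL ha hb hb
  exact ⟨y, h1, h2, h3, h4⟩

/-- one point of a dense set in an interval -/
theorem Dense.exists1 {N : ℕ} {G : Finset ℕ} (hG : Dense N G) {a L : ℕ} (hL : N < 16 * L) (ha : a + L ≤ N) :
    ∃ y, a ≤ y ∧ y < a + L ∧ y ∈ G := by
  classical
  by_contra hcon
  push Not at hcon
  have hsub : (range L).image (fun y => y + a) ⊆ (range N) \ G := by
    intro y hy
    rw [mem_image] at hy
    obtain ⟨z, hz, rfl⟩ := hy
    rw [mem_range] at hz
    rw [mem_sdiff, mem_range]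
    exact ⟨by omega, hcon (z + a) (by omega) (by omega)⟩
  have h1 := card_le_card hsub
  rw [card_image_of_injective _ (add_left_injective a), card_range] at h1
  unfold Dense at hG
  omega

/-- long increments from short increments -/
theorem chain (p : Seminorm ℝ E) {N : ℕ} (hN : 64 ≤ N) {G : Finset ℕ} (hG : Dense N G) (g : ℕ → E) (lam : E) (η : ℝ)
    (hη : 0 ≤ η)
    (h : ∀ y h : ℕ, y ∈ G → y + h ∈ G → h ≤ N / 4 → p (g (y + h) - g y - (h : ℝ) • lam) ≤ η) :
    ∀ k : ℕ, ∀ y h : ℕ, y ∈ G → y + h ∈ G → y + h < N → h ≤ k * (N / 8) →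
      p (g (y + h) - g y - (h : ℝ) • lam) ≤ k * η := by
  intro k
  induction k with
  | zero =>
    intro y h' hy _ _ h0
    have : h' = 0 := by omega
    subst this
    simp
  | succ k ih =>
    intro y h' hy hy' hlt hle
    by_cases hc : h' ≤ N / 4
    · have h1 := h y h' hy hy' hc
      have h2 : (0 : ℝ) ≤ k * η := by positivity
      push_cast
      linarith
    · push Not at hc
      obtain ⟨z, hz1, hz2, hz3⟩ := hG.exists1 (a := y + N / 8) (L := N / 8) (by omega) (by omega)
      obtain ⟨a, rfl⟩ : ∃ a, z = y + a := ⟨z - y, by omega⟩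
      obtain ⟨b, hb⟩ : ∃ b, h' = a + b := ⟨h' - a, by omega⟩
      subst hb
      have h1 := h y a hy hz3 (by omega)
      have h2 := ih (y + a) b hz3 (by rw [add_assoc]; exact hy') (by omega) (by
        rw [add_mul] at hle
        omega)
      have h3 : g (y + (a + b)) - g y - ((a + b : ℕ) : ℝ) • lam =
          (g (y + a + b) - g (y + a) - (b : ℝ) • lam) + (g (y + a) - g y - (a : ℝ) • lam) := by
        rw [← add_assoc]
        push_cast
        rw [add_smul]
        abel
      rw [h3]
      refine (map_add_le_add p _ _).trans ?_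
      push_cast
      linarith

/-- **common increments** -/
theorem common_inc (p : Seminorm ℝ E) {N : ℕ} (hN : 64 ≤ N) {F G : Finset ℕ} (hF : Dense N F) (hG : Dense N G)
    (hF' : F ⊆ range N) (hG' : G ⊆ range N) (f g : ℕ → E) {ε : ℝ} (hε : 0 ≤ ε)
    (h : ∀ x x' y y' : ℕ, x ∈ F → x' ∈ F → y ∈ G → y' ∈ G → x + y' = x' + y →
      p (f x - g y - f x' + g y') ≤ ε) :
    ∃ lam b c : E, (∀ x ∈ F, p (f x - b - (x : ℝ) • lam) ≤ 200 * ε) ∧
      (∀ y ∈ G, p (g y - c - (y : ℝ) • lam) ≤ 200 * ε) ∧
      (∀ y h : ℕ, y ∈ G → y + h ∈ G → h ≤ N / 4 → p (g (y + h) - g y - (h : ℝ) • lam) ≤ 19 * ε) := by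
  classical
  -- representatives
  have hx : ∀ k : ℕ, k ≤ N / 2 → ∃ x, x ∈ F ∧ x + k ∈ F := by
    intro k hk
    obtain ⟨x, -, -, h1, h2⟩ := hF.exists2 hF (a := 0) (b := k) (r := 0) (L := N / 2) (by omega) (by omega) (by omega)
    exact ⟨x, h1, h2⟩
  choose! X hX1 hX2 using hx
  set a : ℕ → E := fun k => f (X k + k) - f (X k) with ha
  have ha0 : a 0 = 0 := by
    rw [ha]
    simp
  -- increments of `g`
  have hg1 : ∀ y k : ℕ, y ∈ G → y + k ∈ G → k ≤ N / 2 → p (g (y + k) - g y - a k) ≤ ε := by
    intro y k hy hy' hk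
    have h1 := h (X k) (X k + k) y (y + k) (hX1 k hk) (hX2 k hk) hy hy' (by omega)
    have h2 : g (y + k) - g y - a k = f (X k) - g y - f (X k + k) + g (y + k) := by
      simp only [ha]
      abel
    rw [h2]
    exact h1
  -- increments of `f`
  have hf1 : ∀ x k : ℕ, x ∈ F → x + k ∈ F → k ≤ N / 2 → p (f (x + k) - f x - a k) ≤ 2 * ε := by
    intro x k hx hx' hk
    obtain ⟨y, -, -, h1, h2⟩ := hG.exists2 hG (a := 0) (b := k) (r := 0) (L := N / 2) (by omega) (by omega) (by omega)
    rw [add_zero] at h1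
    have h3 := h (x + k) x (y + k) y hx' hx h2 h1 (by omega)
    have h4 := hg1 y k h1 h2 hk
    have h5 : f (x + k) - f x - a k = (f (x + k) - g (y + k) - f x + g y) + (g (y + k) - g y - a k) := by abel
    rw [h5]
    refine (map_add_le_add p _ _).trans ?_
    linarith
  -- additivity
  have hadd : ∀ i j : ℕ, i + j ≤ N / 2 → p (a i + a j - a (i + j)) ≤ 3 * ε := by
    intro i j hij
    obtain ⟨y, -, -, h1, h2, h3⟩ := hG.exists3 hG hG (a := 0) (b := i) (c := i + j) (r := 0) (L := N / 2)
      (by omega) (by omega) (by omega) (by omega)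
    rw [add_zero] at h1
    rw [← add_assoc] at h3
    have e1 := hg1 y i h1 h2 (by omega)
    have e2 := hg1 (y + i) j h2 h3 (by omega)
    have e3 := hg1 y (i + j) h1 (by rw [← add_assoc]; exact h3) hij
    rw [← add_assoc] at e3
    have e4 : a i + a j - a (i + j) = (g (y + i + j) - g y - a (i + j)) - (g (y + i) - g y - a i)
        - (g (y + i + j) - g (y + i) - a j) := by abel
    rw [e4]
    refine (map_sub_le_add p _ _).trans ?_
    have := map_sub_le_add p (g (y + i + j) - g y - a (i + j)) (g (y + i) - g y - a i)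
    linarith
  have hqa : QA p (N / 4) (6 * ε) a := by
    intro i j k m hi hj hk hm he
    have e1 := hadd i m (by omega)
    have e2 := hadd j k (by omega)
    have e3 : a i + a m - a j - a k = (a i + a m - a (i + m)) - (a j + a k - a (j + k)) := by
      rw [he]
      abel
    rw [e3]
    refine (map_sub_le_add p _ _).trans ?_
    linarith
  have hhu := hu p (N / 4) (by omega) (6 * ε) a hqa
  set M : ℕ := N / 4 with hM
  have hM0 : (M : ℝ) ≠ 0 := by
    have : 0 < M := by omega
    positivity
  set lam : E := (1 / (M : ℝ)) • a M with hlam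
  have hal : ∀ k ≤ M, p (a k - (k : ℝ) • lam) ≤ 18 * ε := by
    intro k hk
    have h1 := hhu k hk
    rw [ha0, sub_zero, sub_zero] at h1
    have h2 : ((k : ℝ) / M) • a M = (k : ℝ) • lam := by
      rw [hlam, smul_smul]
      congr 1
      ring
    rw [h2] at h1
    linarith
  have hgl : ∀ y k : ℕ, y ∈ G → y + k ∈ G → k ≤ M → p (g (y + k) - g y - (k : ℝ) • lam) ≤ 19 * ε := by
    intro y k hy hy' hk
    have h1 := hg1 y k hy hy' (by omega)
    have h2 := hal k hk
    have h3 : g (y + k) - g y - (k : ℝ) • lam = (g (y + k) - g y - a k) + (a k - (k : ℝ) • lam) := by abel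
    rw [h3]
    refine (map_add_le_add p _ _).trans ?_
    linarith
  have hfl : ∀ y k : ℕ, y ∈ F → y + k ∈ F → k ≤ M → p (f (y + k) - f y - (k : ℝ) • lam) ≤ 20 * ε := by
    intro y k hy hy' hk
    have h1 := hf1 y k hy hy' (by omega)
    have h2 := hal k hk
    have h3 : f (y + k) - f y - (k : ℝ) • lam = (f (y + k) - f y - a k) + (a k - (k : ℝ) • lam) := by abel
    rw [h3]
    refine (map_add_le_add p _ _).trans ?_
    linarith
  -- from a base point
  have hbase : ∀ (K : Finset ℕ) (u : ℕ → E), Dense N K → K ⊆ range N →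
      (∀ y k : ℕ, y ∈ K → y + k ∈ K → k ≤ N / 4 → p (u (y + k) - u y - (k : ℝ) • lam) ≤ 20 * ε) →
      ∃ c : E, ∀ y ∈ K, p (u y - c - (y : ℝ) • lam) ≤ 200 * ε := by
    intro K u hK hK' hu'
    obtain ⟨y0, -, -, hy0⟩ := hK.exists1 (a := 0) (L := N) (by omega) (by omega)
    refine ⟨u y0 - (y0 : ℝ) • lam, fun y hy => ?_⟩
    have hylt := mem_range.mp (hK' hy)
    have hy0lt := mem_range.mp (hK' hy0)
    have key := chain p hN hK u lam (20 * ε) (by positivity) hu' 10
    rcases le_total y0 y with hle | hle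
    · obtain ⟨k, rfl⟩ : ∃ k, y = y0 + k := ⟨y - y0, by omega⟩
      have h1 := key y0 k hy0 hy hylt (by omega)
      have h2 : u (y0 + k) - (u y0 - (y0 : ℝ) • lam) - ((y0 + k : ℕ) : ℝ) • lam =
          u (y0 + k) - u y0 - (k : ℝ) • lam := by
        push_cast
        rw [add_smul]
        abel
      rw [h2]
      push_cast at h1
      linarith
    · obtain ⟨k, rfl⟩ : ∃ k, y0 = y + k := ⟨y0 - y, by omega⟩
      have h1 := key y k hy hy0 hy0lt (by omega)
      have h2 : u y - (u (y + k) - ((y + k : ℕ) : ℝ) • lam) - (y : ℝ) • lam =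
          -(u (y + k) - u y - (k : ℝ) • lam) := by
        push_cast
        rw [add_smul]
        abel
      rw [h2, map_neg_eq_map]
      push_cast at h1
      linarith
  obtain ⟨b, hb⟩ := hbase F f hF hF' hfl
  obtain ⟨c, hc⟩ := hbase G g hG hG' (fun y k hy hy' hk => (hgl y k hy hy' hk).trans (by linarith))
  exact ⟨lam, b, c, hb, hc, hgl⟩

end Pool.Agent.Helper99.VW
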