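import Pool.Agent.Helper99.VW.Pee
import Pool.Agent.Helper61.GL.Push
import Pool.Agent.Helper61.GL.Cal

/-!
# (P) of ns_notes_18d : pairs of points of one fibre

`POK` : the hypotheses `Nu`, `Nu`, `Exc` of Lemma A* for the two laws of the fibre in the cells of a pair of points;
`sum_pok` : summed over the levels, `POK` fails with probability at most `C (A + ρ)`.
-/

set_option autoImplicit false

namespace Pool.Agent.Helper99.VW

open Finset Pool.Agent.Helper69.RK Pool.Agent.Helper61.GL Pool.Agent.Helper46.WF Pool.Agent.Helper58.VW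
open Pool.Agent.Helper31.EC (amw amw_nonneg amw_supp amw_push_fst amw_push_snd amw_pr ms ms_pos)

variable {Ω γ κ Λ : Type} [Fintype Ω]

/-- the cells of the pair and the fibre -/
noncomputable def GP (K : Ω → κ) (T : Ω → ℝ) (l : ℕ) (x : Ω × Ω) : ℤ × ℤ × κ := (cl l (T x.1), cl l (T x.2), K x.1)

theorem cw_ind (μ : Ω → ℝ) (G : Ω → γ) (ω ω' : Ω) : cw μ G ω ω' = e1_ind (G ω' = G ω) * μ ω' / pr μ G ω := by
  unfold cw
  by_cases h : G ω' = G ω
  · rw [if_pos h, e1_ind_pos h, one_mul]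
  · rw [if_neg h, e1_ind_neg h, zero_mul]

/-- the law of two independent points of the fibre in the cells of a pair -/
theorem wp_eq (μ : Ω → ℝ) (hμ : ∀ ω, 0 ≤ μ ω) (K : Ω → κ) (T : Ω → ℝ) (l : ℕ) {x : Ω × Ω} (hx : amw μ μ K K x ≠ 0)
    (y : Ω × Ω) : wp (cw μ (KC K T l) x.1) (cw μ (KC K T l) x.2) y = cw (amw μ μ K K) (GP K T l) x y := by
  obtain ⟨h1, h2, h3⟩ := amw_supp μ μ K K x hx
  have hp := amw_pr μ μ K K (fun ω => cl l (T ω)) (fun ω => cl l (T ω)) x h1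
  have hms := (ms_pos μ K hμ x.1 h2).ne'
  have e1 := (e1_pr_pos μ (KC K T l) hμ x.1 h2).ne'
  have e2 := (e1_pr_pos μ (KC K T l) hμ x.2 h3).ne'
  have h6 : pr (amw μ μ K K) (GP K T l) x = pr μ (KC K T l) x.1 * pr μ (KC K T l) x.2 / ms μ K (K x.1) := hp
  show cw μ (KC K T l) x.1 y.1 * cw μ (KC K T l) x.2 y.2 = _
  rw [cw_ind, cw_ind, cw_ind, h6]
  by_cases k1 : KC K T l y.1 = KC K T l x.1
  · by_cases k2 : KC K T l y.2 = KC K T l x.2
    · obtain ⟨a1, a2⟩ := Prod.ext_iff.mp k1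
      obtain ⟨b1, b2⟩ := Prod.ext_iff.mp k2
      have k3 : GP K T l y = GP K T l x := Prod.ext a1 (Prod.ext b1 a2)
      have k4 : K y.1 = K y.2 := by
        have c1 : K y.1 = K x.1 := a2
        have c2 : K y.2 = K x.2 := b2
        rw [c1, c2, h1]
      have k5 : amw μ μ K K y = μ y.1 * μ y.2 / ms μ K (K x.1) := by
        have c1 : K y.1 = K x.1 := a2
        show e1_ind (K y.1 = K y.2) * (μ y.1 * μ y.2 / ms μ K (K y.1)) = _
        rw [e1_ind_pos k4, one_mul, c1]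
      rw [e1_ind_pos k1, e1_ind_pos k2, e1_ind_pos k3, k5]
      field_simp
    · rw [e1_ind_neg k2]
      by_cases k3 : GP K T l y = GP K T l x
      · have k4 : ¬ K y.1 = K y.2 := by
          intro h
          apply k2
          obtain ⟨a1, a2⟩ := Prod.ext_iff.mp k3
          obtain ⟨a3, a4⟩ := Prod.ext_iff.mp a2
          have c1 : K y.1 = K x.1 := a4
          exact Prod.ext a3 (show K y.2 = K x.2 by rw [← h, c1, h1])
        have k5 : amw μ μ K K y = 0 := by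
          show e1_ind (K y.1 = K y.2) * (μ y.1 * μ y.2 / ms μ K (K y.1)) = _
          rw [e1_ind_neg k4, zero_mul]
        rw [k5]
        simp
      · rw [e1_ind_neg k3]
        simp
  · rw [e1_ind_neg k1]
    have k3 : ¬ GP K T l y = GP K T l x := by
      intro h
      apply k1
      obtain ⟨a1, a2⟩ := Prod.ext_iff.mp h
      obtain ⟨a3, a4⟩ := Prod.ext_iff.mp a2
      exact Prod.ext a1 a4
    rw [e1_ind_neg k3]
    simp

/-- the pair label determines the difference of the positions up to `θ` -/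
def LabT (μ : Ω → ℝ) (K : Ω → κ) (T : Ω → ℝ) (lab : Ω × Ω → Λ) (n : ℕ) (θ : ℝ) : Prop :=
  ∀ x y, amw μ μ K K x ≠ 0 → amw μ μ K K y ≠ 0 → K x.2 = K y.2 → lab x = lab y →
    (2 : ℝ) ^ n * |(T x.1 - T x.2) - (T y.1 - T y.2)| ≤ θ

/-- the windows of the second point given the label are uniform -/
def GY (μ : Ω → ℝ) (K : Ω → κ) (T : Ω → ℝ) (lab : Ω × Ω → Λ) (ρ l : ℕ) (τ : ℝ) (x : Ω × Ω) : Prop :=
  UnY (amw μ μ K K) (fun x => (lab x, K x.2)) (fun x => T x.2) ρ l τ x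

/-- the probability of a nearby bad pair -/
noncomputable def DP (μ : Ω → ℝ) (K : Ω → κ) (T : Ω → ℝ) (lab : Ω × Ω → Λ) (ρ l : ℕ) (τ : ℝ) (g : ℤ × ℤ × κ) : ℝ :=
  Pw (amw μ μ K K) (fun y => (K y.1 = g.2.2 ∧ cl l (T y.2) = g.2.1 ∧ |cl l (T y.1) - g.1| ≤ 1) ∧ ¬ GY μ K T lab ρ l τ y)

/-- **typical pairs are exchangeable** -/
theorem exc_of_typ (μ : Ω → ℝ) (hμ : ∀ ω, 0 ≤ μ ω) (K : Ω → κ) (T : Ω → ℝ) (lab : Ω × Ω → Λ) {l D : ℕ} {τ θ : ℝ}
    (hτ0 : 0 ≤ τ) (hτ : τ ≤ 1 / 2) (hθ : θ ≤ 1 / 16) (hlab : LabT μ K T lab (l + D) θ) {x : Ω × Ω}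
    (hx : amw μ μ K K x ≠ 0)
    (ht : DP μ K T lab (D + 3) l τ (GP K T l x) ≤ τ * pr (amw μ μ K K) (GP K T l) x) :
    Exc (cw μ (KC K T l) x.1) (cw μ (KC K T l) x.2) (Pos T l D (cl l (T x.1))) (Pos T l D (cl l (T x.2))) (2 ^ D) lab θ
      (5 * τ) := by
  classical
  set ν := amw μ μ K K with hν
  have hν0 : ∀ x, 0 ≤ ν x := amw_nonneg μ μ K K hμ hμ
  obtain ⟨h1, h2, h3⟩ := amw_supp μ μ K K x hx
  have hpr := e1_pr_pos ν (GP K T l) hν0 x hx
  have hwp : ∀ y, wp (cw μ (KC K T l) x.1) (cw μ (KC K T l) x.2) y = cw ν (GP K T l) x y := wp_eq μ hμ K T l hx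
  have hsup : ∀ y, wp (cw μ (KC K T l) x.1) (cw μ (KC K T l) x.2) y ≠ 0 → ν y ≠ 0 ∧ cl l (T y.1) = cl l (T x.1) ∧
      cl l (T y.2) = cl l (T x.2) ∧ K y.1 = K x.1 ∧ K y.2 = K x.2 := by
    intro y hy
    rw [hwp] at hy
    obtain ⟨h4, h5⟩ := cw_ne_zero ν _ hy
    obtain ⟨a1, a2⟩ := Prod.ext_iff.mp h4
    obtain ⟨a3, a4⟩ := Prod.ext_iff.mp a2
    obtain ⟨b1, -, -⟩ := amw_supp μ μ K K y h5
    refine ⟨h5, a1, a3, a4, ?_⟩
    have c1 : K y.1 = K x.1 := a4
    rw [← b1, c1, h1]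
  have hD : (0 : ℝ) < 2 ^ D := by positivity
  -- differences of positions
  have hpos : ∀ y : Ω × Ω, Pos T l D (cl l (T x.1)) y.1 - Pos T l D (cl l (T x.2)) y.2 =
      2 ^ (l + D) * (T y.1 - T y.2) - 2 ^ D * (cl l (T x.1) - cl l (T x.2)) := by
    intro y
    unfold Pos
    ring
  have hgam : ∀ y z, ν y ≠ 0 → ν z ≠ 0 → K y.2 = K z.2 → lab y = lab z →
      |(Pos T l D (cl l (T x.1)) y.1 - Pos T l D (cl l (T x.2)) y.2) -
        (Pos T l D (cl l (T x.1)) z.1 - Pos T l D (cl l (T x.2)) z.2)| ≤ θ := by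
    intro y z hy hz hK hl
    rw [hpos, hpos]
    have e1 : 2 ^ (l + D) * (T y.1 - T y.2) - 2 ^ D * ((cl l (T x.1) : ℝ) - cl l (T x.2)) -
        (2 ^ (l + D) * (T z.1 - T z.2) - 2 ^ D * ((cl l (T x.1) : ℝ) - cl l (T x.2))) =
        2 ^ (l + D) * ((T y.1 - T y.2) - (T z.1 - T z.2)) := by ring
    rw [e1, abs_mul, abs_of_pos (by positivity)]
    exact hlab y z hy hz hK hl
  refine ⟨?_, ?_⟩
  · intro y z hy hz hl
    obtain ⟨y1, -, -, -, y5⟩ := hsup y hy
    obtain ⟨z1, -, -, -, z5⟩ := hsup z hz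
    exact hgam y z y1 z1 (by rw [y5, z5]) hl
  · intro j j' hj hj' Z hZ
    have hj1 : j < 2 ^ (D + 3) := by rw [pow_add]; omega
    have hj1' : j' < 2 ^ (D + 3) := by rw [pow_add]; omega
    -- the labels which occur
    obtain ⟨V, hV⟩ : ∃ V : Ω × Ω → Prop, ∀ y, V y ↔ (K y.2 = K x.2 ∧ cl l (T y.2) = cl l (T x.2) ∧ Z (lab y) ∧
        ∃ z, wp (cw μ (KC K T l) x.1) (cw μ (KC K T l) x.2) z ≠ 0 ∧ lab z = lab y) := ⟨_, fun _ => Iff.rfl⟩
    have hcore := exch_core ν hν0 (fun x => (lab x, K x.2)) (fun x => T x.2) (D + 3) l hτ0 hτ V (by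
      intro y y' _ _ e1 e2
      obtain ⟨e3, e4⟩ := Prod.ext_iff.mp e1
      have e3' : lab y' = lab y := e3
      have e4' : K y'.2 = K y.2 := e4
      have e2' : cl l (T y'.2) = cl l (T y.2) := e2
      rw [hV, hV, e2', e3', e4']) (cl l (T x.2)) (fun y _ hy => ((hV y).mp hy).2.1) hj1 hj1'
    -- the first point of an element of `V`
    have hVp : ∀ y, ν y ≠ 0 → V y → ∃ γ : ℝ, Adm (2 ^ D) j γ ∧ Adm (2 ^ D) j' γ ∧
        |(Pos T l D (cl l (T x.1)) y.1 - Pos T l D (cl l (T x.2)) y.2) - γ| ≤ θ := by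
      intro y hy hVy
      obtain ⟨v1, v2, v3, z, hz, hzl⟩ := (hV y).mp hVy
      obtain ⟨z1, z2, z3, z4, z5⟩ := hsup z hz
      have v4 := hZ z hz (by rw [hzl]; exact v3)
      exact ⟨_, v4.1, v4.2, hgam y z hy z1 (by rw [v1, z5]) hzl.symm⟩
    have a1 : Pw (wp (cw μ (KC K T l) x.1) (cw μ (KC K T l) x.2)) (fun y => Wn (Pos T l D (cl l (T x.2))) j y.2 ∧ Z (lab y))
        * pr ν (GP K T l) x ≤ Pw ν (fun y => V y ∧ cl (l + (D + 3)) (T y.2) = cl l (T x.2) * 2 ^ (D + 3) + (j : ℤ)) := by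
      unfold Pw
      rw [Finset.sum_mul]
      refine Finset.sum_le_sum fun y _ => ?_
      by_cases c1 : wp (cw μ (KC K T l) x.1) (cw μ (KC K T l) x.2) y = 0
      · rw [c1]
        simp only [ite_self, zero_mul]
        split_ifs
        · exact hν0 y
        · exact le_rfl
      by_cases c2 : Wn (Pos T l D (cl l (T x.2))) j y.2 ∧ Z (lab y)
      · obtain ⟨y1, y2, y3, y4, y5⟩ := hsup y c1
        have c3 : V y ∧ cl (l + (D + 3)) (T y.2) = cl l (T x.2) * 2 ^ (D + 3) + (j : ℤ) :=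
          ⟨(hV y).mpr ⟨y5, y3, c2.2, y, c1, rfl⟩, wn_iff.mp c2.1⟩
        rw [if_pos c2, if_pos c3, hwp, cw_ind]
        have c4 : GP K T l y = GP K T l x := Prod.ext y2 (Prod.ext y3 y4)
        rw [e1_ind_pos c4, one_mul, div_mul_cancel₀ _ hpr.ne']
      · rw [if_neg c2, zero_mul]
        split_ifs
        · exact hν0 y
        · exact le_rfl
    have a2 : Pw ν (fun y => V y ∧ cl (l + (D + 3)) (T y.2) = cl l (T x.2) * 2 ^ (D + 3) + (j' : ℤ)) ≤
        Pw (wp (cw μ (KC K T l) x.1) (cw μ (KC K T l) x.2)) (fun y => Wn (Pos T l D (cl l (T x.2))) j' y.2 ∧ Z (lab y))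
        * pr ν (GP K T l) x := by
      unfold Pw
      rw [Finset.sum_mul]
      refine Finset.sum_le_sum fun y _ => ?_
      by_cases c0 : ν y = 0
      · rw [c0, ite_self]
        refine mul_nonneg ?_ hpr.le
        split_ifs
        · rw [hwp]
          exact cw_nonneg ν _ hν0 _ _
        · exact le_rfl
      by_cases c1 : V y ∧ cl (l + (D + 3)) (T y.2) = cl l (T x.2) * 2 ^ (D + 3) + (j' : ℤ)
      · rw [if_pos c1]
        have c2 : Wn (Pos T l D (cl l (T x.2))) j' y.2 := wn_iff.mpr c1.2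
        obtain ⟨g, -, g2, g3⟩ := hVp y c0 c1.1
        obtain ⟨v1, v2, v3, -⟩ := (hV y).mp c1.1
        rw [abs_le] at g3
        have g4 := g2.1
        have g5 := g2.2
        push_cast at g5
        have c3 : cl l (T y.1) = cl l (T x.1) := by
          refine (pos_rg (D := D)).mpr ⟨?_, ?_⟩
          · have := c2.1
            linarith [g3.1]
          · have := c2.2
            linarith [g3.2]
        obtain ⟨s1, -, -⟩ := amw_supp μ μ K K y c0
        have c4 : GP K T l y = GP K T l x := Prod.ext c3 (Prod.ext v2 (show K y.1 = K x.1 by rw [s1, v1, h1]))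
        rw [if_pos (⟨c2, v3⟩ : Wn (Pos T l D (cl l (T x.2))) j' y.2 ∧ Z (lab y)), hwp, cw_ind, e1_ind_pos c4, one_mul,
          div_mul_cancel₀ _ hpr.ne']
      · rw [if_neg c1]
        refine mul_nonneg ?_ hpr.le
        split_ifs
        · rw [hwp]
          exact cw_nonneg ν _ hν0 _ _
        · exact le_rfl
    have a3 : Pw ν (fun y => V y ∧ ¬ UnY ν (fun x => (lab x, K x.2)) (fun x => T x.2) (D + 3) l τ y) ≤
        τ * pr ν (GP K T l) x := by
      refine le_trans (Pw_mono ν hν0 ?_) ht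
      rintro y c0 ⟨v, hb⟩
      obtain ⟨v1, v2, v3, -⟩ := (hV y).mp v
      obtain ⟨g, g1, -, g3⟩ := hVp y c0 v
      obtain ⟨s1, -, -⟩ := amw_supp μ μ K K y c0
      refine ⟨⟨?_, v2, ?_⟩, hb⟩
      · show K y.1 = K x.1
        rw [s1, v1, h1]
      · have p2 := (pos_rg (D := D)).mp v2
        rw [abs_le] at g3
        have g4 := g1.1
        have g5 := g1.2
        push_cast at g5
        have g6 : ((j : ℝ) + 1) / 8 ≤ 2 ^ D := by
          have : (j : ℝ) + 1 ≤ 8 * 2 ^ D := by exact_mod_cast hj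
          linarith
        have q1 : -(2 ^ D) ≤ Pos T l D (cl l (T x.1)) y.1 := by
          have : (0 : ℝ) ≤ (j : ℝ) / 8 := by positivity
          linarith [g3.1, p2.1]
        have q2 : Pos T l D (cl l (T x.1)) y.1 < 2 * 2 ^ D := by
          have : (0 : ℝ) ≤ (j : ℝ) / 8 := by positivity
          linarith [g3.2, p2.2]
        have q3 : Pos T l D (cl l (T x.1)) y.1 = 2 ^ D * (2 ^ l * T y.1 - cl l (T x.1)) := by
          unfold Pos
          rw [pow_add]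
          ring
        rw [q3] at q1 q2
        have q4 : (-1 : ℝ) ≤ 2 ^ l * T y.1 - cl l (T x.1) := by
          by_contra hc
          push Not at hc
          nlinarith
        have q5 : 2 ^ l * T y.1 - cl l (T x.1) < 2 := by
          by_contra hc
          push Not at hc
          nlinarith
        show |cl l (T y.1) - cl l (T x.1)| ≤ 1
        rw [abs_le]
        constructor
        · have : cl l (T x.1) - 1 ≤ cl l (T y.1) := by
            show _ ≤ ⌊(2 : ℝ) ^ l * T y.1⌋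
            rw [Int.le_floor]
            push_cast
            linarith
          linarith
        · have : cl l (T y.1) < cl l (T x.1) + 2 := by
            show ⌊(2 : ℝ) ^ l * T y.1⌋ < _
            rw [Int.floor_lt]
            push_cast
            linarith
          linarith
    have a4 : Pw (wp (cw μ (KC K T l) x.1) (cw μ (KC K T l) x.2)) (fun y => Wn (Pos T l D (cl l (T x.2))) j' y.2 ∧ Z (lab y))
        ≤ 1 := by
      refine Pw_le_one _ (fun y => ?_) ?_ _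
      · rw [hwp]
        exact cw_nonneg ν _ hν0 _ _
      · simp only [hwp]
        exact cw_sum ν _ hν0 x hx
    have a5 : Pw (wp (cw μ (KC K T l) x.1) (cw μ (KC K T l) x.2)) (fun y => Wn (Pos T l D (cl l (T x.2))) j y.2 ∧ Z (lab y))
        * pr ν (GP K T l) x ≤ (Pw (wp (cw μ (KC K T l) x.1) (cw μ (KC K T l) x.2)) (fun y =>
          Wn (Pos T l D (cl l (T x.2))) j' y.2 ∧ Z (lab y)) + 5 * τ) * pr ν (GP K T l) x := by
      have a6 : (1 + 4 * τ) * Pw ν (fun y => V y ∧ cl (l + (D + 3)) (T y.2) = cl l (T x.2) * 2 ^ (D + 3) + (j' : ℤ)) ≤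
          (1 + 4 * τ) * (Pw (wp (cw μ (KC K T l) x.1) (cw μ (KC K T l) x.2)) (fun y =>
            Wn (Pos T l D (cl l (T x.2))) j' y.2 ∧ Z (lab y)) * pr ν (GP K T l) x) :=
        mul_le_mul_of_nonneg_left a2 (by linarith)
      have a7 := mul_le_mul_of_nonneg_right a4 hpr.le
      have a8 := mul_le_mul_of_nonneg_left a7 (show 0 ≤ 4 * τ by linarith)
      have a9 := a1.trans hcore
      nlinarith
    exact le_of_mul_le_mul_right a5 hpr

omit [Fintype Ω] in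
theorem sum_ite_le {α : Type} (S : Finset α) (P : α → Prop) [DecidablePred P] (c : ℝ) (hc : 0 ≤ c) (F : Finset α)
    (hF : ∀ g ∈ S, P g → g ∈ F) : ∑ g ∈ S, (if P g then c else 0) ≤ F.card * c := by
  rw [← Finset.sum_filter, Finset.sum_const, nsmul_eq_mul]
  refine mul_le_mul_of_nonneg_right ?_ hc
  have : S.filter P ⊆ F := fun g hg => hF g (Finset.mem_filter.mp hg).1 (Finset.mem_filter.mp hg).2
  exact_mod_cast Finset.card_le_card this

/-- most pairs are typical -/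
theorem typ_le (μ : Ω → ℝ) (hμ : ∀ ω, 0 ≤ μ ω) (K : Ω → κ) (T : Ω → ℝ) (lab : Ω × Ω → Λ) (ρ l : ℕ) {τ : ℝ} (hτ : 0 < τ) :
    Pw (amw μ μ K K) (fun x => ¬ DP μ K T lab ρ l τ (GP K T l x) ≤ τ * pr (amw μ μ K K) (GP K T l) x) ≤
      3 * Pw (amw μ μ K K) (fun x => ¬ GY μ K T lab ρ l τ x) / τ := by
  classical
  set ν := amw μ μ K K with hν
  have hν0 : ∀ x, 0 ≤ ν x := amw_nonneg μ μ K K hμ hμ
  have hD0 : ∀ g, 0 ≤ DP μ K T lab ρ l τ g := fun g => Pw_nonneg _ hν0 _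
  have h1 := sum_div_pr_le ν hν0 (GP K T l) (Finset.univ.image (GP K T l)) (DP μ K T lab ρ l τ) hD0
    (fun ω _ => Finset.mem_image_of_mem _ (Finset.mem_univ ω))
  have h2 : ∑ g ∈ Finset.univ.image (GP K T l), DP μ K T lab ρ l τ g ≤
      3 * Pw ν (fun x => ¬ GY μ K T lab ρ l τ x) := by
    unfold DP Pw
    rw [Finset.sum_comm, Finset.mul_sum]
    refine Finset.sum_le_sum fun y _ => ?_
    by_cases hb : GY μ K T lab ρ l τ y
    · rw [if_neg (not_not.mpr hb), mul_zero]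
      apply le_of_eq
      exact Finset.sum_eq_zero fun g _ => if_neg (fun h => h.2 hb)
    · rw [if_pos hb]
      refine (@sum_ite_le _ _ _ (fun _ => Classical.propDecidable _) _ (hν0 y) (({-1, 0, 1} : Finset ℤ).image
        (fun s => (cl l (T y.1) + s, cl l (T y.2), K y.1))) ?_).trans ?_
      · rintro g - ⟨⟨g1, g2, g3⟩, -⟩
        rw [Finset.mem_image]
        refine ⟨g.1 - cl l (T y.1), ?_, ?_⟩
        · rw [abs_le] at g3
          have : g.1 - cl l (T y.1) = -1 ∨ g.1 - cl l (T y.1) = 0 ∨ g.1 - cl l (T y.1) = 1 := by omega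
          simpa using this
        · rw [g1, g2]
          exact Prod.ext (by show cl l (T y.1) + (g.1 - cl l (T y.1)) = g.1; ring) rfl
      · refine mul_le_mul_of_nonneg_right ?_ (hν0 y)
        have h4 : (({-1, 0, 1} : Finset ℤ).image (fun s => (cl l (T y.1) + s, cl l (T y.2), K y.1))).card ≤ 3 :=
          Finset.card_image_le.trans (le_of_eq (by decide))
        exact_mod_cast h4
  have h3 := Pw_markov ν hν0 (fun x => DP μ K T lab ρ l τ (GP K T l x) / pr ν (GP K T l) x) (fun x hx =>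
    div_nonneg (hD0 _) (e1_pr_nonneg ν _ hν0 x)) hτ (h1.trans h2)
  refine le_trans (Pw_mono ν hν0 ?_) h3
  intro x hx h4
  have h5 := e1_pr_pos ν (GP K T l) hν0 x hx
  push Not at h4
  rw [lt_div_iff₀ h5]
  exact h4

/-- the hypotheses of Lemma A* for the pair of cells of a pair of points of one fibre -/
def POK (μ : Ω → ℝ) (K : Ω → κ) (T : Ω → ℝ) (lab : Ω × Ω → Λ) (D l : ℕ) (θ ε : ℝ) (x : Ω × Ω) : Prop :=
  Nu (cw μ (KC K T l) x.1) (Pos T l D (cl l (T x.1))) (2 ^ D) ∧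
  Nu (cw μ (KC K T l) x.2) (Pos T l D (cl l (T x.2))) (2 ^ D) ∧
  Exc (cw μ (KC K T l) x.1) (cw μ (KC K T l) x.2) (Pos T l D (cl l (T x.1))) (Pos T l D (cl l (T x.2))) (2 ^ D) lab θ ε

theorem Pw_push {Ω' : Type} [Fintype Ω'] (π : Ω' → Ω) (μ' : Ω' → ℝ) (P : Ω → Prop) :
    Pw μ' (fun w => P (π w)) = Pw (push π μ') P := by
  classical
  have h := push_sum π μ' (fun ω => if P ω then 1 else 0)
  unfold Pw
  simp only [mul_ite, mul_one, mul_zero] at h
  exact h.symm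

theorem sum_push {Ω' : Type} [Fintype Ω'] (π : Ω' → Ω) (μ' : Ω' → ℝ) : ∑ w, μ' w = ∑ ω, push π μ' ω := by
  have h := push_sum π μ' (fun _ => 1)
  simp only [mul_one] at h
  exact h.symm

/-- **(P)** : at most levels, most pairs of points of one fibre satisfy the hypotheses of Lemma A* -/
theorem sum_pok (μ : Ω → ℝ) (hμ : ∀ ω, 0 ≤ μ ω) (hm : ∑ ω, μ ω = 1) (K : Ω → κ) (T : Ω → ℝ)
    (hT : ∀ ω, μ ω ≠ 0 → 0 ≤ T ω ∧ T ω < 1) (lab : Ω × Ω → Λ) (n : ℕ) (A : ℝ)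
    (hH : n - A ≤ CH (amw μ μ K K) (fun x => cl n (T x.2)) (fun x => (lab x, K x.2))) (D M : ℕ)
    (hM : M + (D + 3) ≤ n + 1) {τ : ℝ} (hτ : 0 < τ) (hτ1 : τ ≤ 1 / 2) (θ : ℕ → ℝ) (hθ : ∀ l < M, θ l ≤ 1 / 16)
    (hlab : ∀ l < M, LabT μ K T lab (l + D) (θ l)) :
    ∑ l ∈ range M, Pw (amw μ μ K K) (fun x => ¬ POK μ K T lab D l (θ l) (5 * τ) x) ≤
      5 / τ * (16 * 2 ^ (D + 3) / τ ^ 2 * (((D + 3 : ℕ) : ℝ) * (A + ((D + 3 : ℕ) : ℝ)))) := by
  classical
  set ν := amw μ μ K K with hν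
  have hν0 : ∀ x, 0 ≤ ν x := amw_nonneg μ μ K K hμ hμ
  have hf : push Prod.fst ν = μ := amw_push_fst μ μ K K (fun _ => rfl) hμ
  have hs : push Prod.snd ν = μ := amw_push_snd μ μ K K (fun _ => rfl) hμ
  have hνm : ∑ x, ν x = 1 := by rw [sum_push Prod.snd ν, hs, hm]
  set B : ℝ := 16 * 2 ^ (D + 3) / τ ^ 2 * (((D + 3 : ℕ) : ℝ) * (A + ((D + 3 : ℕ) : ℝ))) with hB
  have b1 : ∑ l ∈ range M, Pw ν (fun x => ¬ GY μ K T lab (D + 3) l τ x) ≤ B := by
    refine sum_winY ν hν0 hνm (fun x => (lab x, K x.2)) (fun x => T x.2) (fun x hx => ?_) n A hH (D + 3) M hM hτ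
      (by linarith)
    exact hT _ (amw_supp μ μ K K x hx).2.2
  have b2 : ∑ l ∈ range M, Pw μ (fun ω => ¬ UnY μ K T (D + 3) l τ ω) ≤ B := by
    refine sum_winY μ hμ hm K T hT n A ?_ (D + 3) M hM hτ (by linarith)
    refine hH.trans ?_
    have e1 := push_CH Prod.snd ν (fun ω => cl n (T ω)) K
    rw [hs] at e1
    rw [e1]
    exact ch_cond ν hν0 (fun x => cl n (T x.2)) (fun x => K x.2) (fun x => (lab x, K x.2)) (fun x y _ _ e =>
      (Prod.mk.inj e).2)
  have b0 : 0 ≤ B := le_trans (Finset.sum_nonneg fun l _ => Pw_nonneg _ hν0 _) b1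
  have key : ∀ l ∈ range M, Pw ν (fun x => ¬ POK μ K T lab D l (θ l) (5 * τ) x) ≤
      2 * Pw μ (fun ω => ¬ UnY μ K T (D + 3) l τ ω) + 3 / τ * Pw ν (fun x => ¬ GY μ K T lab (D + 3) l τ x) := by
    intro l hl
    have e1 := typ_le μ hμ K T lab (D + 3) l hτ
    have e2 : Pw ν (fun x => ¬ UnY μ K T (D + 3) l τ x.1) = Pw μ (fun ω => ¬ UnY μ K T (D + 3) l τ ω) := by
      rw [Pw_push Prod.fst ν (fun ω => ¬ UnY μ K T (D + 3) l τ ω), hf]
    have e3 : Pw ν (fun x => ¬ UnY μ K T (D + 3) l τ x.2) = Pw μ (fun ω => ¬ UnY μ K T (D + 3) l τ ω) := by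
      rw [Pw_push Prod.snd ν (fun ω => ¬ UnY μ K T (D + 3) l τ ω), hs]
    have e4 : Pw ν (fun x => ¬ POK μ K T lab D l (θ l) (5 * τ) x) ≤
        Pw ν (fun x => ¬ UnY μ K T (D + 3) l τ x.1) + (Pw ν (fun x => ¬ UnY μ K T (D + 3) l τ x.2) +
        Pw ν (fun x => ¬ DP μ K T lab (D + 3) l τ (GP K T l x) ≤ τ * pr ν (GP K T l) x)) := by
      refine le_trans (Pw_mono ν hν0 ?_) (le_trans (Pw_or ν hν0 (fun x => ¬ UnY μ K T (D + 3) l τ x.1)
        (fun x => ¬ UnY μ K T (D + 3) l τ x.2 ∨ ¬ DP μ K T lab (D + 3) l τ (GP K T l x) ≤ τ * pr ν (GP K T l) x))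
        (add_le_add le_rfl (Pw_or ν hν0 _ _)))
      intro x hx hn
      by_contra hcon
      push Not at hcon
      obtain ⟨c1, c2, c3⟩ := hcon
      obtain ⟨-, s2, s3⟩ := amw_supp μ μ K K x hx
      exact hn ⟨nu_of_un μ hμ K T hτ1 s2 c1, nu_of_un μ hμ K T hτ1 s3 c2,
        exc_of_typ μ hμ K T lab hτ.le hτ1 (hθ l (mem_range.mp hl)) (hlab l (mem_range.mp hl)) hx c3⟩
    rw [e2, e3] at e4
    have e5 : 3 * Pw ν (fun x => ¬ GY μ K T lab (D + 3) l τ x) / τ = 3 / τ * Pw ν (fun x => ¬ GY μ K T lab (D + 3) l τ x) := by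
      ring
    rw [e5] at e1
    linarith
  refine (Finset.sum_le_sum key).trans ?_
  rw [Finset.sum_add_distrib, ← Finset.mul_sum, ← Finset.mul_sum]
  have h3 : 0 ≤ 3 / τ := by positivity
  have h4 := mul_le_mul_of_nonneg_left b1 h3
  have h5 : 2 * B ≤ 1 / τ * B := by
    refine mul_le_mul_of_nonneg_right ?_ b0
    rw [le_div_iff₀ hτ]
    linarith
  have h6 : 5 / τ * B = 1 / τ * B + 3 / τ * B + 1 / τ * B := by ring
  have h7 : 0 ≤ 1 / τ * B := by positivity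
  linarith

end Pool.Agent.Helper99.VW
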