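import Pool.Agent.Helper99.VW.Tub

/-!
# Tubes of a fibre, with bounded slopes

The slopes of `star_tubes_sum` in a seminorm `q` which is smaller than all seminorms `P l k`. Slopes of two good levels
`l' < l` of one fibre differ by at most `C 2 ^ (l - l')`, so the slopes are at most `C (M + 1) 2 ^ (G + 1)` if the
fibre has at most `G` bad levels.
-/

set_option autoImplicit false

namespace Pool.Agent.Helper99.VW

open Finset Pool.Agent.Helper69.RK Pool.Agent.Helper61.GL Pool.Agent.Helper46.WF Pool.Agent.Helper58.VW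
open Pool.Agent.Helper31.EC (amw amw_nonneg amw_supp amw_push_fst amw_push_snd amw_pr ms ms_pos pr_eq_ms)

/-- chain over the good levels -/
theorem chain_le (good : ℕ → Prop) [DecidablePred good] (f : ℕ → ℝ) (C : ℝ) (hC : 0 ≤ C) (M G : ℕ)
    (h1 : ∀ l < M, good l → f l ≤ C * 2 ^ l)
    (h2 : ∀ l' l, l' < l → l < M → good l' → good l → f l ≤ f l' + C * 2 ^ (l - l'))
    (hG : ((range M).filter (fun l => ¬ good l)).card ≤ G) :
    ∀ l < M, good l → f l ≤ ((l : ℝ) + 1) * (C * 2 ^ (G + 1)) := by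
  intro l
  induction l using Nat.strong_induction_on with
  | _ l ih =>
    intro hl hg
    by_cases h : ∃ l' < l, good l'
    · obtain ⟨l', hl', hmax⟩ := Finset.exists_max_image ((range l).filter good) (fun i => i) (by
        obtain ⟨l', h3, h4⟩ := h
        exact ⟨l', by simp [h3, h4]⟩)
      rw [mem_filter, mem_range] at hl'
      have hsub : Finset.Ioo l' l ⊆ (range M).filter (fun l => ¬ good l) := by
        intro i hi
        rw [mem_Ioo] at hi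
        rw [mem_filter, mem_range]
        refine ⟨by omega, fun hgi => ?_⟩
        have := hmax i (by rw [mem_filter, mem_range]; exact ⟨hi.2, hgi⟩)
        omega
      have hcard := (Finset.card_le_card hsub).trans hG
      rw [Nat.card_Ioo] at hcard
      have h3 := h2 l' l hl'.1 hl hl'.2 hg
      have h4 := ih l' hl'.1 (by omega) hl'.2
      have h5 : (2 : ℝ) ^ (l - l') ≤ 2 ^ (G + 1) := pow_le_pow_right₀ (by norm_num) (by omega)
      have h6 : (l' : ℝ) + 1 ≤ l := by exact_mod_cast hl'.1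
      have h7 : 0 ≤ C * 2 ^ (G + 1) := by positivity
      have h8 := mul_le_mul_of_nonneg_left h5 hC
      have h9 := mul_le_mul_of_nonneg_right h6 h7
      nlinarith
    · push Not at h
      have hsub : range l ⊆ (range M).filter (fun l => ¬ good l) := by
        intro i hi
        rw [mem_range] at hi
        rw [mem_filter, mem_range]
        exact ⟨by omega, h i hi⟩
      have hcard := (Finset.card_le_card hsub).trans hG
      rw [card_range] at hcard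
      have h3 := h1 l hl hg
      have h5 : (2 : ℝ) ^ l ≤ 2 ^ (G + 1) := pow_le_pow_right₀ (by norm_num) (by omega)
      have h7 : 0 ≤ C * 2 ^ (G + 1) := by positivity
      have h8 := mul_le_mul_of_nonneg_left h5 hC
      have h9 : (0 : ℝ) ≤ l := Nat.cast_nonneg l
      nlinarith

variable {E : Type*} [AddCommGroup E] [Module ℝ E] {Ω γ κ Λ : Type} [Fintype Ω]
variable {μ : Ω → ℝ} {K : Ω → κ} {T : Ω → ℝ} {A : Ω → E}

/-- conditional laws of the cells in the fibre of `y` -/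
theorem cw_fib (hμ : ∀ ω, 0 ≤ μ ω) {l : ℕ} {y ω : Ω} (h : cw μ K y ω ≠ 0) :
    cw (cw μ K y) (fun ω => cl l (T ω)) ω = cw μ (KC K T l) ω := by
  obtain ⟨h1, h2⟩ := cw_ne_zero μ K h
  rw [cw_congr' μ K h1.symm]
  exact cw_cw μ hμ K (fun ω => cl l (T ω)) ω h2

/-- a good cell of level `l` in a good fibre -/
theorem exists_cell (hμ : ∀ ω, 0 ≤ μ ω) {l : ℕ} {y : Ω} (hy : μ y ≠ 0) (B₁ B₂ N : Ω → Prop)
    (h1 : Pw (cw μ K y) B₁ ≤ 1 / 256) (h2 : Pw (cw μ K y) B₂ ≤ 1 / 256) (h3 : Pw (cw μ K y) (fun ω => ¬ N ω) ≤ 1 / 8) :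
    ∃ ω, μ ω ≠ 0 ∧ K ω = K y ∧ N ω ∧ Pw (cw μ (KC K T l) ω) B₁ ≤ 1 / 32 ∧ Pw (cw μ (KC K T l) ω) B₂ ≤ 1 / 32 := by
  set w := cw μ K y with hw
  have hw0 : ∀ ω, 0 ≤ w ω := fun ω => cw_nonneg μ _ hμ _ _
  have hw1 : ∑ ω, w ω = 1 := cw_sum μ K hμ y hy
  have key : ∀ B : Ω → Prop, Pw w B ≤ 1 / 256 → Pw w (fun ω => 1 / 32 < Pw (cw w (fun ω => cl l (T ω)) ω) B) ≤ 1 / 8 := by
    intro B hB
    refine (Pw_markov w hw0 (fun ω => Pw (cw w (fun ω => cl l (T ω)) ω) B)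
      (fun ω _ => Pw_nonneg _ (fun ω' => cw_nonneg w _ hw0 _ _) _) (by norm_num)
      (Pw_tower w hw0 (fun ω => cl l (T ω)) B).symm.le).trans ?_
    rw [div_le_iff₀ (by norm_num)]
    linarith
  have h4 : Pw w (fun ω => ¬ N ω ∨ (1 / 32 < Pw (cw w (fun ω => cl l (T ω)) ω) B₁ ∨
      1 / 32 < Pw (cw w (fun ω => cl l (T ω)) ω) B₂)) ≤ 3 / 8 := by
    refine (Pw_or w hw0 _ _).trans ?_
    have h5 := Pw_or w hw0 (fun ω => 1 / 32 < Pw (cw w (fun ω => cl l (T ω)) ω) B₁)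
      (fun ω => 1 / 32 < Pw (cw w (fun ω => cl l (T ω)) ω) B₂)
    linarith [key B₁ h1, key B₂ h2]
  have h5 : Pw w (fun _ => True) = 1 := by
    unfold Pw
    simpa using hw1
  obtain ⟨ω, g1, -, g2⟩ := exists_good w hw0 (fun _ => True) _ (lt_of_le_of_lt h4 (by rw [h5]; norm_num))
  push Not at g2
  obtain ⟨g3, g4, g5⟩ := g2
  have g6 := cw_fib (T := T) (l := l) hμ (y := y) (ω := ω) g1
  rw [← hw] at g6
  rw [g6] at g4 g5
  obtain ⟨g7, g8⟩ := cw_ne_zero μ K g1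
  exact ⟨ω, g8, g7, g3, g4, g5⟩

/-- the cell of level `l` of `ω` is near uniform -/
def NuAt (μ : Ω → ℝ) (K : Ω → κ) (T : Ω → ℝ) (D l : ℕ) (ω : Ω) : Prop :=
  Nu (cw μ (KC K T l) ω) (Pos T l D (cl l (T ω))) (2 ^ D)

/-- the bad points of level `l` -/
def BdL (K : Ω → κ) (T : Ω → ℝ) (A : Ω → E) (P : ℕ → κ → Seminorm ℝ E) (r : ℕ → ℝ) (a : ℕ → κ → E)
    (o : ℕ → ℤ × κ → E) (l : ℕ) (ω : Ω) : Prop := r l < P l (K ω) (A ω - T ω • a l (K ω) - o l (KC K T l ω))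

/-- the level `l` is good for the fibre of `y` -/
def GLv (μ : Ω → ℝ) (K : Ω → κ) (T : Ω → ℝ) (A : Ω → E) (P : ℕ → κ → Seminorm ℝ E) (r : ℕ → ℝ) (a : ℕ → κ → E)
    (o : ℕ → ℤ × κ → E) (D l : ℕ) (y : Ω) : Prop :=
  Pw (cw μ K y) (BdL K T A P r a o l) ≤ 1 / 256 ∧ Pw (cw μ K y) (fun ω => ¬ NuAt μ K T D l ω) ≤ 1 / 8

/-- **bounded slopes** -/
theorem slopes_bdd (hμ : ∀ ω, 0 ≤ μ ω) {D M G : ℕ} (P : ℕ → κ → Seminorm ℝ E) (r : ℕ → ℝ)
    (a : ℕ → κ → E) (o : ℕ → ℤ × κ → E) (q : Seminorm ℝ E) {C : ℝ} (hC : 0 ≤ C)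
    (hq : ∀ l < M, ∀ k v, q v ≤ P l k v) (hqA : ∀ ω, μ ω ≠ 0 → q (A ω) ≤ C)
    (hr : ∀ l < M, r l * 2 ^ l ≤ C) (hG : M ≤ 8 * G) :
    ∃ a' : ℕ → κ → E, (∀ l k, q (a' l k) ≤ ((M : ℝ) + 1) * (8 * C * 2 ^ (G + 1))) ∧
      ∑ l ∈ range M, Pw μ (BdL K T A P r a' o l) ≤ 2305 * ∑ l ∈ range M, Pw μ (BdL K T A P r a o l) +
        72 * ∑ l ∈ range M, Pw μ (fun ω => ¬ NuAt μ K T D l ω) := by
  classical
  set Bd := ((M : ℝ) + 1) * (8 * C * 2 ^ (G + 1)) with hBd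
  have hBd0 : 0 ≤ Bd := by positivity
  set g : ℕ → Ω → Prop := fun l y => GLv μ K T A P r a o D l y with hg
  set nb : Ω → ℕ := fun y => ((range M).filter (fun l => ¬ g l y)).card with hnb
  refine ⟨fun l k => if q (a l k) ≤ Bd then a l k else 0, fun l k => ?_, ?_⟩
  · show q (if q (a l k) ≤ Bd then a l k else 0) ≤ Bd
    split_ifs with h
    · exact h
    · rw [map_zero]
      exact hBd0
  -- the slopes of the good levels
  have hstep : ∀ y, μ y ≠ 0 → ∀ l < M, g l y → q (a l (K y)) ≤ 8 * C * 2 ^ l := by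
    intro y hy l hl hgl
    obtain ⟨ω, w1, w2, w3, w4, -⟩ := exists_cell (T := T) (l := l) hμ hy (BdL K T A P r a o l) (BdL K T A P r a o l)
      (NuAt μ K T D l) hgl.1 hgl.1 hgl.2
    have t1 : Tu μ K T A (fun _ => q) l C (1 / 32) (a l (K y)) ω := by
      refine ⟨o l (KC K T l ω), le_trans (Pw_mono _ (fun ω => cw_nonneg μ _ hμ _ _) ?_) w4⟩
      intro ω' h0 h1
      obtain ⟨h2, -⟩ := cw_ne_zero μ _ h0
      have h3 : K ω' = K ω := (Prod.ext_iff.mp h2).2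
      show r l < P l (K ω') (A ω' - T ω' • a l (K ω') - o l (KC K T l ω'))
      rw [h2, h3, w2]
      have h4 := hq l hl (K y) (A ω' - T ω' • a l (K y) - o l (KC K T l ω))
      have h5 : r l ≤ C := by
        have e1 := hr l hl
        by_cases h6 : 0 ≤ r l
        · have e2 : (1 : ℝ) ≤ 2 ^ l := one_le_pow₀ (by norm_num)
          nlinarith
        · linarith
      have h1' : C < q (A ω' - T ω' • a l (K y) - o l (KC K T l ω)) := h1
      linarith
    have t2 : Tu μ K T A (fun _ => q) l C (1 / 32) 0 ω := by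
      refine ⟨0, ?_⟩
      have e1 : Pw (cw μ (KC K T l) ω) (fun ω' => C < q (A ω' - T ω' • (0 : E) - 0)) = 0 := by
        unfold Pw
        refine Finset.sum_eq_zero fun ω' _ => ?_
        by_cases h0 : cw μ (KC K T l) ω ω' = 0
        · simp [h0]
        · rw [if_neg]
          obtain ⟨-, h2⟩ := cw_ne_zero μ _ h0
          show ¬ (C < q (A ω' - T ω' • (0 : E) - 0))
          rw [smul_zero, sub_zero, sub_zero, not_lt]
          exact hqA ω' h2
      have e2 : Pw (cw μ (KC K T l) ω) (fun ω' => C < q (A ω' - T ω' • (0 : E) - 0)) ≤ 1 / 32 := by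
        rw [e1]
        norm_num
      exact e2
    have t3 := tu_slope (D := D) (p := fun _ => q) w3 t1 t2 le_rfl le_rfl
    rw [sub_zero] at t3
    exact t3
  have hstep2 : ∀ y, μ y ≠ 0 → ∀ l' l, l' < l → l < M → g l' y → g l y →
      q (a l (K y)) ≤ q (a l' (K y)) + 8 * C * 2 ^ (l - l') := by
    intro y hy l' l hll hl hgl' hgl
    obtain ⟨ω, w1, w2, w3, w4, w5⟩ := exists_cell (T := T) (l := l) hμ hy (BdL K T A P r a o l)
      (BdL K T A P r a o l') (NuAt μ K T D l) hgl.1 hgl'.1 hgl.2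
    have hp' : (0 : ℝ) < 2 ^ l' := by positivity
    have hrl' : r l' ≤ C / 2 ^ l' := by
      rw [le_div_iff₀ hp']
      exact hr l' (by omega)
    have hrl : r l ≤ C / 2 ^ l' := by
      rw [le_div_iff₀ hp']
      have e1 := hr l hl
      by_cases h6 : 0 ≤ r l
      · have e2 : (2 : ℝ) ^ l' ≤ 2 ^ l := pow_le_pow_right₀ (by norm_num) hll.le
        nlinarith
      · push Not at h6
        nlinarith
    have t1 : Tu μ K T A (fun _ => q) l (C / 2 ^ l') (1 / 32) (a l (K y)) ω := by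
      refine ⟨o l (KC K T l ω), le_trans (Pw_mono _ (fun ω => cw_nonneg μ _ hμ _ _) ?_) w4⟩
      intro ω' h0 h1
      obtain ⟨h2, -⟩ := cw_ne_zero μ _ h0
      have h3 : K ω' = K ω := (Prod.ext_iff.mp h2).2
      show r l < P l (K ω') (A ω' - T ω' • a l (K ω') - o l (KC K T l ω'))
      rw [h2, h3, w2]
      have h4 := hq l hl (K y) (A ω' - T ω' • a l (K y) - o l (KC K T l ω))
      have h1' : C / 2 ^ l' < q (A ω' - T ω' • a l (K y) - o l (KC K T l ω)) := h1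
      linarith
    have t2 : Tu μ K T A (fun _ => q) l (C / 2 ^ l') (1 / 32) (a l' (K y)) ω := by
      refine ⟨o l' (KC K T l' ω), le_trans (Pw_mono _ (fun ω => cw_nonneg μ _ hμ _ _) ?_) w5⟩
      intro ω' h0 h1
      obtain ⟨h2, -⟩ := cw_ne_zero μ _ h0
      have h3 : K ω' = K ω := (Prod.ext_iff.mp h2).2
      have h6 : cl l' (T ω') = cl l' (T ω) := by
        have e1 : cl l (T ω') = cl l (T ω) := (Prod.ext_iff.mp h2).1
        obtain ⟨ρ, rfl⟩ := Nat.exists_eq_add_of_le hll.le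
        exact cl_coarse e1
      have h7 : KC K T l' ω' = KC K T l' ω := Prod.ext h6 h3
      show r l' < P l' (K ω') (A ω' - T ω' • a l' (K ω') - o l' (KC K T l' ω'))
      rw [h7, h3, w2]
      have h4 := hq l' (by omega) (K y) (A ω' - T ω' • a l' (K y) - o l' (KC K T l' ω))
      have h1' : C / 2 ^ l' < q (A ω' - T ω' • a l' (K y) - o l' (KC K T l' ω)) := h1
      linarith
    have t3 := tu_slope (D := D) (p := fun _ => q) w3 t1 t2 le_rfl le_rfl
    have t4 : 8 * (C / 2 ^ l') * 2 ^ l = 8 * C * 2 ^ (l - l') := by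
      rw [pow_sub₀ _ (by norm_num) hll.le]
      field_simp
    have t5 : q (a l (K y) - a l' (K y)) ≤ 8 * (C / 2 ^ l') * 2 ^ l := t3
    rw [t4] at t5
    have t6 : q (a l (K y)) ≤ q (a l' (K y)) + q (a l (K y) - a l' (K y)) := by
      have e1 : a l (K y) = a l' (K y) + (a l (K y) - a l' (K y)) := by abel
      have e2 := map_add_le_add q (a l' (K y)) (a l (K y) - a l' (K y))
      rw [← e1] at e2
      exact e2
    linarith
  have hbd : ∀ y, μ y ≠ 0 → nb y ≤ G → ∀ l < M, g l y → q (a l (K y)) ≤ Bd := by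
    intro y hy hn l hl hgl
    have h1 := chain_le (fun l => g l y) (fun l => q (a l (K y))) (8 * C) (by positivity) M G (hstep y hy)
      (hstep2 y hy) hn l hl hgl
    refine h1.trans ?_
    rw [hBd]
    have h2 : (l : ℝ) + 1 ≤ M + 1 := by
      have : (l : ℝ) ≤ M := by exact_mod_cast hl.le
      linarith
    exact mul_le_mul_of_nonneg_right h2 (by positivity)
  -- the mass of the bad fibres
  set X := ∑ l ∈ range M, Pw μ (BdL K T A P r a o l) with hX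
  set Y := ∑ l ∈ range M, Pw μ (fun ω => ¬ NuAt μ K T D l ω) with hY
  have hSl : ∀ l, Pw μ (fun y => ¬ g l y) ≤ 256 * Pw μ (BdL K T A P r a o l) + 8 * Pw μ (fun ω => ¬ NuAt μ K T D l ω) := by
    intro l
    have e1 : Pw μ (fun y => 1 / 256 < Pw (cw μ K y) (BdL K T A P r a o l)) ≤ 256 * Pw μ (BdL K T A P r a o l) := by
      refine (Pw_markov μ hμ (fun ω => Pw (cw μ K ω) (BdL K T A P r a o l))
        (fun ω _ => Pw_nonneg _ (fun ω' => cw_nonneg μ _ hμ _ _) _) (by norm_num)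
        (Pw_tower μ hμ K (BdL K T A P r a o l)).symm.le).trans (le_of_eq ?_)
      ring
    have e2 : Pw μ (fun y => 1 / 8 < Pw (cw μ K y) (fun ω => ¬ NuAt μ K T D l ω)) ≤
        8 * Pw μ (fun ω => ¬ NuAt μ K T D l ω) := by
      refine (Pw_markov μ hμ (fun ω => Pw (cw μ K ω) (fun ω => ¬ NuAt μ K T D l ω))
        (fun ω _ => Pw_nonneg _ (fun ω' => cw_nonneg μ _ hμ _ _) _) (by norm_num)
        (Pw_tower μ hμ K (fun ω => ¬ NuAt μ K T D l ω)).symm.le).trans (le_of_eq ?_)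
      ring
    refine le_trans (Pw_mono μ hμ ?_) ((Pw_or μ hμ (fun y => 1 / 256 < Pw (cw μ K y) (BdL K T A P r a o l))
      (fun y => 1 / 8 < Pw (cw μ K y) (fun ω => ¬ NuAt μ K T D l ω))).trans (add_le_add e1 e2))
    intro y _ h
    by_contra hcon
    push Not at hcon
    exact h hcon
  have hS : ∑ l ∈ range M, Pw μ (fun y => ¬ g l y) ≤ 256 * X + 8 * Y := by
    refine (Finset.sum_le_sum fun l _ => hSl l).trans (le_of_eq ?_)
    rw [Finset.sum_add_distrib, ← Finset.mul_sum, ← Finset.mul_sum]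
  have hX0 : 0 ≤ X := Finset.sum_nonneg fun l _ => Pw_nonneg _ hμ _
  have hY0 : 0 ≤ Y := Finset.sum_nonneg fun l _ => Pw_nonneg _ hμ _
  have hN : (M : ℝ) * Pw μ (fun y => (G : ℝ) < nb y) ≤ 8 * (256 * X + 8 * Y) := by
    rcases Nat.eq_zero_or_pos M with hM | hM
    · rw [hM]
      simp only [Nat.cast_zero, zero_mul]
      positivity
    have hG0 : 0 < G := by omega
    have hG1 : (0 : ℝ) < G := by exact_mod_cast hG0
    have e1 : ∑ y, μ y * (nb y : ℝ) = ∑ l ∈ range M, Pw μ (fun y => ¬ g l y) := by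
      unfold Pw
      rw [Finset.sum_comm]
      refine Finset.sum_congr rfl fun y _ => ?_
      rw [hnb]
      simp only
      rw [Finset.card_filter]
      push_cast
      rw [Finset.mul_sum]
      refine Finset.sum_congr rfl fun l _ => ?_
      by_cases h : g l y
      · simp [h]
      · simp [h]
    have e2 := Pw_markov μ hμ (fun y => (nb y : ℝ)) (fun y _ => Nat.cast_nonneg _) hG1 (e1.le.trans hS)
    have e3 : (M : ℝ) ≤ 8 * G := by exact_mod_cast hG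
    have e4 : (M : ℝ) * Pw μ (fun y => (G : ℝ) < nb y) ≤ 8 * G * ((256 * X + 8 * Y) / G) :=
      mul_le_mul e3 e2 (Pw_nonneg _ hμ _) (by positivity)
    refine e4.trans (le_of_eq ?_)
    field_simp
  have hfin : ∀ l ∈ range M, Pw μ (BdL K T A P r (fun l k => if q (a l k) ≤ Bd then a l k else 0) o l) ≤
      Pw μ (BdL K T A P r a o l) + (Pw μ (fun y => ¬ g l y) + Pw μ (fun y => (G : ℝ) < nb y)) := by
    intro l hl
    rw [mem_range] at hl
    refine le_trans (Pw_mono μ hμ ?_) ((Pw_or μ hμ (BdL K T A P r a o l) (fun y => ¬ g l y ∨ (G : ℝ) < nb y)).trans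
      (add_le_add le_rfl (Pw_or μ hμ _ _)))
    intro y h0 h1
    by_contra hcon
    push Not at hcon
    obtain ⟨c1, c2, c3⟩ := hcon
    have c4 : nb y ≤ G := by exact_mod_cast c3
    have c5 := hbd y h0 c4 l hl c2
    apply c1
    have h1' : r l < P l (K y) (A y - T y • (if q (a l (K y)) ≤ Bd then a l (K y) else 0) - o l (KC K T l y)) := h1
    rw [if_pos c5] at h1'
    exact h1'
  refine (Finset.sum_le_sum hfin).trans ?_
  rw [Finset.sum_add_distrib, Finset.sum_add_distrib, Finset.sum_const, card_range, nsmul_eq_mul]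
  linarith

/-- **tubes of the fibres at most levels, with bounded slopes** -/
theorem star_tubes_bdd {lab : Ω × Ω → Λ} (hμ : ∀ ω, 0 ≤ μ ω) (hm : ∑ ω, μ ω = 1)
    (hT : ∀ ω, μ ω ≠ 0 → 0 ≤ T ω ∧ T ω < 1) (n : ℕ) (Ad : ℝ)
    (hH : n - Ad ≤ CH (amw μ μ K K) (fun x => cl n (T x.2)) (fun x => (lab x, K x.2))) {D M G : ℕ} (hD : 6 ≤ D)
    (hM : M + (D + 3) ≤ n + 1) (hG : M ≤ 8 * G) {θ₀ κ' : ℝ} (hθ0 : 0 ≤ θ₀) (hθ : 2 ^ (M + D) * θ₀ ≤ 1 / 16)
    (hlab : ∀ x y, amw μ μ K K x ≠ 0 → amw μ μ K K y ≠ 0 → K x.2 = K y.2 → lab x = lab y →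
      |(T x.1 - T x.2) - (T y.1 - T y.2)| ≤ θ₀)
    (hκ0 : 0 ≤ κ') (hκ : κ' ≤ 1 / 16384) (P : ℕ → κ → Seminorm ℝ E) (r : ℕ → ℝ) (hr : ∀ l < M, 0 ≤ r l)
    (hA : ∀ l < M, LabA μ K A (P l) lab (r l)) (q : Seminorm ℝ E) {C : ℝ} (hC : 0 ≤ C)
    (hq : ∀ l < M, ∀ k v, q v ≤ P l k v) (hqA : ∀ ω, μ ω ≠ 0 → q (A ω) ≤ C)
    (hrC : ∀ l < M, 306000 * r l * 2 ^ l ≤ C) :
    ∃ (a : ℕ → κ → E) (o : ℕ → ℤ × κ → E), (∀ l k, q (a l k) ≤ ((M : ℝ) + 1) * (8 * C * 2 ^ (G + 1))) ∧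
      ∑ l ∈ range M, Pw μ (fun ω => 306000 * r l < P l (K ω) (A ω - T ω • a l (K ω) - o l (KC K T l ω))) ≤
      2377 * (5 * (5120 * ((2 : ℝ) ^ D) ^ 2) * (16 * 2 ^ (D + 3) * (5120 * ((2 : ℝ) ^ D) ^ 2) ^ 2 *
        (((D + 3 : ℕ) : ℝ) * (Ad + ((D + 3 : ℕ) : ℝ))))) +
      2305 * (516 * ∑ l ∈ range M, Pw μ (fun ω => ¬ TubeAt μ K T A (P l) (l + D) (r l) κ' θ₀ ω) + 2 * κ' * M) := by
  obtain ⟨a, o, hao⟩ := star_tubes_sum hμ hm hT n Ad hH hD hM hθ0 hθ hlab hκ0 hκ P r hr hA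
  obtain ⟨a', h1, h2⟩ := slopes_bdd (T := T) (K := K) (A := A) (D := D) hμ P (fun l => 306000 * r l) a o q hC hq
    hqA hrC hG
  refine ⟨a', o, h1, ?_⟩
  set τ : ℝ := 1 / (5120 * ((2 : ℝ) ^ D) ^ 2) with hτ
  have hd1 : (1 : ℝ) ≤ ((2 : ℝ) ^ D) ^ 2 := by
    have : (1 : ℝ) ≤ 2 ^ D := one_le_pow₀ (by norm_num)
    nlinarith
  have hτ0 : 0 < τ := by positivity
  have hτ1 : τ ≤ 1 / 2 := by
    rw [hτ]
    apply one_div_le_one_div_of_le (by norm_num)
    linarith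
  have hth : ∀ l < M, 2 ^ (l + D) * θ₀ ≤ 1 / 16 := by
    intro l hl
    refine le_trans (mul_le_mul_of_nonneg_right ?_ hθ0) hθ
    exact pow_le_pow_right₀ (by norm_num) (by omega)
  have h3 : ∑ l ∈ range M, Pw (amw μ μ K K) (fun x => ¬ POK μ K T lab D l (2 ^ (l + D) * θ₀) (5 * τ) x) ≤
      5 / τ * (16 * 2 ^ (D + 3) / τ ^ 2 * (((D + 3 : ℕ) : ℝ) * (Ad + ((D + 3 : ℕ) : ℝ)))) := by
    exact sum_pok μ hμ hm K T hT lab n Ad hH D M hM hτ0 hτ1 (fun l => 2 ^ (l + D) * θ₀) hth (by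
      intro l hl x y hx hy hK hl'
      exact mul_le_mul_of_nonneg_left (hlab x y hx hy hK hl') (show (0 : ℝ) ≤ 2 ^ (l + D) by positivity))
  have h5 : 5 / τ * (16 * 2 ^ (D + 3) / τ ^ 2 * (((D + 3 : ℕ) : ℝ) * (Ad + ((D + 3 : ℕ) : ℝ)))) =
      5 * (5120 * ((2 : ℝ) ^ D) ^ 2) * (16 * 2 ^ (D + 3) * (5120 * ((2 : ℝ) ^ D) ^ 2) ^ 2 *
        (((D + 3 : ℕ) : ℝ) * (Ad + ((D + 3 : ℕ) : ℝ)))) := by
    rw [hτ]
    field_simp
  rw [h5] at h3
  have h4 : ∑ l ∈ range M, Pw μ (fun ω => ¬ NuAt μ K T D l ω) ≤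
      ∑ l ∈ range M, Pw (amw μ μ K K) (fun x => ¬ POK μ K T lab D l (2 ^ (l + D) * θ₀) (5 * τ) x) := by
    refine Finset.sum_le_sum fun l _ => ?_
    have hf : push Prod.fst (amw μ μ K K) = μ := amw_push_fst μ μ K K (fun _ => rfl) hμ
    have e1 : Pw (amw μ μ K K) (fun x => ¬ NuAt μ K T D l x.1) = Pw μ (fun ω => ¬ NuAt μ K T D l ω) := by
      rw [Pw_push Prod.fst (amw μ μ K K) (fun ω => ¬ NuAt μ K T D l ω), hf]
    rw [← e1]
    refine Pw_mono _ (amw_nonneg μ μ K K hμ hμ) ?_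
    intro x _ hx hP
    exact hx hP.1
  have h6 : ∑ l ∈ range M, Pw μ (BdL K T A P (fun l => 306000 * r l) a' o l) =
      ∑ l ∈ range M, Pw μ (fun ω => 306000 * r l < P l (K ω) (A ω - T ω • a' l (K ω) - o l (KC K T l ω))) := rfl
  have h7 : ∑ l ∈ range M, Pw μ (BdL K T A P (fun l => 306000 * r l) a o l) =
      ∑ l ∈ range M, Pw μ (fun ω => 306000 * r l < P l (K ω) (A ω - T ω • a l (K ω) - o l (KC K T l ω))) := rfl
  rw [← h6]
  rw [← h7] at hao
  linarith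

end Pool.Agent.Helper99.VW
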