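import Pool.Agent.Helper99.VW.Prs

/-!
# Tubes of a fibre: one slope per fibre ((2.3) of ns_notes_6d without the bodies)

`TubeAt μ K T A p l r κ θ ω` : the cell of level `l` of `ω` in the fibre of `ω` is a tube of thickness `r`, except for
the mass `κ`. `star_tubes` : if most cells of level `l + D` are tubes of thickness `r` then most cells of level `l` are
tubes of thickness `C r` (`C` is absolute), and the slope is a function of the fibre.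
-/

set_option autoImplicit false

namespace Pool.Agent.Helper99.VW

open Finset Pool.Agent.Helper69.RK Pool.Agent.Helper61.GL Pool.Agent.Helper46.WF Pool.Agent.Helper58.VW
open Pool.Agent.Helper31.EC (amw amw_nonneg amw_supp amw_push_fst amw_push_snd amw_pr ms ms_pos pr_eq_ms)

variable {E : Type*} [AddCommGroup E] [Module ℝ E] {Ω γ κ Λ : Type} [Fintype Ω]

/-- the cell of level `l` is a tube -/
def TubeAt (μ : Ω → ℝ) (K : Ω → κ) (T : Ω → ℝ) (A : Ω → E) (p : κ → Seminorm ℝ E) (l : ℕ) (r κ' θ₀ : ℝ) (ω : Ω) : Prop :=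
  ∃ a o : E, θ₀ * p (K ω) a ≤ r ∧ Pw (cw μ (KC K T l) ω) (fun ω' => r < p (K ω) (A ω' - T ω' • a - o)) ≤ κ'

/-! ### sums of probabilities of disjoint events -/

theorem Pw_sum_le (w : Ω → ℝ) (hw : ∀ ω, 0 ≤ w ω) (s : Finset ℕ) (P : ℕ → Ω → Prop) (Q : Ω → Prop)
    (h1 : ∀ ω i j, i ∈ s → j ∈ s → P i ω → P j ω → i = j) (h2 : ∀ ω i, w ω ≠ 0 → i ∈ s → P i ω → Q ω) :
    ∑ i ∈ s, Pw w (P i) ≤ Pw w Q := by
  classical
  unfold Pw
  rw [Finset.sum_comm]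
  refine Finset.sum_le_sum fun ω _ => ?_
  by_cases h0 : w ω = 0
  · simp [h0]
  by_cases h3 : ∃ i ∈ s, P i ω
  · obtain ⟨i, hi, hP⟩ := h3
    rw [if_pos (h2 ω i h0 hi hP), Finset.sum_eq_single i]
    · rw [if_pos hP]
    · intro j hj hne
      exact if_neg (fun h => hne (h1 ω j i hj hi h hP))
    · intro h
      exact absurd hi h
  · push Not at h3
    rw [Finset.sum_eq_zero (fun i hi => if_neg (h3 i hi))]
    split_ifs
    · exact hw ω
    · exact le_rfl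

/-- lower bound of the probability of a subcell -/
theorem Nu.sb_lo {w : Ω → ℝ} {S : Ω → ℝ} {N : ℕ} (h : Nu w S N) {u : ℕ} (hu : u < N) :
    1 / (2 * (N : ℝ)) ≤ Pw w (Sb S u) := by
  have hN : (0 : ℝ) < N := by exact_mod_cast h.pos
  have h1 := Pw_sum_le w h.nn (Finset.image (fun i => 8 * u + i) (range 8)) (Wn S) (Sb S u) (by
    rintro ω i j - - ⟨a1, a2⟩ ⟨b1, b2⟩
    have c1 : (i : ℝ) < j + 1 := by linarith
    have c2 : (j : ℝ) < i + 1 := by linarith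
    have c3 : i < j + 1 := by exact_mod_cast c1
    have c4 : j < i + 1 := by exact_mod_cast c2
    omega) (by
    rintro ω i - hi ⟨a1, a2⟩
    rw [mem_image] at hi
    obtain ⟨k, hk, rfl⟩ := hi
    rw [mem_range] at hk
    have c1 : (k : ℝ) + 1 ≤ 8 := by exact_mod_cast hk
    push_cast at a1 a2
    have c2 : (0 : ℝ) ≤ k := Nat.cast_nonneg k
    constructor <;> linarith)
  refine le_trans ?_ h1
  rw [Finset.sum_image (by intro a _ b _ hab; simpa using hab)]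
  refine le_trans ?_ (Finset.sum_le_sum (fun i hi => h.lo (8 * u + i) (by rw [mem_range] at hi; omega)))
  rw [sum_const, card_range, nsmul_eq_mul]
  apply le_of_eq
  field_simp
  norm_num

/-- slopes of tubes of one cell -/
theorem slope_unique {w : Ω → ℝ} {S : Ω → ℝ} {N : ℕ} (h : Nu w S N) (A : Ω → E) (p : Seminorm ℝ E) {a b a' b' : E} {c : ℝ}
    (h1 : Pw w (fun ω => c < p (A ω - S ω • a - b)) ≤ 1 / 32)
    (h2 : Pw w (fun ω => c < p (A ω - S ω • a' - b')) ≤ 1 / 32) : (N : ℝ) * p (a - a') ≤ 8 * c := by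
  have hN : (0 : ℝ) < N := by exact_mod_cast h.pos
  have hpt : ∀ s : Finset ℕ, (∀ j ∈ s, j < 8 * N) → s.card = 2 * N →
      ∃ ω, w ω ≠ 0 ∧ (∃ j ∈ s, Wn S j ω) ∧ ¬ (c < p (A ω - S ω • a - b) ∨ c < p (A ω - S ω • a' - b')) := by
    intro s hs hcard
    apply exists_good w h.nn (fun ω => ∃ j ∈ s, Wn S j ω) (fun ω => c < p (A ω - S ω • a - b) ∨ c < p (A ω - S ω • a' - b'))
    have e1 : Pw w (fun ω => c < p (A ω - S ω • a - b) ∨ c < p (A ω - S ω • a' - b')) ≤ 1 / 16 := by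
      refine (Pw_or w h.nn _ _).trans ?_
      linarith
    have e2 : 1 / 8 ≤ Pw w (fun ω => ∃ j ∈ s, Wn S j ω) := by
      have e3 := Pw_sum_le w h.nn s (Wn S) (fun ω => ∃ j ∈ s, Wn S j ω) (by
        rintro ω i j - - ⟨a1, a2⟩ ⟨b1, b2⟩
        have c1 : (i : ℝ) < j + 1 := by linarith
        have c2 : (j : ℝ) < i + 1 := by linarith
        have c3 : i < j + 1 := by exact_mod_cast c1
        have c4 : j < i + 1 := by exact_mod_cast c2
        omega) (fun ω i _ hi hP => ⟨i, hi, hP⟩)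
      refine le_trans ?_ e3
      refine le_trans ?_ (Finset.sum_le_sum (fun i hi => h.lo i (hs i hi)))
      rw [sum_const, hcard, nsmul_eq_mul]
      apply le_of_eq
      push_cast
      field_simp
      norm_num
    linarith
  obtain ⟨x, hx0, ⟨j, hj, hjx⟩, hx⟩ := hpt (range (2 * N)) (fun j hj => by rw [mem_range] at hj; omega) (card_range _)
  obtain ⟨y, hy0, ⟨i, hi, hiy⟩, hy⟩ := hpt (Finset.Ico (6 * N) (8 * N)) (fun j hj => (mem_Ico.mp hj).2) (by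
    rw [Nat.card_Ico]
    omega)
  push Not at hx hy
  have s1 : S x < (N : ℝ) / 4 := by
    have : (j : ℝ) + 1 ≤ 2 * N := by exact_mod_cast mem_range.mp hj
    have := hjx.2
    linarith
  have s2 : 3 * (N : ℝ) / 4 ≤ S y := by
    have : (6 : ℝ) * N ≤ i := by exact_mod_cast (mem_Ico.mp hi).1
    have := hiy.1
    linarith
  have e : (S y - S x) • (a' - a) = (A y - S y • a - b) - (A y - S y • a' - b') - (A x - S x • a - b)
      + (A x - S x • a' - b') := by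
    rw [sub_smul, smul_sub, smul_sub]
    abel
  have q : p ((S y - S x) • (a' - a)) ≤ 4 * c := by
    rw [e]
    have q1 := map_add_le_add p ((A y - S y • a - b) - (A y - S y • a' - b') - (A x - S x • a - b)) (A x - S x • a' - b')
    have q2 := map_sub_le_add p ((A y - S y • a - b) - (A y - S y • a' - b')) (A x - S x • a - b)
    have q3 := map_sub_le_add p (A y - S y • a - b) (A y - S y • a' - b')
    linarith [hx.1, hx.2, hy.1, hy.2]
  rw [map_smul_eq_mul, Real.norm_eq_abs, abs_of_nonneg (by linarith)] at q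
  have q4 : p (a' - a) = p (a - a') := map_sub_rev p a' a
  rw [q4] at q
  have q5 : (N : ℝ) / 2 * p (a - a') ≤ (S y - S x) * p (a - a') :=
    mul_le_mul_of_nonneg_right (by linarith) (apply_nonneg p _)
  linarith

/-! ### finer labels -/

/-- conditioning on a finer label -/
theorem Pw_fine (μ : Ω → ℝ) (hμ : ∀ ω, 0 ≤ μ ω) {α β : Type} (F : Ω → α) (G : Ω → β) {x y : Ω} (hy : μ y ≠ 0)
    (hG : ∀ ω, μ ω ≠ 0 → F ω = F y → G ω = G x) (P : Ω → Prop) :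
    Pw (cw μ G x) (fun ω => F ω = F y ∧ P ω) = Pw (cw μ G x) (fun ω => F ω = F y) * Pw (cw μ F y) P := by
  classical
  have hF := (e1_pr_pos μ F hμ y hy).ne'
  have e1 : ∀ Q : Ω → Prop, Pw (cw μ G x) (fun ω => F ω = F y ∧ Q ω) =
      (∑ ω, if F ω = F y ∧ Q ω then μ ω else 0) / pr μ G x := by
    intro Q
    unfold Pw
    rw [Finset.sum_div]
    refine Finset.sum_congr rfl fun ω _ => ?_
    by_cases h1 : F ω = F y ∧ Q ω
    · rw [if_pos h1, if_pos h1, cw_ind]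
      by_cases h0 : μ ω = 0
      · rw [h0]
        simp
      · rw [e1_ind_pos (hG ω h0 h1.1), one_mul]
    · rw [if_neg h1, if_neg h1, zero_div]
  have e2 : Pw (cw μ F y) P = (∑ ω, if F ω = F y ∧ P ω then μ ω else 0) / pr μ F y := by
    unfold Pw
    rw [Finset.sum_div]
    refine Finset.sum_congr rfl fun ω _ => ?_
    rw [cw_ind]
    by_cases h1 : P ω
    · by_cases h2 : F ω = F y
      · rw [if_pos h1, if_pos ⟨h2, h1⟩, e1_ind_pos h2, one_mul]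
      · rw [if_pos h1, if_neg (fun h => h2 h.1), e1_ind_neg h2, zero_mul]
    · rw [if_neg h1, if_neg (fun h => h1 h.2), zero_div]
  have e3 : Pw (cw μ G x) (fun ω => F ω = F y) = pr μ F y / pr μ G x := by
    have e4 := e1 (fun _ => True)
    simp only [and_true] at e4
    rw [e4, e1_pr_eq μ F y]
  rw [e1 P, e2, e3]
  field_simp

/-! ### the cells of a pair -/

variable (μ : Ω → ℝ) (K : Ω → κ) (T : Ω → ℝ) (A : Ω → E) (p : κ → Seminorm ℝ E) (lab : Ω × Ω → Λ)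

/-- the pair label determines the difference of the vectors up to `r` -/
def LabA (r : ℝ) : Prop := ∀ x y, amw μ μ K K x ≠ 0 → amw μ μ K K y ≠ 0 → K x.2 = K y.2 → lab x = lab y →
  p (K x.2) ((A x.1 - A x.2) - (A y.1 - A y.2)) ≤ r

variable {μ K T A p lab}

/-- the tubes of the subcells of one cell -/
theorem exists_tub (hμ : ∀ ω, 0 ≤ μ ω) {l D : ℕ} {r κ' θ₀ : ℝ} {x : Ω}
    (h : Nu (cw μ (KC K T l) x) (Pos T l D (cl l (T x))) (2 ^ D))
    (hb : Pw (cw μ (KC K T l) x) (fun ω => ¬ TubeAt μ K T A p (l + D) r κ' θ₀ ω) ≤ 1 / 32) :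
    ∃ (G : Finset ℕ) (a o : ℕ → E), Tub (cw μ (KC K T l) x) (Pos T l D (cl l (T x))) A (p (K x)) (2 ^ D) G a o
      (2 ^ (l + D) * θ₀) r (2 * κ') ∧ ((range (2 ^ D) \ G).card : ℝ) / ((2 ^ D : ℕ) : ℝ) ≤
      2 * Pw (cw μ (KC K T l) x) (fun ω => ¬ TubeAt μ K T A p (l + D) r κ' θ₀ ω) := by
  classical
  set w := cw μ (KC K T l) x with hw
  set S := Pos T l D (cl l (T x)) with hS
  have hN0 : (0 : ℝ) < ((2 ^ D : ℕ) : ℝ) := by positivity
  have hcell : ∀ {u : ℕ} {ω : Ω}, w ω ≠ 0 → Sb S u ω → KC K T (l + D) ω = (cl l (T x) * 2 ^ D + (u : ℤ), K x) := by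
    intro u ω hω hs
    obtain ⟨h1, -⟩ := cw_ne_zero μ _ hω
    have h2 : K ω = K x := (Prod.ext_iff.mp h1).2
    refine Prod.ext ?_ h2
    show cl (l + D) (T ω) = _
    rw [cl_iff]
    obtain ⟨s1, s2⟩ := hs
    unfold Pos at hS
    have s1' : (u : ℝ) ≤ 2 ^ (l + D) * T ω - 2 ^ D * cl l (T x) := by rw [hS] at s1; exact s1
    have s2' : 2 ^ (l + D) * T ω - 2 ^ D * cl l (T x) < (u : ℝ) + 1 := by rw [hS] at s2; exact s2
    push_cast
    constructor <;> linarith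
  obtain ⟨G, hG⟩ : ∃ G : Finset ℕ, G = (range (2 ^ D)).filter (fun u => ∃ ω, w ω ≠ 0 ∧ Sb S u ω ∧
      TubeAt μ K T A p (l + D) r κ' θ₀ ω) := ⟨_, rfl⟩
  have hGr : G ⊆ range (2 ^ D) := by rw [hG]; exact filter_subset _ _
  have hcard : ((range (2 ^ D) \ G).card : ℝ) * (1 / (2 * ((2 ^ D : ℕ) : ℝ))) ≤
      Pw w (fun ω => ¬ TubeAt μ K T A p (l + D) r κ' θ₀ ω) := by
    have e1 := Pw_sum_le w h.nn (range (2 ^ D) \ G) (Sb S) (fun ω => ¬ TubeAt μ K T A p (l + D) r κ' θ₀ ω) (by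
      rintro ω i j - - ⟨a1, a2⟩ ⟨b1, b2⟩
      have c1 : (i : ℝ) < j + 1 := by linarith
      have c2 : (j : ℝ) < i + 1 := by linarith
      have c3 : i < j + 1 := by exact_mod_cast c1
      have c4 : j < i + 1 := by exact_mod_cast c2
      omega) (by
      intro ω i h0 hi hP ht
      rw [mem_sdiff] at hi
      apply hi.2
      rw [hG, mem_filter]
      exact ⟨hi.1, ω, h0, hP, ht⟩)
    refine le_trans ?_ e1
    rw [← nsmul_eq_mul, ← sum_const]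
    exact Finset.sum_le_sum fun i hi => h.sb_lo (mem_range.mp (mem_sdiff.mp hi).1)
  have hcard2 : ((range (2 ^ D) \ G).card : ℝ) / ((2 ^ D : ℕ) : ℝ) ≤
      2 * Pw w (fun ω => ¬ TubeAt μ K T A p (l + D) r κ' θ₀ ω) := by
    have e1 : ((range (2 ^ D) \ G).card : ℝ) / ((2 ^ D : ℕ) : ℝ) =
        2 * (((range (2 ^ D) \ G).card : ℝ) * (1 / (2 * ((2 ^ D : ℕ) : ℝ)))) := by field_simp
    rw [e1]
    linarith
  have hex : ∀ u ∈ G, ∃ a o : E, (2 : ℝ) ^ (l + D) * θ₀ * p (K x) a ≤ r ∧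
      Pw w (fun ω => Sb S u ω ∧ r < p (K x) (A ω - S ω • a - o)) ≤ 2 * κ' / ((2 ^ D : ℕ) : ℝ) := by
    intro u hu
    rw [hG, mem_filter] at hu
    obtain ⟨hu1, y, hy0, hys, a, o, ha, ht⟩ := hu
    obtain ⟨hy1, hy2⟩ := cw_ne_zero μ _ hy0
    have hKy : K y = K x := (Prod.ext_iff.mp hy1).2
    have hKC := hcell hy0 hys
    have hp2 : (0 : ℝ) < 2 ^ (l + D) := by positivity
    refine ⟨((2 : ℝ) ^ (l + D))⁻¹ • a, o + (((2 : ℝ) ^ (l + D))⁻¹ * (2 ^ D * cl l (T x))) • a, ?_, ?_⟩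
    · rw [map_smul_eq_mul, Real.norm_eq_abs, abs_of_pos (by positivity)]
      have e1 : (2 : ℝ) ^ (l + D) * θ₀ * (((2 : ℝ) ^ (l + D))⁻¹ * p (K x) a) = θ₀ * p (K x) a := by
        field_simp
      rw [e1, ← hKy]
      exact ha
    · have e1 : Pw w (fun ω => Sb S u ω ∧ r < p (K x) (A ω - S ω • (((2 : ℝ) ^ (l + D))⁻¹ • a) -
          (o + (((2 : ℝ) ^ (l + D))⁻¹ * (2 ^ D * cl l (T x))) • a))) ≤
          Pw w (fun ω => KC K T (l + D) ω = KC K T (l + D) y ∧ r < p (K y) (A ω - T ω • a - o)) := by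
        refine Pw_mono w h.nn ?_
        rintro ω h0 ⟨h1, h2⟩
        refine ⟨(hcell h0 h1).trans hKC.symm, ?_⟩
        have e2 : A ω - S ω • (((2 : ℝ) ^ (l + D))⁻¹ • a) - (o + (((2 : ℝ) ^ (l + D))⁻¹ * (2 ^ D * cl l (T x))) • a) =
            A ω - T ω • a - o := by
          have e3 : T ω = S ω * ((2 : ℝ) ^ (l + D))⁻¹ + ((2 : ℝ) ^ (l + D))⁻¹ * (2 ^ D * cl l (T x)) := by
            rw [hS]
            unfold Pos
            field_simp
            ring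
          conv_rhs => rw [e3]
          rw [add_smul, smul_smul]
          abel
        rw [e2] at h2
        rw [hKy]
        exact h2
      refine e1.trans ?_
      have hfine := Pw_fine μ hμ (KC K T (l + D)) (KC K T l) (x := x) hy2 (by
        intro ω _ hω
        have e3 : KC K T (l + D) ω = (cl l (T x) * 2 ^ D + (u : ℤ), K x) := hω.trans hKC
        obtain ⟨e4, e5⟩ := Prod.ext_iff.mp e3
        refine Prod.ext ?_ e5
        show cl l (T ω) = cl l (T x)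
        have e6 : cl (l + D) (T ω) = cl (l + D) (T y) := (Prod.ext_iff.mp hω).1
        exact (cl_coarse e6).trans (Prod.ext_iff.mp hy1).1) (fun ω => r < p (K y) (A ω - T ω • a - o))
      rw [← hw] at hfine
      rw [hfine]
      have e7 : Pw w (fun ω => KC K T (l + D) ω = KC K T (l + D) y) ≤ 2 / ((2 ^ D : ℕ) : ℝ) := by
        refine le_trans (Pw_mono w h.nn ?_) (h.sb (mem_range.mp hu1))
        intro ω h0 h1
        have e3 : KC K T (l + D) ω = (cl l (T x) * 2 ^ D + (u : ℤ), K x) := h1.trans hKC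
        have e4 : cl (l + D) (T ω) = cl l (T x) * 2 ^ D + (u : ℤ) := (Prod.ext_iff.mp e3).1
        rw [cl_iff] at e4
        push_cast at e4
        rw [hS]
        unfold Pos
        constructor
        · show (u : ℝ) ≤ _
          linarith [e4.1]
        · show _ < (u : ℝ) + 1
          linarith [e4.2]
      calc Pw w (fun ω => KC K T (l + D) ω = KC K T (l + D) y) * Pw (cw μ (KC K T (l + D)) y) (fun ω =>
            r < p (K y) (A ω - T ω • a - o)) ≤ 2 / ((2 ^ D : ℕ) : ℝ) * κ' :=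
            mul_le_mul e7 ht (Pw_nonneg _ (fun ω => cw_nonneg μ _ hμ _ _) _) (by positivity)
        _ = 2 * κ' / ((2 ^ D : ℕ) : ℝ) := by ring
  choose! a o hao1 hao2 using hex
  refine ⟨G, a, o, ⟨hGr, ?_, hao1, hao2⟩, hcard2⟩
  unfold Dense
  have e1 : ((range (2 ^ D) \ G).card : ℝ) / ((2 ^ D : ℕ) : ℝ) ≤ 1 / 16 := by linarith
  rw [div_le_iff₀ hN0] at e1
  have e2 : (16 : ℝ) * ((range (2 ^ D) \ G).card : ℝ) ≤ ((2 ^ D : ℕ) : ℝ) := by linarith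
  exact_mod_cast e2

/-- the tube of thickness `c` with slope `a` in the cell of level `l` of `x` -/
def Tu (μ : Ω → ℝ) (K : Ω → κ) (T : Ω → ℝ) (A : Ω → E) (p : κ → Seminorm ℝ E) (l : ℕ) (c κ' : ℝ) (a : E) (x : Ω) : Prop :=
  ∃ o : E, Pw (cw μ (KC K T l) x) (fun ω => c < p (K x) (A ω - T ω • a - o)) ≤ κ'

/-- the mass of the bad subcells of the cell of `x` -/
noncomputable def bm (μ : Ω → ℝ) (K : Ω → κ) (T : Ω → ℝ) (A : Ω → E) (p : κ → Seminorm ℝ E) (l D : ℕ) (r κ' θ₀ : ℝ)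
    (x : Ω) : ℝ := Pw (cw μ (KC K T l) x) (fun ω => ¬ TubeAt μ K T A p (l + D) r κ' θ₀ ω)

/-- a tube in the variable `T` from a tube in the position -/
theorem tu_of_pos {l D : ℕ} {c κ' : ℝ} {a b : E} {x : Ω}
    (h : Pw (cw μ (KC K T l) x) (fun ω => c < p (K x) (A ω - Pos T l D (cl l (T x)) ω • a - b)) ≤ κ') :
    Tu μ K T A p l c κ' ((2 : ℝ) ^ (l + D) • a) x := by
  refine ⟨b - (2 ^ D * (cl l (T x) : ℝ)) • a, ?_⟩
  have e : (fun ω => c < p (K x) (A ω - T ω • ((2 : ℝ) ^ (l + D) • a) - (b - (2 ^ D * (cl l (T x) : ℝ)) • a))) =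
      (fun ω => c < p (K x) (A ω - Pos T l D (cl l (T x)) ω • a - b)) := by
    funext ω
    have e1 : A ω - T ω • ((2 : ℝ) ^ (l + D) • a) - (b - (2 ^ D * (cl l (T x) : ℝ)) • a) =
        A ω - Pos T l D (cl l (T x)) ω • a - b := by
      unfold Pos
      rw [smul_smul, sub_smul, mul_comm (T ω)]
      abel
    rw [e1]
  rw [e]
  exact h

theorem pos_of_tu {l D : ℕ} {c κ' : ℝ} {a : E} {x : Ω} (h : Tu μ K T A p l c κ' a x) :
    ∃ b, Pw (cw μ (KC K T l) x) (fun ω => c < p (K x) (A ω - Pos T l D (cl l (T x)) ω • (((2 : ℝ) ^ (l + D))⁻¹ • a) - b))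
      ≤ κ' := by
  obtain ⟨o, ho⟩ := h
  refine ⟨o + (((2 : ℝ) ^ (l + D))⁻¹ * (2 ^ D * cl l (T x))) • a, ?_⟩
  have e : (fun ω => c < p (K x) (A ω - Pos T l D (cl l (T x)) ω • (((2 : ℝ) ^ (l + D))⁻¹ • a) -
      (o + (((2 : ℝ) ^ (l + D))⁻¹ * (2 ^ D * cl l (T x))) • a))) = (fun ω => c < p (K x) (A ω - T ω • a - o)) := by
    funext ω
    have e1 : A ω - Pos T l D (cl l (T x)) ω • (((2 : ℝ) ^ (l + D))⁻¹ • a) -
        (o + (((2 : ℝ) ^ (l + D))⁻¹ * (2 ^ D * cl l (T x))) • a) = A ω - T ω • a - o := by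
      have e3 : T ω = Pos T l D (cl l (T x)) ω * ((2 : ℝ) ^ (l + D))⁻¹ +
          ((2 : ℝ) ^ (l + D))⁻¹ * (2 ^ D * cl l (T x)) := by
        unfold Pos
        field_simp
        ring
      conv_rhs => rw [e3]
      rw [add_smul, smul_smul]
      abel
    rw [e1]
  rw [e]
  exact ho

/-- **the two cells of a typical pair** are tubes with one slope -/
theorem pair_tubes (hμ : ∀ ω, 0 ≤ μ ω) {l D : ℕ} {r κ' θ₀ ε : ℝ} (hD : 6 ≤ D) (hr : 0 ≤ r) (hκ0 : 0 ≤ κ')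
    (hκ : κ' ≤ 1 / 16384) (hθ : 2 ^ (l + D) * θ₀ ≤ 1 / 16) (hε : ε ≤ 1 / (1024 * ((2 : ℝ) ^ D) ^ 2))
    (hA : LabA μ K A p lab r) {x : Ω × Ω} (hx : amw μ μ K K x ≠ 0)
    (hP : POK μ K T lab D l (2 ^ (l + D) * θ₀) ε x) (h1 : bm μ K T A p l D r κ' θ₀ x.1 ≤ 1 / 32)
    (h2 : bm μ K T A p l D r κ' θ₀ x.2 ≤ 1 / 32) :
    ∃ a : E, Tu μ K T A p l (34000 * r) (2 * κ' + 4 * bm μ K T A p l D r κ' θ₀ x.1) a x.1 ∧
      Tu μ K T A p l (34000 * r) (2 * κ' + 4 * bm μ K T A p l D r κ' θ₀ x.2) a x.2 := by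
  obtain ⟨n1, n2, hE⟩ := hP
  obtain ⟨hK, -, -⟩ := amw_supp μ μ K K x hx
  obtain ⟨G₁, a₁, o₁, t1, c1⟩ := exists_tub (A := A) (p := p) (r := r) (κ' := κ') (θ₀ := θ₀) hμ n1 h1
  obtain ⟨G₂, a₂, o₂, t2, c2⟩ := exists_tub (A := A) (p := p) (r := r) (κ' := κ') (θ₀ := θ₀) hμ n2 h2
  rw [← hK] at t2
  have hpsi : Psi (cw μ (KC K T l) x.1) (cw μ (KC K T l) x.2) A A (p (K x.1)) lab r := by
    intro y z hy hz hl
    rw [wp_eq μ hμ K T l hx] at hy hz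
    obtain ⟨y1, y2⟩ := cw_ne_zero _ _ hy
    obtain ⟨z1, z2⟩ := cw_ne_zero _ _ hz
    have y3 : K y.1 = K x.1 := (Prod.ext_iff.mp (Prod.ext_iff.mp y1).2).2
    have z3 : K z.1 = K x.1 := (Prod.ext_iff.mp (Prod.ext_iff.mp z1).2).2
    have y4 := (amw_supp μ μ K K y y2).1
    have z4 := (amw_supp μ μ K K z z2).1
    have h3 := hA y z y2 z2 (by rw [← y4, ← z4, y3, z3]) hl
    rw [← y4, y3] at h3
    exact h3
  have hN : 64 ≤ 2 ^ D := by
    calc 64 = 2 ^ 6 := by norm_num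
      _ ≤ 2 ^ D := Nat.pow_le_pow_right (by norm_num) hD
  obtain ⟨a, b₁, b₂, -, -, g1, g2⟩ := astar hN n1 n2 hE hpsi hθ hr (κ := 2 * κ') (by linarith) (by linarith) (by
    push_cast
    exact hε) t1 t2
  have d1 := tu_of_pos (p := p) g1
  have hs : (fun ω => 34000 * r < (p (K x.1)) (A ω - Pos T l D (cl l (T x.2)) ω • a - b₂)) =
      (fun ω => 34000 * r < (p (K x.2)) (A ω - Pos T l D (cl l (T x.2)) ω • a - b₂)) := by rw [hK]
  rw [hs] at g2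
  have d2 := tu_of_pos (p := p) g2
  refine ⟨(2 : ℝ) ^ (l + D) • a, ?_, ?_⟩
  · obtain ⟨o, ho⟩ := d1
    refine ⟨o, ho.trans ?_⟩
    unfold bm
    linarith
  · obtain ⟨o, ho⟩ := d2
    refine ⟨o, ho.trans ?_⟩
    unfold bm
    linarith

/-- slopes of tubes of one cell, in the variable `T` -/
theorem tu_slope {l D : ℕ} {c κ₁ κ₂ : ℝ} {a a' : E} {x : Ω}
    (n : Nu (cw μ (KC K T l) x) (Pos T l D (cl l (T x))) (2 ^ D)) (h1 : Tu μ K T A p l c κ₁ a x)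
    (h2 : Tu μ K T A p l c κ₂ a' x) (hκ₁ : κ₁ ≤ 1 / 32) (hκ₂ : κ₂ ≤ 1 / 32) :
    p (K x) (a - a') ≤ 8 * c * 2 ^ l := by
  obtain ⟨b, hb⟩ := pos_of_tu (D := D) h1
  obtain ⟨b', hb'⟩ := pos_of_tu (D := D) h2
  have h3 := slope_unique n A (p (K x)) (hb.trans hκ₁) (hb'.trans hκ₂)
  have h4 : ((2 : ℝ) ^ (l + D))⁻¹ • a - ((2 : ℝ) ^ (l + D))⁻¹ • a' = ((2 : ℝ) ^ (l + D))⁻¹ • (a - a') := by
    rw [smul_sub]
  rw [h4, map_smul_eq_mul, Real.norm_eq_abs, abs_of_pos (by positivity)] at h3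
  push_cast at h3
  have h5 : (2 : ℝ) ^ D * (((2 : ℝ) ^ (l + D))⁻¹ * (p (K x)) (a - a')) = p (K x) (a - a') / 2 ^ l := by
    rw [pow_add]
    field_simp
  rw [h5, div_le_iff₀ (by positivity)] at h3
  exact h3

/-- change of slope -/
theorem Tu.change {l : ℕ} {c κ₁ d : ℝ} {a a' : E} {x : Ω} (hμ : ∀ ω, 0 ≤ μ ω) (h : Tu μ K T A p l c κ₁ a x)
    (hd : p (K x) (a - a') ≤ d * 2 ^ l) : Tu μ K T A p l (c + d) κ₁ a' x := by
  obtain ⟨o, ho⟩ := h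
  refine ⟨o + ((cl l (T x) : ℝ) / 2 ^ l) • (a - a'), le_trans (Pw_mono _ (fun ω => cw_nonneg μ _ hμ _ _) ?_) ho⟩
  intro ω h0 h1
  obtain ⟨h2, -⟩ := cw_ne_zero μ _ h0
  have h3 : cl l (T ω) = cl l (T x) := (Prod.ext_iff.mp h2).1
  rw [cl_iff] at h3
  by_contra hcon
  push Not at hcon
  refine absurd h1 (not_lt.mpr ?_)
  have e : A ω - T ω • a' - (o + ((cl l (T x) : ℝ) / 2 ^ l) • (a - a')) = (A ω - T ω • a - o) +
      (T ω - (cl l (T x) : ℝ) / 2 ^ l) • (a - a') := by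
    rw [sub_smul, smul_sub (T ω)]
    abel
  rw [e]
  refine (map_add_le_add _ _ _).trans ?_
  have hp : (0 : ℝ) < 2 ^ l := by positivity
  have h5 : 0 ≤ T ω - (cl l (T x) : ℝ) / 2 ^ l := by
    rw [sub_nonneg, div_le_iff₀ hp]
    linarith [h3.1]
  have h6 : T ω - (cl l (T x) : ℝ) / 2 ^ l ≤ 1 / 2 ^ l := by
    rw [sub_le_iff_le_add, ← add_div, le_div_iff₀ hp]
    linarith [h3.2]
  rw [map_smul_eq_mul, Real.norm_eq_abs, abs_of_nonneg h5]
  have h7 : (T ω - (cl l (T x) : ℝ) / 2 ^ l) * p (K x) (a - a') ≤ 1 / 2 ^ l * (d * 2 ^ l) :=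
    mul_le_mul h6 hd (apply_nonneg _ _) (by positivity)
  have h8 : 1 / (2 : ℝ) ^ l * (d * 2 ^ l) = d := by field_simp
  linarith

/-- the law of the first point given the second point -/
theorem amw_disint (P : Ω × Ω → Prop) :
    Pw (amw μ μ K K) P = ∑ y, μ y * Pw (cw μ K y) (fun x => P (x, y)) := by
  classical
  unfold Pw
  rw [Fintype.sum_prod_type_right]
  refine Finset.sum_congr rfl fun y _ => ?_
  rw [Finset.mul_sum]
  refine Finset.sum_congr rfl fun x _ => ?_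
  have h1 : amw μ μ K K (x, y) = μ y * cw μ K y x := by
    rw [cw_ind, pr_eq_ms]
    show e1_ind (K x = K y) * (μ x * μ y / ms μ K (K x)) = _
    by_cases h : K x = K y
    · rw [e1_ind_pos h, h]
      ring
    · rw [e1_ind_neg h]
      ring
  by_cases hP : P (x, y)
  · rw [if_pos hP, if_pos hP, h1]
  · rw [if_neg hP, if_neg hP, mul_zero]

/-- a good representative of every fibre -/
theorem exists_rep (hμ : ∀ ω, 0 ≤ μ ω) (hne : Nonempty Ω) (Bad : Ω × Ω → Prop) :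
    ∃ R : κ → Ω, (∀ ω, μ ω ≠ 0 → K (R (K ω)) = K ω ∧ μ (R (K ω)) ≠ 0) ∧
      Pw μ (fun ω => Bad (ω, R (K ω))) ≤ Pw (amw μ μ K K) Bad := by
  classical
  obtain ⟨ω₀⟩ := hne
  have h1 : ∀ k : κ, ∃ y : Ω, (∃ ω, μ ω ≠ 0 ∧ K ω = k) → (μ y ≠ 0 ∧ K y = k ∧ ∀ ω, μ ω ≠ 0 → K ω = k →
      Pw (cw μ K y) (fun x => Bad (x, y)) ≤ Pw (cw μ K ω) (fun x => Bad (x, ω))) := by
    intro k
    by_cases h : ∃ ω, μ ω ≠ 0 ∧ K ω = k
    · obtain ⟨ω, hω⟩ := h
      obtain ⟨y, hy, hmin⟩ := Finset.exists_min_image (univ.filter (fun ω => μ ω ≠ 0 ∧ K ω = k))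
        (fun ω => Pw (cw μ K ω) (fun x => Bad (x, ω))) ⟨ω, by simp [hω]⟩
      rw [mem_filter] at hy
      exact ⟨y, fun _ => ⟨hy.2.1, hy.2.2, fun ω' h0 h1 => hmin ω' (by simp [h0, h1])⟩⟩
    · exact ⟨ω₀, fun h' => absurd h' h⟩
  choose R hR using h1
  refine ⟨R, fun ω h0 => ⟨(hR (K ω) ⟨ω, h0, rfl⟩).2.1, (hR (K ω) ⟨ω, h0, rfl⟩).1⟩, ?_⟩
  rw [amw_disint, Pw_tower μ hμ K]
  refine Finset.sum_le_sum fun ω _ => ?_
  by_cases h0 : μ ω = 0
  · simp [h0]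
  refine mul_le_mul_of_nonneg_left ?_ (hμ ω)
  obtain ⟨r1, r2, r3⟩ := hR (K ω) ⟨ω, h0, rfl⟩
  refine le_trans (le_of_eq ?_) (r3 ω h0 rfl)
  rw [cw_congr' μ K r2]
  unfold Pw
  refine Finset.sum_congr rfl fun x _ => ?_
  by_cases hx : cw μ K ω x = 0
  · simp [hx]
  · obtain ⟨h2, -⟩ := cw_ne_zero μ K hx
    have h3 : Bad (x, R (K x)) ↔ Bad (x, R (K ω)) := by rw [h2]
    by_cases h4 : Bad (x, R (K x))
    · rw [if_pos h4, if_pos (h3.mp h4)]
    · rw [if_neg h4, if_neg (fun h => h4 (h3.mpr h))]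

theorem bm_nonneg (hμ : ∀ ω, 0 ≤ μ ω) {l D : ℕ} {r κ' θ₀ : ℝ} (x : Ω) : 0 ≤ bm μ K T A p l D r κ' θ₀ x :=
  Pw_nonneg _ (fun _ => cw_nonneg μ _ hμ _ _) _

theorem sum_bm (hμ : ∀ ω, 0 ≤ μ ω) {l D : ℕ} {r κ' θ₀ : ℝ} :
    ∑ ω, μ ω * bm μ K T A p l D r κ' θ₀ ω = Pw μ (fun ω => ¬ TubeAt μ K T A p (l + D) r κ' θ₀ ω) :=
  (Pw_tower μ hμ (KC K T l) _).symm

/-- **tubes of a fibre**, one slope per fibre -/
theorem star_tubes (hμ : ∀ ω, 0 ≤ μ ω) (hm : ∑ ω, μ ω = 1) {l D : ℕ} {r κ' θ₀ ε : ℝ} (hD : 6 ≤ D) (hr : 0 ≤ r)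
    (hκ0 : 0 ≤ κ') (hκ : κ' ≤ 1 / 16384) (hθ : 2 ^ (l + D) * θ₀ ≤ 1 / 16) (hε : ε ≤ 1 / (1024 * ((2 : ℝ) ^ D) ^ 2))
    (hA : LabA μ K A p lab r) :
    ∃ (a : κ → E) (o : ℤ × κ → E),
      Pw μ (fun ω => 306000 * r < p (K ω) (A ω - T ω • a (K ω) - o (KC K T l ω))) ≤
      Pw (amw μ μ K K) (fun x => ¬ POK μ K T lab D l (2 ^ (l + D) * θ₀) ε x) +
      516 * Pw μ (fun ω => ¬ TubeAt μ K T A p (l + D) r κ' θ₀ ω) + 2 * κ' := by
  classical
  have hne : Nonempty Ω := by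
    by_contra h
    rw [not_nonempty_iff] at h
    rw [Finset.univ_eq_empty, Finset.sum_empty] at hm
    exact zero_ne_one hm
  set ν := amw μ μ K K with hν
  have hν0 : ∀ x, 0 ≤ ν x := amw_nonneg μ μ K K hμ hμ
  have hf : push Prod.fst ν = μ := amw_push_fst μ μ K K (fun _ => rfl) hμ
  have hs : push Prod.snd ν = μ := amw_push_snd μ μ K K (fun _ => rfl) hμ
  set B : Ω → ℝ := bm μ K T A p l D r κ' θ₀ with hB
  have hB0 : ∀ ω, 0 ≤ B ω := bm_nonneg hμ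
  set δ := Pw μ (fun ω => ¬ TubeAt μ K T A p (l + D) r κ' θ₀ ω) with hδ
  have hsB : ∑ ω, μ ω * B ω = δ := sum_bm hμ
  set Bad : Ω × Ω → Prop := fun x => ¬ (POK μ K T lab D l (2 ^ (l + D) * θ₀) ε x ∧ B x.1 ≤ 1 / 256 ∧ B x.2 ≤ 1 / 256)
    with hBad
  -- most pairs are good
  have hbad : Pw ν Bad ≤ Pw ν (fun x => ¬ POK μ K T lab D l (2 ^ (l + D) * θ₀) ε x) + 512 * δ := by
    have e0 : Pw μ (fun ω => 1 / 256 < B ω) ≤ 256 * δ := by
      refine (Pw_markov μ hμ B (fun ω _ => hB0 ω) (by norm_num) hsB.le).trans (le_of_eq ?_)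
      ring
    have e1 : Pw ν (fun x => 1 / 256 < B x.1) = Pw μ (fun ω => 1 / 256 < B ω) := by
      rw [Pw_push Prod.fst ν (fun ω => 1 / 256 < B ω), hf]
    have e2 : Pw ν (fun x => 1 / 256 < B x.2) = Pw μ (fun ω => 1 / 256 < B ω) := by
      rw [Pw_push Prod.snd ν (fun ω => 1 / 256 < B ω), hs]
    have e3 : Pw ν Bad ≤ Pw ν (fun x => ¬ POK μ K T lab D l (2 ^ (l + D) * θ₀) ε x) +
        (Pw ν (fun x => 1 / 256 < B x.1) + Pw ν (fun x => 1 / 256 < B x.2)) := by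
      refine le_trans (Pw_mono ν hν0 ?_) (le_trans (Pw_or ν hν0 _ (fun x => 1 / 256 < B x.1 ∨ 1 / 256 < B x.2))
        (add_le_add le_rfl (Pw_or ν hν0 _ _)))
      intro x _ hx
      by_contra hcon
      push Not at hcon
      exact hx hcon
    linarith
  obtain ⟨R, hR1, hR2⟩ := exists_rep (μ := μ) (K := K) hμ hne Bad
  have hsupp : ∀ ω, μ ω ≠ 0 → ν (ω, R (K ω)) ≠ 0 := by
    intro ω h0
    obtain ⟨r1, r2⟩ := hR1 ω h0
    show e1_ind (K ω = K (R (K ω))) * (μ ω * μ (R (K ω)) / ms μ K (K ω)) ≠ 0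
    rw [e1_ind_pos r1.symm, one_mul]
    exact div_ne_zero (mul_ne_zero h0 r2) (ms_pos μ K hμ ω h0).ne'
  have hpair : ∀ ω, μ ω ≠ 0 → ¬ Bad (ω, R (K ω)) → ∃ a : E, Tu μ K T A p l (34000 * r) (2 * κ' + 4 * B ω) a ω ∧
      Tu μ K T A p l (34000 * r) (1 / 32) a (R (K ω)) := by
    intro ω h0 hg
    obtain ⟨g1, g2, g3⟩ := not_not.mp hg
    obtain ⟨a, ha1, o, ho⟩ := pair_tubes (A := A) (p := p) hμ hD hr hκ0 hκ hθ hε hA (hsupp ω h0) g1
      (le_trans g2 (by norm_num)) (le_trans g3 (by norm_num))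
    refine ⟨a, ha1, o, ho.trans ?_⟩
    have : bm μ K T A p l D r κ' θ₀ (R (K ω)) ≤ 1 / 256 := g3
    show 2 * κ' + 4 * bm μ K T A p l D r κ' θ₀ (R (K ω)) ≤ 1 / 32
    linarith
  -- the slopes
  have hslope : ∀ k : κ, ∃ a : E, (∃ ω, μ ω ≠ 0 ∧ K ω = k ∧ ¬ Bad (ω, R k)) →
      Tu μ K T A p l (34000 * r) (1 / 32) a (R k) := by
    intro k
    by_cases h : ∃ ω, μ ω ≠ 0 ∧ K ω = k ∧ ¬ Bad (ω, R k)
    · obtain ⟨ω, h0, rfl, hg⟩ := h
      obtain ⟨a, -, ha⟩ := hpair ω h0 hg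
      exact ⟨a, fun _ => ha⟩
    · exact ⟨0, fun h' => absurd h' h⟩
  choose a ha using hslope
  have hTu : ∀ ω, μ ω ≠ 0 → ¬ Bad (ω, R (K ω)) → Tu μ K T A p l (306000 * r) (2 * κ' + 4 * B ω) (a (K ω)) ω := by
    intro ω h0 hg
    obtain ⟨a₁, h1, h2⟩ := hpair ω h0 hg
    have h3 := ha (K ω) ⟨ω, h0, rfl, hg⟩
    obtain ⟨g1, g2, g3⟩ := not_not.mp hg
    have h4 := tu_slope (D := D) g1.2.1 h2 h3 le_rfl le_rfl
    rw [(hR1 ω h0).1] at h4
    have h5 := Tu.change hμ h1 (d := 8 * (34000 * r)) h4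
    have e : 34000 * r + 8 * (34000 * r) = 306000 * r := by ring
    rw [e] at h5
    exact h5
  -- the offsets
  have hoff : ∀ g : ℤ × κ, ∃ o : E, (∃ ω, μ ω ≠ 0 ∧ KC K T l ω = g ∧ ¬ Bad (ω, R (K ω))) →
      ∀ ω, μ ω ≠ 0 → KC K T l ω = g → Pw (cw μ (KC K T l) ω) (fun ω' => 306000 * r < p (K ω')
        (A ω' - T ω' • a (K ω') - o)) ≤ 2 * κ' + 4 * B ω := by
    intro g
    by_cases h : ∃ ω, μ ω ≠ 0 ∧ KC K T l ω = g ∧ ¬ Bad (ω, R (K ω))
    · obtain ⟨ω, h0, hg, hb⟩ := h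
      obtain ⟨o, ho⟩ := hTu ω h0 hb
      refine ⟨o, fun _ ω' h0' hg' => ?_⟩
      have e1 : KC K T l ω' = KC K T l ω := hg'.trans hg.symm
      have e2 : B ω' = B ω := by
        show Pw (cw μ (KC K T l) ω') _ = Pw (cw μ (KC K T l) ω) _
        rw [cw_congr' μ (KC K T l) e1]
      rw [cw_congr' μ (KC K T l) e1, e2]
      refine le_trans (Pw_mono _ (fun x => cw_nonneg μ _ hμ _ _) ?_) ho
      intro x hx h1
      obtain ⟨h2, -⟩ := cw_ne_zero μ _ hx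
      have h3 : K x = K ω := (Prod.ext_iff.mp h2).2
      rw [h3] at h1
      exact h1
    · exact ⟨0, fun h' => absurd h' h⟩
  choose o ho using hoff
  refine ⟨a, o, ?_⟩
  rw [Pw_tower μ hμ (KC K T l)]
  have key : ∀ ω ∈ (univ : Finset Ω), μ ω * Pw (cw μ (KC K T l) ω) (fun ω => 306000 * r <
      p (K ω) (A ω - T ω • a (K ω) - o (KC K T l ω))) ≤
      (if Bad (ω, R (K ω)) then μ ω else 0) + (2 * κ' * μ ω + 4 * (μ ω * B ω)) := by
    intro ω _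
    by_cases h0 : μ ω = 0
    · simp [h0]
    by_cases hb : Bad (ω, R (K ω))
    · rw [if_pos hb]
      have e1 : Pw (cw μ (KC K T l) ω) (fun ω => 306000 * r < p (K ω) (A ω - T ω • a (K ω) - o (KC K T l ω))) ≤ 1 :=
        Pw_le_one _ (fun x => cw_nonneg μ _ hμ _ _) (cw_sum μ _ hμ ω h0) _
      have e2 := mul_le_mul_of_nonneg_left e1 (hμ ω)
      have e3 : 0 ≤ 2 * κ' * μ ω := by
        have := hμ ω
        positivity
      have e4 : 0 ≤ 4 * (μ ω * B ω) := by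
        have := mul_nonneg (hμ ω) (hB0 ω)
        positivity
      linarith
    · rw [if_neg hb]
      have e1 : Pw (cw μ (KC K T l) ω) (fun ω => 306000 * r < p (K ω) (A ω - T ω • a (K ω) - o (KC K T l ω))) ≤
          2 * κ' + 4 * B ω := by
        refine le_trans (Pw_mono _ (fun x => cw_nonneg μ _ hμ _ _) ?_) (ho (KC K T l ω) ⟨ω, h0, rfl, hb⟩ ω h0 rfl)
        intro x hx h1
        obtain ⟨h2, -⟩ := cw_ne_zero μ _ hx
        rw [h2] at h1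
        exact h1
      have e2 := mul_le_mul_of_nonneg_left e1 (hμ ω)
      linarith
  refine (Finset.sum_le_sum key).trans ?_
  rw [Finset.sum_add_distrib, Finset.sum_add_distrib, ← Finset.mul_sum, ← Finset.mul_sum, hm, hsB]
  have e1 : ∑ ω, (if Bad (ω, R (K ω)) then μ ω else 0) = Pw μ (fun ω => Bad (ω, R (K ω))) := by
    unfold Pw
    exact Finset.sum_congr rfl fun ω _ => by
      by_cases h : Bad (ω, R (K ω))
      · rw [if_pos h, if_pos h]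
      · rw [if_neg h, if_neg h]
  rw [e1]
  linarith

/-- **tubes of the fibres at most levels** -/
theorem star_tubes_sum (hμ : ∀ ω, 0 ≤ μ ω) (hm : ∑ ω, μ ω = 1) (hT : ∀ ω, μ ω ≠ 0 → 0 ≤ T ω ∧ T ω < 1) (n : ℕ) (Ad : ℝ)
    (hH : n - Ad ≤ CH (amw μ μ K K) (fun x => cl n (T x.2)) (fun x => (lab x, K x.2))) {D M : ℕ} (hD : 6 ≤ D)
    (hM : M + (D + 3) ≤ n + 1) {θ₀ κ' : ℝ} (hθ0 : 0 ≤ θ₀) (hθ : 2 ^ (M + D) * θ₀ ≤ 1 / 16)
    (hlab : ∀ x y, amw μ μ K K x ≠ 0 → amw μ μ K K y ≠ 0 → K x.2 = K y.2 → lab x = lab y →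
      |(T x.1 - T x.2) - (T y.1 - T y.2)| ≤ θ₀)
    (hκ0 : 0 ≤ κ') (hκ : κ' ≤ 1 / 16384) (P : ℕ → κ → Seminorm ℝ E) (r : ℕ → ℝ) (hr : ∀ l < M, 0 ≤ r l)
    (hA : ∀ l < M, LabA μ K A (P l) lab (r l)) :
    ∃ (a : ℕ → κ → E) (o : ℕ → ℤ × κ → E),
      ∑ l ∈ range M, Pw μ (fun ω => 306000 * r l < P l (K ω) (A ω - T ω • a l (K ω) - o l (KC K T l ω))) ≤
      5 * (5120 * ((2 : ℝ) ^ D) ^ 2) * (16 * 2 ^ (D + 3) * (5120 * ((2 : ℝ) ^ D) ^ 2) ^ 2 *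
        (((D + 3 : ℕ) : ℝ) * (Ad + ((D + 3 : ℕ) : ℝ)))) +
      516 * ∑ l ∈ range M, Pw μ (fun ω => ¬ TubeAt μ K T A (P l) (l + D) (r l) κ' θ₀ ω) + 2 * κ' * M := by
  set τ : ℝ := 1 / (5120 * ((2 : ℝ) ^ D) ^ 2) with hτ
  have hd1 : (1 : ℝ) ≤ ((2 : ℝ) ^ D) ^ 2 := by
    have : (1 : ℝ) ≤ 2 ^ D := one_le_pow₀ (by norm_num)
    nlinarith
  have hτ0 : 0 < τ := by positivity
  have hτ1 : τ ≤ 1 / 2 := by
    rw [hτ]
    apply one_div_le_one_div_of_le (by norm_num)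
    linarith
  have hth : ∀ l < M, 2 ^ (l + D) * θ₀ ≤ 1 / 16 := by
    intro l hl
    refine le_trans (mul_le_mul_of_nonneg_right ?_ hθ0) hθ
    exact pow_le_pow_right₀ (by norm_num) (by omega)
  have h1 : ∀ l, ∃ (a : κ → E) (o : ℤ × κ → E), l < M →
      Pw μ (fun ω => 306000 * r l < P l (K ω) (A ω - T ω • a (K ω) - o (KC K T l ω))) ≤
      Pw (amw μ μ K K) (fun x => ¬ POK μ K T lab D l (2 ^ (l + D) * θ₀) (5 * τ) x) +
      516 * Pw μ (fun ω => ¬ TubeAt μ K T A (P l) (l + D) (r l) κ' θ₀ ω) + 2 * κ' := by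
    intro l
    by_cases hl : l < M
    · obtain ⟨a, o, h⟩ := star_tubes (A := A) (p := P l) hμ hm hD (hr l hl) hκ0 hκ (hth l hl) (ε := 5 * τ) (by
        rw [hτ]
        apply le_of_eq
        field_simp
        norm_num) (hA l hl)
      exact ⟨a, o, fun _ => h⟩
    · exact ⟨fun _ => 0, fun _ => 0, fun h => absurd h hl⟩
  choose a o hao using h1
  refine ⟨a, o, ?_⟩
  refine (Finset.sum_le_sum (fun l hl => hao l (mem_range.mp hl))).trans ?_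
  rw [Finset.sum_add_distrib, Finset.sum_add_distrib, ← Finset.mul_sum, Finset.sum_const, card_range, nsmul_eq_mul]
  have h2 : ∑ l ∈ range M, Pw (amw μ μ K K) (fun x => ¬ POK μ K T lab D l (2 ^ (l + D) * θ₀) (5 * τ) x) ≤
      5 / τ * (16 * 2 ^ (D + 3) / τ ^ 2 * (((D + 3 : ℕ) : ℝ) * (Ad + ((D + 3 : ℕ) : ℝ)))) := by
    exact sum_pok μ hμ hm K T hT lab n Ad hH D M hM hτ0 hτ1 (fun l => 2 ^ (l + D) * θ₀) hth (by
      intro l hl x y hx hy hK hl'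
      exact mul_le_mul_of_nonneg_left (hlab x y hx hy hK hl') (show (0 : ℝ) ≤ 2 ^ (l + D) by positivity))
  have h5 : 5 / τ * (16 * 2 ^ (D + 3) / τ ^ 2 * (((D + 3 : ℕ) : ℝ) * (Ad + ((D + 3 : ℕ) : ℝ)))) =
      5 * (5120 * ((2 : ℝ) ^ D) ^ 2) * (16 * 2 ^ (D + 3) * (5120 * ((2 : ℝ) ^ D) ^ 2) ^ 2 *
        (((D + 3 : ℕ) : ℝ) * (Ad + ((D + 3 : ℕ) : ℝ)))) := by
    rw [hτ]
    field_simp
  rw [h5] at h2
  have h6 : (M : ℝ) * (2 * κ') = 2 * κ' * M := by ring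
  rw [h6]
  linarith

end Pool.Agent.Helper99.VW
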